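import Mathlib

/-!
# Four points which are almost the vertices of a regular tetrahedron

The polar decomposition: four points of diameter at most one whose squared distances miss one by
at most `0.21` in total are, up to a translation, the image of a regular tetrahedron under a
symmetric map close to the identity.
-/

set_option autoImplicit false

namespace Helper33.MEI

open Finset

abbrev E3 := EuclideanSpace ℝ (Fin 3)

/-- the inverse of `2 √2` -/
noncomputable def rr : ℝ := 1 / (2 * Real.sqrt 2)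

theorem rr_sq : rr * rr = 1 / 8 := by
  unfold rr
  have h : Real.sqrt 2 * Real.sqrt 2 = 2 := Real.mul_self_sqrt (by norm_num)
  have h0 : Real.sqrt 2 ≠ 0 := by positivity
  field_simp
  nlinarith

/-- the standard tetrahedron -/
noncomputable def std : Fin 4 → E3 :=
  ![!₂[rr, rr, rr], !₂[rr, -rr, -rr], !₂[-rr, rr, -rr], !₂[-rr, -rr, rr]]

theorem std_inner (i : Fin 4) (y : E3) : inner ℝ (std i) y =
    ![rr * (y 0 + y 1 + y 2), rr * (y 0 - y 1 - y 2), rr * (-y 0 + y 1 - y 2),
      rr * (-y 0 - y 1 + y 2)] i := by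
  fin_cases i <;>
  simp [std, PiLp.inner_apply, Fin.sum_univ_three] <;> ring

theorem std_sum (y : E3) : ∑ i, inner ℝ (std i) y = 0 := by
  simp only [std_inner, Fin.sum_univ_four]
  simp
  ring

theorem std_tight (x y : E3) :
    ∑ i, inner ℝ (std i) x * inner ℝ (std i) y = (1 / 2) * inner ℝ x y := by
  simp only [std_inner, Fin.sum_univ_four]
  simp only [PiLp.inner_apply, Fin.sum_univ_three]
  simp
  have h := rr_sq
  linear_combination (4 * (x 0 * y 0 + x 1 * y 1 + x 2 * y 2)) * h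

theorem std_gram (i j : Fin 4) : inner ℝ (std i) (std j) = if i = j then 3 / 8 else -1 / 8 := by
  rw [std_inner]
  have h := rr_sq
  fin_cases i <;> fin_cases j <;> simp [std] <;> linarith

theorem sq_sum (β : Fin 4 → ℝ) (hβ : ∑ i, β i = 0) (c : Fin 4 → E3) :
    ‖∑ i, β i • c i‖ ^ 2 = -(1 / 2) * ∑ i, ∑ j, β i * β j * ‖c i - c j‖ ^ 2 := by
  have h1 : ∀ i j, β i * β j * ‖c i - c j‖ ^ 2 =
      (β i * ‖c i‖ ^ 2) * β j + β i * (β j * ‖c j‖ ^ 2) - 2 * inner ℝ (β i • c i) (β j • c j) := by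
    intro i j
    rw [norm_sub_sq_real, real_inner_smul_left, real_inner_smul_right]
    ring
  have h2 : ∑ i, ∑ j, β i * β j * ‖c i - c j‖ ^ 2 = -2 * ‖∑ i, β i • c i‖ ^ 2 := by
    simp only [h1, Finset.sum_sub_distrib, Finset.sum_add_distrib, ← Finset.mul_sum,
      ← Finset.sum_mul, hβ, ← inner_sum, ← sum_inner, real_inner_self_eq_norm_sq]
    ring
  rw [h2]
  ring

/-- the linear map of the four points -/
noncomputable def Bm (c : Fin 4 → E3) : E3 →ₗ[ℝ] E3 :=
  ∑ i, ((2 : ℝ) • (innerₛₗ ℝ (std i))).smulRight (c i)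

theorem Bm_apply (c : Fin 4 → E3) (y : E3) :
    Bm c y = ∑ i, (2 * inner ℝ (std i) y) • c i := by
  simp [Bm]

theorem Bm_std (c : Fin 4 → E3) (i : Fin 4) : Bm c (std i) = c i - (1 / 4 : ℝ) • ∑ j, c j := by
  rw [Bm_apply]
  simp only [std_gram]
  fin_cases i <;> simp [Fin.sum_univ_four] <;> module

/-- the squared norm of the image of a vector -/
theorem Bm_sq (c : Fin 4 → E3) (v : E3) :
    ‖Bm c v‖ ^ 2 = ‖v‖ ^ 2 + 2 * ∑ i, ∑ j, inner ℝ (std i) v * inner ℝ (std j) v *
      (if i = j then 0 else 1 - ‖c i - c j‖ ^ 2) := by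
  have h0 : ∑ i, 2 * inner ℝ (std i) v = 0 := by
    rw [← Finset.mul_sum, std_sum, mul_zero]
  rw [Bm_apply, sq_sum _ h0]
  have h1 : ∀ i j : Fin 4, 2 * inner ℝ (std i) v * (2 * inner ℝ (std j) v) * ‖c i - c j‖ ^ 2 =
      4 * (inner ℝ (std i) v * inner ℝ (std j) v) -
        (if i = j then 4 * (inner ℝ (std i) v * inner ℝ (std j) v) else 0) -
        4 * (inner ℝ (std i) v * inner ℝ (std j) v *
          (if i = j then 0 else 1 - ‖c i - c j‖ ^ 2)) := by
    intro i j
    by_cases h : i = j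
    · subst h
      simp
    · simp only [h, if_false]
      ring
  have h3 : ∑ i, inner ℝ (std i) v * inner ℝ (std i) v = (1 / 2) * ‖v‖ ^ 2 := by
    rw [std_tight, real_inner_self_eq_norm_sq]
  simp only [h1, Finset.sum_sub_distrib, ← Finset.mul_sum, Finset.sum_ite_eq,
    Finset.mem_univ, if_true, h3, std_sum, mul_zero, Finset.sum_const_zero]
  ring

theorem coef_bound (v : E3) (hv : ‖v‖ = 1) {i j : Fin 4} (hij : i ≠ j) :
    -(1 / 4) ≤ inner ℝ (std i) v * inner ℝ (std j) v ∧
      inner ℝ (std i) v * inner ℝ (std j) v ≤ 1 / 8 := by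
  have hii : ∀ k, ‖std k‖ ^ 2 = 3 / 8 := by
    intro k
    rw [← real_inner_self_eq_norm_sq, std_gram, if_pos rfl]
  have h1 := abs_real_inner_le_norm (std i - std j) v
  have h2 := abs_real_inner_le_norm (std i + std j) v
  have e1 : ‖std i - std j‖ ^ 2 = 1 := by
    rw [norm_sub_sq_real, std_gram, if_neg hij, hii, hii]; norm_num
  have e2 : ‖std i + std j‖ ^ 2 = 1 / 2 := by
    rw [norm_add_sq_real, std_gram, if_neg hij, hii, hii]; norm_num
  rw [hv, mul_one] at h1 h2
  have h3 := pow_le_pow_left₀ (abs_nonneg _) h1 2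
  have h4 := pow_le_pow_left₀ (abs_nonneg _) h2 2
  rw [sq_abs, e1, inner_sub_left] at h3
  rw [sq_abs, e2, inner_add_left] at h4
  constructor
  · nlinarith [sq_nonneg (inner ℝ (std i) v + inner ℝ (std j) v)]
  · nlinarith [sq_nonneg (inner ℝ (std i) v - inner ℝ (std j) v)]

/-- the chord bound for the square root -/
theorem sqrt_chord {s : ℝ} (h0 : 0.888 ≤ s) (h1 : s ≤ 1.0513) (hl : 0.79 ≤ s ^ 2)
    (hu : s ^ 2 ≤ 1.105) : 1 - s ≤ 0.00294 + 0.5155 * (1 - s ^ 2) := by
  have h2 : 0.8888 ≤ s := by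
    by_contra h
    push Not at h
    nlinarith
  have h3 : s ≤ 1.0512 := by
    by_contra h
    push Not at h
    nlinarith
  nlinarith

/-- **the frame** -/
theorem frame (c : Fin 4 → E3) (hd : ∀ i j, ‖c i - c j‖ ≤ 1)
    (hX : ∑ i, ∑ j, (if i = j then 0 else 1 - ‖c i - c j‖ ^ 2) ≤ 0.42) :
    ∃ (a : Fin 4 → E3) (u : OrthonormalBasis (Fin 3) ℝ E3) (s : Fin 3 → ℝ),
      (∀ i j, i ≠ j → inner ℝ (a i) (a j) = -1 / 8) ∧ (∀ i, inner ℝ (a i) (a i) = 3 / 8) ∧
      (∀ i, c i - (1 / 4 : ℝ) • ∑ j, c j = ∑ k, (s k * inner ℝ (a i) (u k)) • u k) ∧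
      (∀ k, 0.888 ≤ s k ∧ s k ≤ 1.0513) ∧ 3 - 0.063 ≤ ∑ k, s k := by
  classical
  have hx0 : ∀ i j, 0 ≤ (if i = j then (0 : ℝ) else 1 - ‖c i - c j‖ ^ 2) := by
    intro i j
    by_cases h : i = j
    · rw [if_pos h]
    · rw [if_neg h]
      have := hd i j
      have h2 := norm_nonneg (c i - c j)
      nlinarith
  set X : ℝ := ∑ i, ∑ j, (if i = j then (0 : ℝ) else 1 - ‖c i - c j‖ ^ 2) with hXd
  -- bounds for the squared norm
  have hsq : ∀ v : E3, ‖v‖ = 1 → 0.79 ≤ ‖Bm c v‖ ^ 2 ∧ ‖Bm c v‖ ^ 2 ≤ 1.105 := by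
    intro v hv
    rw [Bm_sq, hv]
    have h1 : -(1 / 4) * X ≤ ∑ i, ∑ j, inner ℝ (std i) v * inner ℝ (std j) v *
        (if i = j then 0 else 1 - ‖c i - c j‖ ^ 2) := by
      rw [hXd, Finset.mul_sum]
      refine Finset.sum_le_sum (fun i _ => ?_)
      rw [Finset.mul_sum]
      refine Finset.sum_le_sum (fun j _ => ?_)
      by_cases h : i = j
      · simp [h]
      · exact mul_le_mul_of_nonneg_right (coef_bound v hv h).1 (hx0 i j)
    have h2 : ∑ i, ∑ j, inner ℝ (std i) v * inner ℝ (std j) v *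
        (if i = j then 0 else 1 - ‖c i - c j‖ ^ 2) ≤ (1 / 8) * X := by
      rw [hXd, Finset.mul_sum]
      refine Finset.sum_le_sum (fun i _ => ?_)
      rw [Finset.mul_sum]
      refine Finset.sum_le_sum (fun j _ => ?_)
      by_cases h : i = j
      · simp [h]
      · exact mul_le_mul_of_nonneg_right (coef_bound v hv h).2 (hx0 i j)
    constructor <;> linarith
  -- the spectral theorem
  set B := Bm c with hB
  have hT : (LinearMap.adjoint B * B).IsSymmetric := LinearMap.isSymmetric_adjoint_mul_self B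
  have hn : Module.finrank ℝ E3 = 3 := by simp
  set v := hT.eigenvectorBasis hn with hv
  have hvn : ∀ k, ‖v k‖ = 1 := fun k => v.norm_eq_one k
  have hin : ∀ j k, inner ℝ (B (v j)) (B (v k)) = if j = k then ‖B (v k)‖ ^ 2 else 0 := by
    intro j k
    by_cases h : j = k
    · subst h
      rw [if_pos rfl, real_inner_self_eq_norm_sq]
    · rw [if_neg h, ← LinearMap.adjoint_inner_left]
      have h1 : LinearMap.adjoint B (B (v j)) = (hT.eigenvalues hn j : ℝ) • v j :=
        hT.apply_eigenvectorBasis hn j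
      rw [h1, real_inner_smul_left, v.inner_eq_zero h, mul_zero]
  set s : Fin 3 → ℝ := fun k => ‖B (v k)‖ with hs
  have hs0 : ∀ k, 0.79 ≤ s k ^ 2 ∧ s k ^ 2 ≤ 1.105 := fun k => hsq (v k) (hvn k)
  have hsn : ∀ k, 0 ≤ s k := fun k => norm_nonneg _
  have hs1 : ∀ k, 0.888 ≤ s k ∧ s k ≤ 1.0513 := by
    intro k
    obtain ⟨h1, h2⟩ := hs0 k
    have h3 := hsn k
    constructor
    · by_contra h
      push Not at h
      nlinarith
    · by_contra h
      push Not at h
      nlinarith
  have hon : Orthonormal ℝ (fun k => (s k)⁻¹ • B (v k)) := by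
    rw [orthonormal_iff_ite]
    intro j k
    rw [real_inner_smul_left, real_inner_smul_right, hin]
    have hj : s j ≠ 0 := by linarith [(hs1 j).1]
    by_cases h : j = k
    · subst h
      rw [if_pos rfl, if_pos rfl]
      show (s j)⁻¹ * ((s j)⁻¹ * (s j) ^ 2) = 1
      field_simp
    · rw [if_neg h, if_neg h, mul_zero, mul_zero]
  have hspan : ⊤ ≤ Submodule.span ℝ (Set.range (fun k => (s k)⁻¹ • B (v k))) := by
    refine (hon.linearIndependent.span_eq_top_of_card_eq_finrank' ?_).ge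
    simp
  set u : OrthonormalBasis (Fin 3) ℝ E3 := OrthonormalBasis.mk hon hspan with hu
  have huk : ∀ k, u k = (s k)⁻¹ • B (v k) := by
    intro k
    rw [hu, OrthonormalBasis.coe_mk]
  set a : Fin 4 → E3 := fun i => ∑ k, inner ℝ (std i) (v k) • u k with ha
  have hau : ∀ i k, inner ℝ (a i) (u k) = inner ℝ (std i) (v k) := by
    intro i k
    rw [ha]
    simp only [sum_inner, real_inner_smul_left, u.inner_eq_ite]
    simp
  have haa : ∀ i j, inner ℝ (a i) (a j) = inner ℝ (std i) (std j) := by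
    intro i j
    have h1 : inner ℝ (a i) (a j) = ∑ k, inner ℝ (a i) (u k) * inner ℝ (u k) (a j) :=
      (u.sum_inner_mul_inner (a i) (a j)).symm
    rw [h1, ← v.sum_inner_mul_inner (std i) (std j)]
    refine Finset.sum_congr rfl (fun k _ => ?_)
    rw [hau, real_inner_comm (a j) (u k), hau, real_inner_comm (std j) (v k)]
  refine ⟨a, u, s, ?_, ?_, ?_, hs1, ?_⟩
  · intro i j hij
    rw [haa, std_gram, if_neg hij]
  · intro i
    rw [haa, std_gram, if_pos rfl]
  · intro i
    rw [← Bm_std, ← hB]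
    have h1 : std i = ∑ k, inner ℝ (v k) (std i) • v k := (v.sum_repr' (std i)).symm
    conv_lhs => rw [h1]
    rw [map_sum]
    refine Finset.sum_congr rfl (fun k _ => ?_)
    rw [map_smul, hau, huk, smul_smul, real_inner_comm]
    congr 1
    have hk : s k ≠ 0 := by linarith [(hs1 k).1]
    field_simp
  · have h1 : ∀ k, 1 - s k ≤ 0.00294 + 0.5155 * (1 - s k ^ 2) := fun k =>
      sqrt_chord (hs1 k).1 (hs1 k).2 (hs0 k).1 (hs0 k).2
    have h2 : ∑ k, (1 - s k ^ 2) ≤ 0.105 := by
      have h3 : ∀ k, 1 - s k ^ 2 = -2 * ∑ i, ∑ j, inner ℝ (std i) (v k) * inner ℝ (std j) (v k) *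
          (if i = j then 0 else 1 - ‖c i - c j‖ ^ 2) := by
        intro k
        show 1 - ‖Bm c (v k)‖ ^ 2 = _
        rw [Bm_sq, hvn]
        ring
      simp only [h3]
      rw [← Finset.mul_sum, Finset.sum_comm]
      have h4 : ∑ i, ∑ k, ∑ j, inner ℝ (std i) (v k) * inner ℝ (std j) (v k) *
          (if i = j then 0 else 1 - ‖c i - c j‖ ^ 2) = -(1 / 8) * X := by
        rw [hXd, Finset.mul_sum]
        refine Finset.sum_congr rfl (fun i _ => ?_)
        rw [Finset.sum_comm, Finset.mul_sum]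
        refine Finset.sum_congr rfl (fun j _ => ?_)
        rw [← Finset.sum_mul]
        have h5 : ∑ k, inner ℝ (std i) (v k) * inner ℝ (std j) (v k) =
            inner ℝ (std i) (std j) := by
          rw [← v.sum_inner_mul_inner (std i) (std j)]
          refine Finset.sum_congr rfl (fun k _ => ?_)
          rw [real_inner_comm (std j) (v k)]
        rw [h5, std_gram]
        by_cases h : i = j
        · simp [h]
        · rw [if_neg h, if_neg h]; ring
      rw [h4]
      linarith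
    have h6 := Finset.sum_le_sum (fun k (_ : k ∈ (Finset.univ : Finset (Fin 3))) => h1 k)
    rw [Finset.sum_sub_distrib, Finset.sum_add_distrib, ← Finset.mul_sum] at h6
    simp only [Finset.sum_const, Finset.card_univ, Fintype.card_fin, nsmul_eq_mul, mul_one] at h6
    push_cast at h6
    nlinarith

end Helper33.MEI
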