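import Pool.Agent.Helper33.MEI.FaceRed
import Pool.Agent.Helper73.MEI.Star

/-!
# Project MEI (M2): the face cells in the language of the pair measure `PM K σ`
-/

namespace Helper33.MEI

open Set Metric MeasureTheory Real Helper80.CW Helper82.CW Helper14.CW Helper93.MEI Helper22.Sig
open Helper22.Wedge Helper14.MEI2 Pool.Agent.Helper73.MEI
open Pool.Agent.Helper95.MEI.Cst (vAs vAx)
open scoped RealInnerProductSpace ENNReal

variable {a : Fin 4 → E3}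

/-- the second elementary symmetric function of the barycentric coordinates -/
noncomputable def e2 (a : Fin 4 → E3) (x : E3) : ℝ :=
  bar a 0 x * bar a 1 x + bar a 0 x * bar a 2 x + bar a 0 x * bar a 3 x +
    bar a 1 x * bar a 2 x + bar a 1 x * bar a 3 x + bar a 2 x * bar a 3 x

theorem dist_e2 (g : Gram4 (al a)) (x q : E3) : ‖x - q‖ ^ 2 = 1 + (bar a 0 x * Qv a 0 q +
    bar a 1 x * Qv a 1 q + bar a 2 x * Qv a 2 q + bar a 3 x * Qv a 3 q) - e2 a x := by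
  have hs := bar_sum g x
  have h3 : bar a 3 x = 1 - bar a 0 x - bar a 1 x - bar a 2 x := by linarith
  rw [norm_sub_sq_bar g, Qv_eq g, Qv_eq g, Qv_eq g, Qv_eq g]
  unfold e2
  rw [h3]
  ring

/-- the layer of the cone lies in the body -/
theorem hlay_of (ha : ∀ i j, i ≠ j → dist (a i) (a j) = 1) {K : Set E3}
    (hull : ∀ p, (∀ q ∈ K, ‖p - q‖ ≤ 1) → p ∈ K) (hQ : ∀ i, ∀ q ∈ K, Qv a i q ≤ 3 / 16) :
    ∀ x ∈ TC a 0, 1 / 2 ≤ 1 - bar a 0 x → 1 - bar a 0 x ≤ 3 / 4 → x ∈ K := by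
  intro x hx h1 h2
  have g := gram_of_dist ha
  rw [TC_bar ha] at hx
  have b1 : 0 < bar a 1 x := hx 1 (by decide)
  have b2 : 0 < bar a 2 x := hx 2 (by decide)
  have b3 : 0 < bar a 3 x := hx 3 (by decide)
  have hs := bar_sum g x
  have b0 : 0 ≤ bar a 0 x := by linarith
  refine hull x fun q hq => ?_
  have hd := dist_e2 g x q
  have k0 := mul_le_mul_of_nonneg_left (hQ 0 q hq) b0
  have k1 := mul_le_mul_of_nonneg_left (hQ 1 q hq) b1.le
  have k2 := mul_le_mul_of_nonneg_left (hQ 2 q hq) b2.le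
  have k3 := mul_le_mul_of_nonneg_left (hQ 3 q hq) b3.le
  have he : 3 / 16 ≤ e2 a x := by
    have h4 : bar a 0 x * (1 - bar a 0 x) ≤ e2 a x := by
      have h5 : 1 - bar a 0 x = bar a 1 x + bar a 2 x + bar a 3 x := by linarith
      rw [h5]
      unfold e2
      nlinarith [mul_pos b1 b2, mul_pos b1 b3, mul_pos b2 b3]
    have h6 : 3 / 16 ≤ bar a 0 x * (1 - bar a 0 x) := by nlinarith
    linarith
  have hle : ‖x - q‖ ^ 2 ≤ 1 := by
    rw [hd]
    linarith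
  have hn := norm_nonneg (x - q)
  nlinarith

variable {σ : Measure (E3 × E3)} [IsFiniteMeasure σ] {K : Set E3}

/-- **the face cell of any vertex** (`τ 0` is the vertex) -/
theorem face_pm (h : PM K σ) (ha : ∀ i j, i ≠ j → dist (a i) (a j) = 1)
    (hull : ∀ p, (∀ q ∈ K, ‖p - q‖ ≤ 1) → p ∈ K) (hQ : ∀ i, ∀ q ∈ K, Qv a i q ≤ 3 / 16)
    (τ : Equiv.Perm (Fin 4)) {A : ℝ} (hA : 7 / 2 ≤ A) {Lam : ℝ × ℝ → ℝ} (hL : Continuous Lam)
    (hP : ∀ᵐ z ∂σ, z.1 ∈ TC (fun i => a (τ i)) 0 → 3 / 4 ≤ 1 - bar a (τ 0) z.1 →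
      Lam (tx (fun i => a (τ i)) z.1) ≤ (A / 2 + 1 / 8) * Qv a (τ 0) z.1 -
        0.127 * ‖a (τ 0) - z.2‖ ^ 2 / (1 - ‖a (τ 0) - z.2‖ ^ 2 / 2)) :
    (√2)⁻¹ * ∫ t in Dl, Lam t * M3 t ≤ Wi a (τ 0) K σ A := by
  have ha' : ∀ i j, i ≠ j → dist (a (τ i)) (a (τ j)) = 1 :=
    fun i j hij => ha _ _ fun h => hij (τ.injective h)
  rw [← Wi_perm τ]
  refine face_red_pt (a := fun i => a (τ i)) h.cpt ha' h.mem (h.ae.mono fun _ hz => hz.2.2)
    (n := ⊤) le_top h.flux (hlay_of ha' hull fun i q hq => hQ (τ i) q hq) hA hL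
    (fun x hx => hQ (τ 0) x hx) ?_
  filter_upwards [hP] with z hz h1 h2
  rw [bar_perm] at h2
  exact hz h1 h2

/-- **the master inequality with the face cells** -/
theorem star_W {B : Fin 3 → Bool → OrthonormalBasis (Fin 3) ℝ E3} (κ : ℝ) (h : PM K σ)
    (ha : ∀ i j, i ≠ j → dist (a i) (a j) = 1)
    (hp : ∀ x ∈ K, Pl a x) (hz : ∀ᵐ z ∂σ, Pl a z.1 ∧ ∀ k, bar a k z.1 ≠ 0)
    (hB : ∀ m e, Fr (fun i => a (pr m e i)) (B m e)) :
    ∑ m, (TE (B m false) (cen a) σ + TE (B m true) (cen a) σ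
        + κ * ((vAs - vAx) - lE (B m false) (cen a) K - lE (B m true) (cen a) K)
        - 0.26 * ((vAs - vAx) - max (lE (B m false) (cen a) K) (lE (B m true) (cen a) K))
        + (κ - 0.26) * (beE (B m false) (cen a) K + beE (B m true) (cen a) K)
        - κ * (xiE (B m false) (cen a) K + xiE (B m true) (cen a) K))
      + ∑ i, Wi a i K σ (3.57 + κ)
      + ∫ z in {z : E3 × E3 | z.1 ∈ T0 a}, (⟪z.1 - cen a, z.1 - z.2⟫ - 1 / 4) ∂σ
      - (1.32 + κ) * (√2 / 12 - volume.real (K ∩ T0 a)) ≤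
    (3.82 + κ) * (volume.real K - Helper82.CW.VM) := by
  have h1 := star_k κ h ha hp hz hB
  unfold FT at h1
  have h2 : ∑ i, Wi a i K σ (3.57 + κ) = (3.57 + κ) * (∑ i, volume.real (K ∩ Wc a i) -
      4 * (Om / 3 - √2 / 12)) + ∑ i, ∫ z in {z : E3 × E3 | z.1 ∈ Wc a i},
        (⟪(1 / 4 : ℝ) • (z.1 - a i), z.1 - z.2⟫ - 1 / 4) ∂σ := by
    unfold Wi
    rw [Finset.sum_add_distrib, ← Finset.mul_sum, Finset.sum_sub_distrib]
    simp only [Finset.sum_const, Finset.card_univ, Fintype.card_fin, nsmul_eq_mul]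
    norm_num
  rw [h2]
  linarith

end Helper33.MEI
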