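import Mathlib

/-!
# Project MEI (M2): the density of a face cell, second order terms included

`Q = ‖p - a_i‖² - 1`, `w = ‖q - a_i‖²`, `r = ‖p - a_i‖`, `1 + (Q - w) / 2 = ⟪p - a_i, p - q⟫`.
-/

namespace Helper33.MEI

theorem quad_aux {c Q D w δ : ℝ} (hc : 0 < c) (hw : 0 ≤ w) (hD : |D| ≤ δ * w)
    (h : δ ^ 2 * w ≤ 0.008 * c) : 0 ≤ c * Q ^ 2 + 0.002 * w + Q * D := by
  have h1 : -(|Q| * (δ * w)) ≤ Q * D := by
    have h2 : |Q * D| ≤ |Q| * (δ * w) := by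
      rw [abs_mul]
      exact mul_le_mul_of_nonneg_left hD (abs_nonneg Q)
    have := neg_abs_le (Q * D)
    linarith
  have h3 : Q ^ 2 = |Q| ^ 2 := (sq_abs Q).symm
  rw [h3]
  have h4 : 0 ≤ (2 * c * |Q| - δ * w) ^ 2 := sq_nonneg _
  have h5 : δ ^ 2 * w * w ≤ 0.008 * c * w := mul_le_mul_of_nonneg_right h hw
  have h6 : 0 ≤ 4 * c * (c * |Q| ^ 2 + 0.002 * w - |Q| * (δ * w)) := by nlinarith
  have h7 : 0 ≤ c * |Q| ^ 2 + 0.002 * w - |Q| * (δ * w) := by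
    by_contra hneg
    push Not at hneg
    have : 4 * c * (c * |Q| ^ 2 + 0.002 * w - |Q| * (δ * w)) < 0 :=
      mul_neg_of_pos_of_neg (by linarith) hneg
    linarith
  linarith

theorem r3_ge {Q r : ℝ} (h1 : -(1 / 3) ≤ Q) (h2 : Q ≤ 3 / 16) (hr : 0 < r) (hr2 : r ^ 2 = 1 + Q) :
    1 + 3 / 2 * Q + 0.36 * Q ^ 2 ≤ r ^ 3 := by
  by_contra hneg
  push Not at hneg
  have h3 : 0 < r ^ 3 := by positivity
  have h4 : (r ^ 3) ^ 2 < (1 + 3 / 2 * Q + 0.36 * Q ^ 2) ^ 2 :=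
    pow_lt_pow_left₀ hneg h3.le (by norm_num)
  have h5 : (r ^ 3) ^ 2 = (1 + Q) ^ 3 := by rw [← hr2]; ring
  rw [h5] at h4
  have h6 : 0 ≤ Q ^ 2 * (0.03 - 0.08 * Q - 0.1296 * Q ^ 2) :=
    mul_nonneg (sq_nonneg Q) (by nlinarith)
  nlinarith

theorem r3_ge' {Q r : ℝ} (hr : 0 ≤ r) (hr2 : r ^ 2 = 1 + Q) :
    1 + 3 / 2 * Q ≤ r ^ 3 := by
  have h1 : Q = r ^ 2 - 1 := by linarith
  rw [h1]
  nlinarith [mul_nonneg hr (sq_nonneg (r - 1)), sq_nonneg (r - 1)]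

theorem key_aux {Q w k : ℝ} (hw0 : 0 ≤ w) (hw1 : w ≤ 19 / 16) (hk : k * (1 - w / 2) = 0.127 * w) :
    0 ≤ (0.46 - 0.255 * w) * Q ^ 2 + 0.002 * w + Q * (k / 2 - 0.125 * w) := by
  have hp : 0 < 1 - w / 2 := by linarith
  have hkb : ∀ v1 v2 : ℝ, 0 < v1 → v1 ≤ 1 - w / 2 → 1 - w / 2 ≤ v2 → ∀ δ : ℝ,
      -δ ≤ 0.0635 / v2 - 0.125 → 0.0635 / v1 - 0.125 ≤ δ → |k / 2 - 0.125 * w| ≤ δ * w := by
    intro v1 v2 hv1 hv1' hv2 δ hd1 hd2
    have hp2 : 0 < v2 := by linarith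
    have e1 : k / 2 = w * (0.0635 / (1 - w / 2)) := by
      have : k = 0.127 * w / (1 - w / 2) := by
        rw [eq_div_iff hp.ne', hk]
      rw [this]; ring
    have e2 : 0.0635 / (1 - w / 2) ≤ 0.0635 / v1 :=
      div_le_div_of_nonneg_left (by norm_num) hv1 hv1'
    have e3 : 0.0635 / v2 ≤ 0.0635 / (1 - w / 2) :=
      div_le_div_of_nonneg_left (by norm_num) hp hv2
    rw [e1, abs_le]
    constructor
    · have := mul_le_mul_of_nonneg_left (hd1.trans (sub_le_sub_right e3 0.125)) hw0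
      linarith
    · have := mul_le_mul_of_nonneg_left ((sub_le_sub_right e2 0.125).trans hd2) hw0
      linarith
  rcases le_or_gt w 0.5 with c1 | c1
  · exact quad_aux (by linarith) hw0 (hkb 0.75 1 (by norm_num) (by linarith) (by linarith) 0.0616
      (by norm_num) (by norm_num)) (by linarith)
  rcases le_or_gt w 0.85 with c2 | c2
  · exact quad_aux (by linarith) hw0 (hkb 0.575 0.75 (by norm_num) (by linarith) (by linarith)
      0.0404 (by norm_num) (by norm_num)) (by linarith)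
  · exact quad_aux (by linarith) hw0 (hkb 0.40625 0.575 (by norm_num) (by linarith) (by linarith)
      0.0314 (by norm_num) (by norm_num)) (by linarith)

/-- **the density of a face cell** for all `0 ≤ w ≤ 19/16`, `-1/3 ≤ Q ≤ 3/16` -/
theorem ptw {A Q w r : ℝ} (hA : 7 / 2 ≤ A) (h1 : -(1 / 3) ≤ Q) (h2 : Q ≤ 3 / 16) (hw0 : 0 ≤ w)
    (hw1 : w ≤ 19 / 16) (hr : 0 < r) (hr2 : r ^ 2 = 1 + Q) :
    ((A / 2 + 1 / 8) * Q - 0.127 * w / (1 - w / 2)) * (1 + (Q - w) / 2) ≤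
      A * (r ^ 3 - 1) / 3 * (1 + (Q - w) / 2) + r ^ 3 * ((Q - w) / 2) / 4 := by
  have hp : 0 < 1 - w / 2 := by linarith
  obtain ⟨k, hk⟩ : ∃ k, k = 0.127 * w / (1 - w / 2) := ⟨_, rfl⟩
  rw [← hk]
  have hk1 : k * (1 - w / 2) = 0.127 * w := by
    rw [hk, div_mul_cancel₀ _ hp.ne']
  have hR := r3_ge h1 h2 hr hr2
  have key := key_aux (Q := Q) hw0 hw1 hk1
  obtain ⟨R, hRR⟩ : ∃ R, R = r ^ 3 := ⟨_, rfl⟩
  rw [← hRR] at hR ⊢
  obtain ⟨e, he⟩ : ∃ e, e = (Q - w) / 2 := ⟨_, rfl⟩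
  rw [← he]
  have he1 : -0.761 ≤ e := by rw [he]; linarith
  have hc : 0 ≤ A * (1 + e) / 3 + e / 4 := by
    have : 7 / 2 * (1 + e) ≤ A * (1 + e) := mul_le_mul_of_nonneg_right hA (by linarith)
    linarith
  have hmono : (A * (1 + e) / 3 + e / 4) * (1 + 3 / 2 * Q + 0.36 * Q ^ 2) ≤
      (A * (1 + e) / 3 + e / 4) * R := mul_le_mul_of_nonneg_left hR hc
  have hQ2 : 0 ≤ Q ^ 2 := sq_nonneg Q
  have hcq : 0.46 - 0.255 * w ≤ 0.36 / 3 * A * (1 + e) + 0.125 + 0.09 * e := by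
    have : 7 / 2 * (1 + e) ≤ A * (1 + e) := mul_le_mul_of_nonneg_right hA (by linarith)
    rw [he] at this ⊢
    linarith
  have hmul : (0.46 - 0.255 * w) * Q ^ 2 ≤
      (0.36 / 3 * A * (1 + e) + 0.125 + 0.09 * e) * Q ^ 2 :=
    mul_le_mul_of_nonneg_right hcq hQ2
  have hke : k * (1 + e) = 0.127 * w + k * Q / 2 := by
    rw [he]
    linear_combination hk1
  have hQe : Q * e = (Q ^ 2 - Q * w) / 2 := by rw [he]; ring
  have hfin : (A * (1 + e) / 3 + e / 4) * (1 + 3 / 2 * Q + 0.36 * Q ^ 2) - A / 3 * (1 + e) -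
      ((A / 2 + 1 / 8) * Q * (1 + e) - k * (1 + e)) =
      (0.36 / 3 * A * (1 + e) + 0.125 + 0.09 * e) * Q ^ 2 + 0.002 * w +
        Q * (k / 2 - 0.125 * w) := by
    rw [hke]
    linear_combination (1 / 4) * hQe + (1 / 4) * he
  have e9 : A * (R - 1) / 3 * (1 + e) + R * e / 4 =
      (A * (1 + e) / 3 + e / 4) * R - A / 3 * (1 + e) := by ring
  rw [e9]
  have e10 : ((A / 2 + 1 / 8) * Q - k) * (1 + e) =
      (A / 2 + 1 / 8) * Q * (1 + e) - k * (1 + e) := by ring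
  rw [e10]
  linarith

end Helper33.MEI
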