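import Pool.Agent.Helper33.MEI.Rad1
import Pool.Agent.Helper33.MEI.Ptw

/-!
# Project MEI (M2): the face cell of the vertex `0`, reduction to the flat simplex

`face_red` : the contribution of the face cell is at least the integral of `Lam` over the
directions as soon as `Lam` is a pointwise lower bound of the exact density.
-/

namespace Helper33.MEI

open Set Metric MeasureTheory Real Helper80.CW Helper82.CW Helper14.CW Helper93.MEI Helper22.Sig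
open Helper22.Wedge Helper14.MEI2
open scoped RealInnerProductSpace ENNReal

variable {a : Fin 4 → E3}

/-- `m ^ (-3/2)` -/
noncomputable def M3 (t : ℝ × ℝ) : ℝ := ((√(mt t))⁻¹) ^ 3

theorem M3_cont : Continuous M3 := by
  have h1 : Continuous fun t => √(mt t) := Real.continuous_sqrt.comp mt_cont
  exact (h1.inv₀ fun t => (Real.sqrt_pos.2 mt_pos).ne').pow 3

theorem M3_pos (t : ℝ × ℝ) : 0 < M3 t := by
  have hs : 0 < √(mt t) := Real.sqrt_pos.2 mt_pos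
  unfold M3
  positivity

/-- bounded on the simplex -/
theorem bd_Dl {h : ℝ × ℝ → ℝ} (hh : Continuous h) : ∃ C, 0 ≤ C ∧ ∀ t ∈ Dl, |h t| ≤ C := by
  have hc : IsCompact (Icc (0 : ℝ) 1 ×ˢ Icc (0 : ℝ) 1) := isCompact_Icc.prod isCompact_Icc
  obtain ⟨C, hC⟩ := hc.bddAbove_image hh.abs.continuousOn
  have h1 : ∀ t ∈ Dl, |h t| ≤ C := by
    rintro t ⟨h1, h2, h3⟩
    exact hC ⟨t, ⟨⟨h1.le, by linarith⟩, ⟨h2.le, by linarith⟩⟩, rfl⟩
  exact ⟨C, (abs_nonneg _).trans (h1 (1 / 3, 1 / 3) ⟨by norm_num, by norm_num, by norm_num⟩), h1⟩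

theorem int_Dl_on {h : ℝ × ℝ → ℝ} (hh : Continuous h) : IntegrableOn h Dl := by
  obtain ⟨C, _, hC⟩ := bd_Dl hh
  refine Measure.integrableOn_of_bounded (M := C) Dl_fin.ne hh.aestronglyMeasurable ?_
  filter_upwards [ae_restrict_mem Dl_meas] with t ht
  exact hC t ht

theorem tx_mem (ha : ∀ i j, i ≠ j → dist (a i) (a j) = 1) {x : E3} (hx : x ∈ TC a 0) :
    tx a x ∈ Dl := by
  rw [TC_Sx ha] at hx
  exact scale_mem hx

theorem lam_pos (ha : ∀ i j, i ≠ j → dist (a i) (a j) = 1) {x : E3} (hx : x ∈ TC a 0) :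
    0 < 1 - bar a 0 x := by
  rw [TC_Sx ha] at hx
  obtain ⟨h1, h2, h3⟩ := hx
  have h1' : 0 < bar a 1 x := h1
  have h2' : 0 < bar a 2 x := h2
  have h3' : bar a 1 x + bar a 2 x < 1 - bar a 0 x := h3
  linarith

theorem tx_meas (a : Fin 4 → E3) : Measurable (tx a) := by
  have h0 := (bar_cont a 0).measurable
  have h1 := (bar_cont a 1).measurable
  have h2 := (bar_cont a 2).measurable
  exact (h1.div (measurable_const.sub h0)).prodMk (h2.div (measurable_const.sub h0))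

/-- the algebra of the density: `r = lam * s`, `s = √m`, `M = s⁻³` -/
theorem dens_alg {A L S lam s : ℝ} (hl : 0 < lam) (hs : 0 < s)
    (h : L * S ≤ A * ((lam * s) ^ 3 - 1) / 3 * S + (lam * s) ^ 3 * (S - 1) / 4) :
    (lam⁻¹) ^ 3 * (L * (s⁻¹) ^ 3 + A * ((s⁻¹) ^ 3 - 1) / 3) * S ≤
      A * (1 - (lam⁻¹) ^ 3) / 3 * S + (S - 1) / 4 := by
  have hp : 0 < (lam * s) ^ 3 := by positivity
  refine le_of_mul_le_mul_left ?_ hp
  have e1 : (lam * s) ^ 3 * ((lam⁻¹) ^ 3 * (L * (s⁻¹) ^ 3 + A * ((s⁻¹) ^ 3 - 1) / 3) * S) =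
      (L + A * (1 - s ^ 3) / 3) * S := by
    field_simp
  have e2 : (lam * s) ^ 3 * (A * (1 - (lam⁻¹) ^ 3) / 3 * S + (S - 1) / 4) =
      A * ((lam * s) ^ 3 - s ^ 3) / 3 * S + (lam * s) ^ 3 * (S - 1) / 4 := by
    field_simp
  rw [e1, e2]
  linarith

theorem dens_alg' {A L lam s : ℝ} (hA : 0 ≤ A) (hl : 0 < lam) (hl1 : lam ≤ 1) (hs : 0 < s)
    (h : L ≤ A * ((lam * s) ^ 3 - 1) / 3) :
    L * (s⁻¹) ^ 3 + A * ((s⁻¹) ^ 3 - 1) / 3 ≤ 0 := by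
  have hp : 0 < s ^ 3 := by positivity
  have e1 : L * (s⁻¹) ^ 3 + A * ((s⁻¹) ^ 3 - 1) / 3 = (L + A * (1 - s ^ 3) / 3) / s ^ 3 := by
    field_simp
  rw [e1]
  refine div_nonpos_of_nonpos_of_nonneg ?_ hp.le
  have h1 : (lam * s) ^ 3 ≤ s ^ 3 := by
    apply pow_le_pow_left₀ (by positivity)
    nlinarith
  have h2 := mul_le_mul_of_nonneg_left h1 hA
  linarith

/-- **reduction of a face cell** (abstract form: `FF1` and `RAD` are helper14's flux identities) -/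
theorem face_red_core {σ : Measure (E3 × E3)} [IsFiniteMeasure σ] {K : Set E3} (hK : IsCompact K)
    (ha : ∀ i j, i ≠ j → dist (a i) (a j) = 1)
    (hσ : ∀ᵐ z ∂σ, z.1 ∈ K ∧ z.2 ∈ K) {A : ℝ} (hA : 0 ≤ A) {chi : ℝ → ℝ} (hcm : Measurable chi)
    (hc0 : ∀ l, 0 ≤ chi l) (hc1 : ∀ l, chi l ≤ 1) (hcz : ∀ l, l ≤ 1 / 2 → chi l = 0)
    (hco : ∀ l, 1 ≤ l → chi l = 1)
    (FF1 : ∫ z in {z : E3 × E3 | z.1 ∈ Wc a 0},
      (1 - ((1 - bar a 0 z.1)⁻¹) ^ 3) * ⟪z.1 - a 0, z.1 - z.2⟫ ∂σ = 3 * volume.real (K ∩ Wc a 0))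
    (RAD : ∀ h : ℝ × ℝ → ℝ, Continuous h → ∫ z in {z : E3 × E3 | z.1 ∈ TC a 0},
      chi (1 - bar a 0 z.1) * ((1 - bar a 0 z.1)⁻¹) ^ 3 * h (tx a z.1) * ⟪z.1 - a 0, z.1 - z.2⟫ ∂σ
        = 3 * ∫ x in T0 a, h (tx a x))
    {Lam : ℝ × ℝ → ℝ} (hL : Continuous Lam)
    (hW : ∀ᵐ z ∂σ, z.1 ∈ Wc a 0 → Lam (tx a z.1) * ⟪z.1 - a 0, z.1 - z.2⟫ ≤
      A * (‖z.1 - a 0‖ ^ 3 - 1) / 3 * ⟪z.1 - a 0, z.1 - z.2⟫ +
        ‖z.1 - a 0‖ ^ 3 * (⟪z.1 - a 0, z.1 - z.2⟫ - 1) / 4)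
    (hT : ∀ᵐ z ∂σ, z.1 ∈ TC a 0 → 1 / 2 < 1 - bar a 0 z.1 → 0 ≤ bar a 0 z.1 →
      0 ≤ ⟪z.1 - a 0, z.1 - z.2⟫ ∧ Lam (tx a z.1) ≤ A * (‖z.1 - a 0‖ ^ 3 - 1) / 3) :
    (√2)⁻¹ * ∫ t in Dl, Lam t * M3 t ≤ A * (volume.real (K ∩ Wc a 0) - (Om / 3 - √2 / 12)) +
      ∫ z in {z : E3 × E3 | z.1 ∈ Wc a 0}, (⟪z.1 - a 0, z.1 - z.2⟫ - 1) / 4 ∂σ := by
  classical
  set h : ℝ × ℝ → ℝ := fun t => Lam t * M3 t + A * (M3 t - 1) / 3 with hh
  have hhc : Continuous h := (hL.mul M3_cont).add ((continuous_const.mul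
    (M3_cont.sub continuous_const)).div_const 3)
  obtain ⟨C, hC0, hC⟩ := bd_Dl hhc
  have hSc : Continuous (fun z : E3 × E3 => ⟪z.1 - a 0, z.1 - z.2⟫) := by fun_prop
  obtain ⟨B, hB⟩ := (hK.prod hK).bddAbove_image (hSc.abs).continuousOn
  have hB' : ∀ᵐ z ∂σ, |⟪z.1 - a 0, z.1 - z.2⟫| ≤ B := by
    filter_upwards [hσ] with z hz
    exact hB ⟨z, ⟨hz.1, hz.2⟩, rfl⟩
  have mTC : MeasurableSet {z : E3 × E3 | z.1 ∈ TC a 0} :=
    measurable_fst (TC_open ha 0).measurableSet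
  have mWc : MeasurableSet {z : E3 × E3 | z.1 ∈ Wc a 0} :=
    measurable_fst (Wc_open ha 0).measurableSet
  have mlam : Measurable (fun z : E3 × E3 => 1 - bar a 0 z.1) :=
    measurable_const.sub ((bar_cont a 0).measurable.comp measurable_fst)
  have mtx : Measurable (fun z : E3 × E3 => tx a z.1) := (tx_meas a).comp measurable_fst
  -- the two integrands
  set g1 : E3 × E3 → ℝ := fun z => chi (1 - bar a 0 z.1) * ((1 - bar a 0 z.1)⁻¹) ^ 3 *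
    h (tx a z.1) * ⟪z.1 - a 0, z.1 - z.2⟫ with hg1
  set g2 : E3 × E3 → ℝ := fun z => A * (1 - ((1 - bar a 0 z.1)⁻¹) ^ 3) / 3 *
    ⟪z.1 - a 0, z.1 - z.2⟫ + (⟪z.1 - a 0, z.1 - z.2⟫ - 1) / 4 with hg2
  have i1 : IntegrableOn g1 {z : E3 × E3 | z.1 ∈ TC a 0} σ := by
    refine Measure.integrableOn_of_bounded (M := 8 * C * B) (measure_ne_top σ _) ?_ ?_
    · exact ((((hcm.comp mlam).mul (mlam.inv.pow_const 3)).mul
        (hhc.measurable.comp mtx)).mul hSc.measurable).aestronglyMeasurable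
    · filter_upwards [ae_restrict_mem mTC, ae_restrict_of_ae hB'] with z hz hzB
      have h1 := hC _ (tx_mem ha hz)
      have h2 : |chi (1 - bar a 0 z.1) * ((1 - bar a 0 z.1)⁻¹) ^ 3| ≤ 8 := by
        rcases le_or_gt (1 - bar a 0 z.1) (1 / 2) with hl | hl
        · rw [hcz _ hl, zero_mul, abs_zero]; norm_num
        · have h3 : (1 - bar a 0 z.1)⁻¹ ≤ 2 := by
            rw [inv_le_comm₀ (by linarith) (by norm_num)]; linarith
          have h4 : 0 ≤ (1 - bar a 0 z.1)⁻¹ := by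
            apply inv_nonneg.2; linarith
          have h5 : ((1 - bar a 0 z.1)⁻¹) ^ 3 ≤ 2 ^ 3 := pow_le_pow_left₀ h4 h3 3
          rw [abs_mul, abs_of_nonneg (hc0 _), abs_of_nonneg (pow_nonneg h4 3)]
          calc chi (1 - bar a 0 z.1) * ((1 - bar a 0 z.1)⁻¹) ^ 3 ≤ 1 * 2 ^ 3 :=
                mul_le_mul (hc1 _) h5 (pow_nonneg h4 3) zero_le_one
            _ = 8 := by norm_num
      rw [norm_eq_abs]
      show |chi (1 - bar a 0 z.1) * ((1 - bar a 0 z.1)⁻¹) ^ 3 * h (tx a z.1) *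
        ⟪z.1 - a 0, z.1 - z.2⟫| ≤ 8 * C * B
      rw [abs_mul, abs_mul]
      exact mul_le_mul (mul_le_mul h2 h1 (abs_nonneg _) (by norm_num)) hzB (abs_nonneg _)
        (by positivity)
  have hlW : ∀ z : E3 × E3, z.1 ∈ Wc a 0 → 1 < 1 - bar a 0 z.1 := by
    intro z hz
    have := hz.1
    linarith
  have i2a : IntegrableOn (fun z : E3 × E3 => (1 - ((1 - bar a 0 z.1)⁻¹) ^ 3) *
      ⟪z.1 - a 0, z.1 - z.2⟫) {z : E3 × E3 | z.1 ∈ Wc a 0} σ := by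
    refine Measure.integrableOn_of_bounded (M := 1 * B) (measure_ne_top σ _) ?_ ?_
    · exact ((measurable_const.sub (mlam.inv.pow_const 3)).mul hSc.measurable).aestronglyMeasurable
    · filter_upwards [ae_restrict_mem mWc, ae_restrict_of_ae hB'] with z hz hzB
      have hl := hlW z hz
      have h3 : (1 - bar a 0 z.1)⁻¹ ≤ 1 := by
        rw [inv_le_comm₀ (by linarith) (by norm_num)]; linarith
      have h4 : 0 ≤ (1 - bar a 0 z.1)⁻¹ := by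
        apply inv_nonneg.2; linarith
      have h5 : ((1 - bar a 0 z.1)⁻¹) ^ 3 ≤ 1 ^ 3 := pow_le_pow_left₀ h4 h3 3
      have h6 := pow_nonneg h4 3
      rw [norm_mul]
      refine mul_le_mul ?_ hzB (norm_nonneg _) zero_le_one
      rw [norm_eq_abs, abs_le]
      constructor <;> linarith
  have i2b : IntegrableOn (fun z : E3 × E3 => (⟪z.1 - a 0, z.1 - z.2⟫ - 1) / 4)
      {z : E3 × E3 | z.1 ∈ Wc a 0} σ := by
    refine Measure.integrableOn_of_bounded (M := (B + 1) / 4) (measure_ne_top σ _) ?_ ?_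
    · exact ((hSc.measurable.sub measurable_const).div_const 4).aestronglyMeasurable
    · filter_upwards [ae_restrict_of_ae hB'] with z hzB
      rw [norm_eq_abs, abs_div, abs_of_pos (by norm_num : (0 : ℝ) < 4)]
      apply div_le_div_of_nonneg_right _ (by norm_num)
      have := abs_sub (⟪z.1 - a 0, z.1 - z.2⟫) (1 : ℝ)
      rw [abs_one] at this
      linarith
  have i2 : IntegrableOn g2 {z : E3 × E3 | z.1 ∈ Wc a 0} σ := by
    have h1 : Integrable ((fun z : E3 × E3 => A / 3 * ((1 - ((1 - bar a 0 z.1)⁻¹) ^ 3) *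
      ⟪z.1 - a 0, z.1 - z.2⟫)) + fun z : E3 × E3 => (⟪z.1 - a 0, z.1 - z.2⟫ - 1) / 4)
      (σ.restrict {z : E3 × E3 | z.1 ∈ Wc a 0}) := (i2a.const_mul (A / 3)).add i2b
    refine Integrable.congr h1 (Filter.Eventually.of_forall fun z => ?_)
    show A / 3 * ((1 - ((1 - bar a 0 z.1)⁻¹) ^ 3) * ⟪z.1 - a 0, z.1 - z.2⟫) +
      (⟪z.1 - a 0, z.1 - z.2⟫ - 1) / 4 = A * (1 - ((1 - bar a 0 z.1)⁻¹) ^ 3) / 3 *
    ⟪z.1 - a 0, z.1 - z.2⟫ + (⟪z.1 - a 0, z.1 - z.2⟫ - 1) / 4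
    ring
  have hsub : {z : E3 × E3 | z.1 ∈ Wc a 0} ⊆ {z : E3 × E3 | z.1 ∈ TC a 0} := by
    intro z hz
    show z.1 ∈ TC a 0
    rw [TC_bar ha]
    exact hz.2
  -- the pointwise comparison
  have hcomp : ∀ᵐ z ∂(σ.restrict {z : E3 × E3 | z.1 ∈ TC a 0}),
      g1 z ≤ {z : E3 × E3 | z.1 ∈ Wc a 0}.indicator g2 z := by
    filter_upwards [ae_restrict_mem mTC, ae_restrict_of_ae hW, ae_restrict_of_ae hT]
      with z hz hzW hzT
    have hlam := lam_pos ha hz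
    have hs : 0 < √(mt (tx a z.1)) := Real.sqrt_pos.2 mt_pos
    have hr : ‖z.1 - a 0‖ = (1 - bar a 0 z.1) * √(mt (tx a z.1)) := by
      have h1 := dist_mt ha hlam.ne'
      have h2 : ((1 - bar a 0 z.1) * √(mt (tx a z.1))) ^ 2 = ‖z.1 - a 0‖ ^ 2 := by
        rw [mul_pow, Real.sq_sqrt mt_pos.le, h1]
      exact ((sq_eq_sq₀ (norm_nonneg _) (by positivity)).1 h2.symm)
    by_cases hc : z.1 ∈ Wc a 0
    · rw [indicator_of_mem (show z ∈ {z : E3 × E3 | z.1 ∈ Wc a 0} from hc)]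
      have h1 := hzW hc
      rw [hr] at h1
      have h2 := dens_alg hlam hs h1
      show chi (1 - bar a 0 z.1) * ((1 - bar a 0 z.1)⁻¹) ^ 3 * h (tx a z.1) *
        ⟪z.1 - a 0, z.1 - z.2⟫ ≤ A * (1 - ((1 - bar a 0 z.1)⁻¹) ^ 3) / 3 *
        ⟪z.1 - a 0, z.1 - z.2⟫ + (⟪z.1 - a 0, z.1 - z.2⟫ - 1) / 4
      rw [hco _ (hlW z hc).le, one_mul]
      exact h2
    · rw [indicator_of_notMem (show z ∉ {z : E3 × E3 | z.1 ∈ Wc a 0} from hc)]
      have hb : 0 ≤ bar a 0 z.1 := by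
        by_contra hneg
        push Not at hneg
        have hz' : z.1 ∈ TC a 0 := hz
        rw [TC_bar ha] at hz'
        exact hc ⟨hneg, hz'⟩
      show chi (1 - bar a 0 z.1) * ((1 - bar a 0 z.1)⁻¹) ^ 3 * h (tx a z.1) *
        ⟪z.1 - a 0, z.1 - z.2⟫ ≤ 0
      rcases le_or_gt (1 - bar a 0 z.1) (1 / 2) with hl | hl
      · rw [hcz _ hl]; simp
      · obtain ⟨h1, h2⟩ := hzT hz hl hb
        rw [hr] at h2
        have h3 := dens_alg' hA hlam (by linarith) hs h2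
        have h4 : h (tx a z.1) ≤ 0 := h3
        refine mul_nonpos_of_nonpos_of_nonneg ?_ h1
        refine mul_nonpos_of_nonneg_of_nonpos ?_ h4
        exact mul_nonneg (hc0 _) (pow_nonneg (inv_nonneg.2 hlam.le) 3)
  have hle : ∫ z in {z : E3 × E3 | z.1 ∈ TC a 0}, g1 z ∂σ ≤
      ∫ z in {z : E3 × E3 | z.1 ∈ Wc a 0}, g2 z ∂σ := by
    have e1 : ∫ z in {z : E3 × E3 | z.1 ∈ Wc a 0}, g2 z ∂σ =
        ∫ z in {z : E3 × E3 | z.1 ∈ TC a 0}, {z : E3 × E3 | z.1 ∈ Wc a 0}.indicator g2 z ∂σ := by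
      rw [setIntegral_indicator mWc, inter_eq_self_of_subset_right hsub]
    rw [e1]
    refine integral_mono_ae i1 ?_ hcomp
    exact ((integrable_indicator_iff mWc).2 i2).integrableOn
  have e3 : ∫ z in {z : E3 × E3 | z.1 ∈ TC a 0}, g1 z ∂σ =
      ((√2)⁻¹ * ∫ t in Dl, Lam t * M3 t) + A * ((√2)⁻¹ * ∫ t in Dl, (M3 t - 1) / 3) := by
    have h1 := RAD h hhc
    rw [int_T0 ha hhc.measurable hC] at h1
    have h2 : ∫ t in Dl, h t = (∫ t in Dl, Lam t * M3 t) + A * ∫ t in Dl, (M3 t - 1) / 3 := by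
      have k1 : IntegrableOn (fun t => Lam t * M3 t) Dl := int_Dl_on (hL.mul M3_cont)
      have k2 : IntegrableOn (fun t => A * ((M3 t - 1) / 3)) Dl :=
        int_Dl_on (continuous_const.mul ((M3_cont.sub continuous_const).div_const 3))
      rw [← integral_const_mul, ← integral_add k1 k2]
      refine integral_congr_ae (Filter.Eventually.of_forall fun t => ?_)
      show Lam t * M3 t + A * (M3 t - 1) / 3 = Lam t * M3 t + A * ((M3 t - 1) / 3)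
      ring
    rw [h2] at h1
    rw [h1]
    ring
  have e4 : ∫ z in {z : E3 × E3 | z.1 ∈ Wc a 0}, g2 z ∂σ = A * volume.real (K ∩ Wc a 0) +
      ∫ z in {z : E3 × E3 | z.1 ∈ Wc a 0}, (⟪z.1 - a 0, z.1 - z.2⟫ - 1) / 4 ∂σ := by
    have h1 : ∫ z in {z : E3 × E3 | z.1 ∈ Wc a 0}, g2 z ∂σ =
        ∫ z in {z : E3 × E3 | z.1 ∈ Wc a 0}, (A / 3 * ((1 - ((1 - bar a 0 z.1)⁻¹) ^ 3) *
          ⟪z.1 - a 0, z.1 - z.2⟫) + (⟪z.1 - a 0, z.1 - z.2⟫ - 1) / 4) ∂σ := by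
      refine integral_congr_ae (Filter.Eventually.of_forall fun z => ?_)
      show A * (1 - ((1 - bar a 0 z.1)⁻¹) ^ 3) / 3 *
        ⟪z.1 - a 0, z.1 - z.2⟫ + (⟪z.1 - a 0, z.1 - z.2⟫ - 1) / 4 =
        A / 3 * ((1 - ((1 - bar a 0 z.1)⁻¹) ^ 3) * ⟪z.1 - a 0, z.1 - z.2⟫) +
          (⟪z.1 - a 0, z.1 - z.2⟫ - 1) / 4
      ring
    rw [h1, integral_add (i2a.const_mul (A / 3)) i2b, integral_const_mul, FF1]
    ring
  have e5 : Om / 3 - √2 / 12 = (√2)⁻¹ * ∫ t in Dl, (M3 t - 1) / 3 := cOm ha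
  rw [e3, e4] at hle
  rw [e5]
  linarith

end Helper33.MEI
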