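import Mathlib

/-!
# The face inequality with linear prices: reduction to vertices

Real arithmetic. `n k j` = leak of the contact point `j` into the coordinate `k`, `t j` = sum of the
two leaks of the contact point `j`, `R j` the value of the contact point, `S k` the caps, `s` the
own cap. The bound of the moments of the arcs is the number `rho`, affine in the caps. For fixed
leaks the function is concave in the caps, so that only the caps `S k = ms (t k)` or one big cap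
have to be looked at; it is concave in the directions of the leaks, and increasing in the values.
What is left are polynomials in `s, t 1, t 2, t 3`.
-/

set_option autoImplicit false

namespace Helper33.MEI.ArT

/-- positive part -/
noncomputable def pp (x : ℝ) : ℝ := max x 0

theorem pp_nonneg (x : ℝ) : 0 ≤ pp x := le_max_right _ _

theorem le_pp (x : ℝ) : x ≤ pp x := le_max_left _ _

theorem pp_of_nonneg {x : ℝ} (h : 0 ≤ x) : pp x = x := max_eq_left h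

theorem pp_of_nonpos {x : ℝ} (h : x ≤ 0) : pp x = 0 := max_eq_right h

theorem pp_mono {x y : ℝ} (h : x ≤ y) : pp x ≤ pp y := max_le_max_right 0 h

/-- one step of the value -/
theorem pp_step {x r m R : ℝ} (hr : 0 ≤ r) (h : m ≤ R) :
    pp (r * R - x) ≤ pp (r * m - x) + r * (R - m) := by
  refine max_le ?_ ?_
  · have := le_pp (r * m - x)
    linarith
  · have h1 := pp_nonneg (r * m - x)
    have h2 : 0 ≤ r * (R - m) := mul_nonneg hr (by linarith)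
    linarith

/-- two weights -/
theorem ppw {a b x x1 x2 : ℝ} (ha : 0 ≤ a) (hb : 0 ≤ b) (h : (a + b) * x = a * x1 + b * x2) :
    (a + b) * pp x ≤ a * pp x1 + b * pp x2 := by
  have hab : 0 ≤ a + b := add_nonneg ha hb
  have e : (a + b) * pp x = max ((a + b) * x) 0 := by
    unfold pp
    rw [mul_max_of_nonneg _ _ hab, mul_zero]
  rw [e]
  refine max_le ?_ ?_
  · rw [h]
    exact add_le_add (mul_le_mul_of_nonneg_left (le_pp _) ha)
      (mul_le_mul_of_nonneg_left (le_pp _) hb)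
  · exact add_nonneg (mul_nonneg ha (pp_nonneg _)) (mul_nonneg hb (pp_nonneg _))

/-- four weights -/
theorem ppw4 {w w0 w1 w2 w3 x x0 x1 x2 x3 : ℝ} (h0 : 0 ≤ w0) (h1 : 0 ≤ w1) (h2 : 0 ≤ w2)
    (h3 : 0 ≤ w3) (hw : w = w0 + w1 + w2 + w3)
    (h : w * x = w0 * x0 + w1 * x1 + w2 * x2 + w3 * x3) :
    w * pp x ≤ w0 * pp x0 + w1 * pp x1 + w2 * pp x2 + w3 * pp x3 := by
  have hw0 : 0 ≤ w := by rw [hw]; positivity
  have e : w * pp x = max (w * x) 0 := by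
    unfold pp
    rw [mul_max_of_nonneg _ _ hw0, mul_zero]
  rw [e]
  have a0 := mul_le_mul_of_nonneg_left (le_pp x0) h0
  have a1 := mul_le_mul_of_nonneg_left (le_pp x1) h1
  have a2 := mul_le_mul_of_nonneg_left (le_pp x2) h2
  have a3 := mul_le_mul_of_nonneg_left (le_pp x3) h3
  have b0 := mul_nonneg h0 (pp_nonneg x0)
  have b1 := mul_nonneg h1 (pp_nonneg x1)
  have b2 := mul_nonneg h2 (pp_nonneg x2)
  have b3 := mul_nonneg h3 (pp_nonneg x3)
  refine max_le ?_ ?_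
  · rw [h]; linarith
  · linarith

/-- lower bound of the value of a contact point with leaks of sum `t` -/
noncomputable def mm (t : ℝ) : ℝ := t ^ 2 / 2 * (1 - t / 2)

/-- lower bound of the cap of a contact point with leaks of sum `t` -/
noncomputable def ms (t : ℝ) : ℝ := t ^ 2 / 2 * (1 - t)

/-- the constants of an instance -/
structure Cst where
  A : ℝ
  B : ℝ
  K : ℝ
  wp : ℝ
  wq : ℝ
  r0 : ℝ
  r1 : ℝ
  r2 : ℝ
  x0 : ℝ
  x1 : ℝ
  f0 : ℝ
  f1 : ℝ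
  f2 : ℝ
  k1 : ℝ
  k2 : ℝ
  e : ℝ
  a : ℝ
  b : ℝ
  p : ℝ
  c : ℝ
  σ : ℝ
  v1 : ℝ
  v2 : ℝ
  v3 : ℝ

/-- a cost coupled with the leaks -/
noncomputable def Wc (C : Cst) (s t1 t2 t3 S1 S2 S3 : ℝ) : ℝ :=
  t1 * (C.v1 * s + C.v2 * S1 + C.v3 * (S1 + S2 + S3))
  + t2 * (C.v1 * s + C.v2 * S2 + C.v3 * (S1 + S2 + S3))
  + t3 * (C.v1 * s + C.v2 * S3 + C.v3 * (S1 + S2 + S3))

/-- bound of the moments -/
noncomputable def rho (C : Cst) (s S : ℝ) : ℝ := C.r0 + C.r1 * S + C.r2 * s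

/-- share of the apex -/
noncomputable def GG (C : Cst) (r T : ℝ) : ℝ :=
  (C.x0 - C.x1 * T) * (C.A - r * (C.f0 + C.f1 * T + C.f2 * T ^ 2))

/-- the value of a face, `r` = bound of the moments, `z` = value of the plane at the apex -/
noncomputable def VV (C : Cst) (r s z n21 n31 n12 n32 n13 n23 R1 R2 R3 S1 S2 S3 : ℝ) : ℝ :=
  R1 * (C.A * (C.B * (1 - (n12 + n13)) - (C.wp * (n21 + n31) + C.wq * (n23 + n32))))
  + R2 * (C.A * (C.B * (1 - (n23 + n21)) - (C.wp * (n12 + n32) + C.wq * (n31 + n13))))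
  + R3 * (C.A * (C.B * (1 - (n31 + n32)) - (C.wp * (n13 + n23) + C.wq * (n12 + n21))))
  - C.A * (S1 * (C.wp * (n21 + n31) + C.wq * (n23 + n32))
    + S2 * (C.wp * (n12 + n32) + C.wq * (n31 + n13))
    + S3 * (C.wp * (n13 + n23) + C.wq * (n12 + n21)))
  - Wc C s (n21 + n31) (n12 + n32) (n13 + n23) S1 S2 S3
  + GG C r (n21 + n31 + (n12 + n32) + (n13 + n23)) * (C.e * s - z)
  - (pp (r * R2 - C.A * C.K * (n12 + n13) * S2) + pp (r * R3 - C.A * C.K * (n12 + n13) * S3)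
    + (pp (r * R1 - C.A * C.K * (n23 + n21) * S1) + pp (r * R3 - C.A * C.K * (n23 + n21) * S3))
    + (pp (r * R1 - C.A * C.K * (n31 + n32) * S1) + pp (r * R2 - C.A * C.K * (n31 + n32) * S2)))

/-- the reduced function with free signs `h` of the six strip terms -/
noncomputable def PH (C : Cst) (s t1 t2 t3 n21 n31 n12 n32 n13 n23 S1 S2 S3 : ℝ)
    (y12 y13 y21 y23 y31 y32 : ℝ) : ℝ :=
  mm t1 * (C.A * (C.B * (1 - (n12 + n13)) - (C.wp * t1 + C.wq * (n23 + n32))))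
  + mm t2 * (C.A * (C.B * (1 - (n23 + n21)) - (C.wp * t2 + C.wq * (n31 + n13))))
  + mm t3 * (C.A * (C.B * (1 - (n31 + n32)) - (C.wp * t3 + C.wq * (n12 + n21))))
  - C.A * (S1 * (C.wp * t1 + C.wq * (n23 + n32)) + S2 * (C.wp * t2 + C.wq * (n31 + n13))
    + S3 * (C.wp * t3 + C.wq * (n12 + n21)))
  - Wc C s t1 t2 t3 S1 S2 S3
  + GG C (rho C s (S1 + S2 + S3)) (t1 + t2 + t3) * (C.e * s - C.k1 * mm t1 - C.k2 * mm t2)
  + C.a * s ^ 2 + C.b * s * (S1 + S2 + S3) + C.p * (S1 + S2 + S3) - C.c * s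
  - (y12 + y13 + (y21 + y23) + (y31 + y32))

/-- the argument of a strip term -/
noncomputable def xa (C : Cst) (r t q S : ℝ) : ℝ := r * mm t - C.A * C.K * q * S

/-- the reduced function -/
noncomputable def PF (C : Cst) (s t1 t2 t3 n21 n31 n12 n32 n13 n23 S1 S2 S3 : ℝ) : ℝ :=
  PH C s t1 t2 t3 n21 n31 n12 n32 n13 n23 S1 S2 S3
    (pp (xa C (rho C s (S1 + S2 + S3)) t2 (n12 + n13) S2))
    (pp (xa C (rho C s (S1 + S2 + S3)) t3 (n12 + n13) S3))
    (pp (xa C (rho C s (S1 + S2 + S3)) t1 (n23 + n21) S1))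
    (pp (xa C (rho C s (S1 + S2 + S3)) t3 (n23 + n21) S3))
    (pp (xa C (rho C s (S1 + S2 + S3)) t1 (n31 + n32) S1))
    (pp (xa C (rho C s (S1 + S2 + S3)) t2 (n31 + n32) S2))

/-- the range of the sums of the leaks -/
structure Dom (σ s t1 t2 t3 : ℝ) : Prop where
  s0 : 0 ≤ s
  p1 : 0 ≤ t1
  p2 : 0 ≤ t2
  p3 : 0 ≤ t3
  u1 : t1 ≤ 9 / 10
  u2 : t2 ≤ 9 / 10
  u3 : t3 ≤ 9 / 10
  q1 : ms t1 ≤ s
  q2 : ms t2 ≤ s
  q3 : ms t3 ≤ s
  sum : s + (ms t1 + ms t2 + ms t3) ≤ σ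

theorem Dom.perm12 {σ s t1 t2 t3 : ℝ} (h : Dom σ s t1 t2 t3) : Dom σ s t2 t1 t3 :=
  ⟨h.s0, h.p2, h.p1, h.p3, h.u2, h.u1, h.u3, h.q2, h.q1, h.q3, by linarith [h.sum]⟩

theorem Dom.perm23 {σ s t1 t2 t3 : ℝ} (h : Dom σ s t1 t2 t3) : Dom σ s t1 t3 t2 :=
  ⟨h.s0, h.p1, h.p3, h.p2, h.u1, h.u3, h.u2, h.q1, h.q3, h.q2, by linarith [h.sum]⟩

theorem ms_nonneg {t : ℝ} (h1 : t ≤ 9 / 10) : 0 ≤ ms t := by
  unfold ms
  have : 0 ≤ 1 - t := by linarith
  positivity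

/-- a function of the caps is nonnegative at the four vertices -/
def V4 (F : ℝ → ℝ → ℝ → ℝ) (σ s t1 t2 t3 : ℝ) : Prop :=
  (0 ≤ F (ms t1) (ms t2) (ms t3) ∧ 0 ≤ F (σ - s - ms t2 - ms t3) (ms t2) (ms t3)) ∧
  (0 ≤ F (ms t1) (σ - s - ms t1 - ms t3) (ms t3) ∧ 0 ≤ F (ms t1) (ms t2) (σ - s - ms t1 - ms t2))

/-- the reduced function is nonnegative at all vertices -/
def Vert (C : Cst) : Prop := ∀ s t1 t2 t3 : ℝ, Dom C.σ s t1 t2 t3 →
  (V4 (fun x y z => PF C s t1 t2 t3 t1 0 t2 0 t3 0 x y z) C.σ s t1 t2 t3 ∧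
    V4 (fun x y z => PF C s t1 t2 t3 0 t1 t2 0 t3 0 x y z) C.σ s t1 t2 t3 ∧
    V4 (fun x y z => PF C s t1 t2 t3 t1 0 0 t2 t3 0 x y z) C.σ s t1 t2 t3 ∧
    V4 (fun x y z => PF C s t1 t2 t3 0 t1 0 t2 t3 0 x y z) C.σ s t1 t2 t3) ∧
  (V4 (fun x y z => PF C s t1 t2 t3 t1 0 t2 0 0 t3 x y z) C.σ s t1 t2 t3 ∧
    V4 (fun x y z => PF C s t1 t2 t3 0 t1 t2 0 0 t3 x y z) C.σ s t1 t2 t3 ∧
    V4 (fun x y z => PF C s t1 t2 t3 t1 0 0 t2 0 t3 x y z) C.σ s t1 t2 t3 ∧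
    V4 (fun x y z => PF C s t1 t2 t3 0 t1 0 t2 0 t3 x y z) C.σ s t1 t2 t3)

section
variable {C : Cst} {s t1 t2 t3 n21 n31 n12 n32 n13 n23 S1 S2 S3 : ℝ}

theorem conc1 (h0 : 0 ≤ n21) (h1 : 0 ≤ n31) (ht : n21 + n31 = t1)
    (ha : 0 ≤ PF C s t1 t2 t3 t1 0 n12 n32 n13 n23 S1 S2 S3)
    (hb : 0 ≤ PF C s t1 t2 t3 0 t1 n12 n32 n13 n23 S1 S2 S3) :
    0 ≤ PF C s t1 t2 t3 n21 n31 n12 n32 n13 n23 S1 S2 S3 := by
  subst ht
  rcases (add_nonneg h0 h1).lt_or_eq with h | h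
  · have k1 := mul_nonneg h0 ha
    have k2 := mul_nonneg h1 hb
    set r := rho C s (S1 + S2 + S3) with hr
    have q3 := ppw (x := xa C r (n21 + n31) (n23 + n21) S1)
      (x1 := xa C r (n21 + n31) (n23 + (n21 + n31)) S1)
      (x2 := xa C r (n21 + n31) (n23 + 0) S1) h0 h1 (by unfold xa; ring)
    have q4 := ppw (x := xa C r t3 (n23 + n21) S3) (x1 := xa C r t3 (n23 + (n21 + n31)) S3)
      (x2 := xa C r t3 (n23 + 0) S3) h0 h1 (by unfold xa; ring)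
    have q5 := ppw (x := xa C r (n21 + n31) (n31 + n32) S1)
      (x1 := xa C r (n21 + n31) (0 + n32) S1)
      (x2 := xa C r (n21 + n31) (n21 + n31 + n32) S1) h0 h1 (by unfold xa; ring)
    have q6 := ppw (x := xa C r t2 (n31 + n32) S2) (x1 := xa C r t2 (0 + n32) S2)
      (x2 := xa C r t2 (n21 + n31 + n32) S2) h0 h1 (by unfold xa; ring)
    have k4 : 0 ≤ (n21 + n31) * PF C s (n21 + n31) t2 t3 n21 n31 n12 n32 n13 n23 S1 S2 S3 := by
      unfold PF at k1 k2 ⊢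
      rw [← hr] at k1 k2 ⊢
      unfold PH at k1 k2 ⊢
      linarith
    exact nonneg_of_mul_nonneg_right k4 h
  · have e1 : n21 = 0 := by linarith
    have e2 : n31 = 0 := by linarith
    subst e1 e2
    simpa using ha

theorem conc2 (h0 : 0 ≤ n12) (h1 : 0 ≤ n32) (ht : n12 + n32 = t2)
    (ha : 0 ≤ PF C s t1 t2 t3 n21 n31 t2 0 n13 n23 S1 S2 S3)
    (hb : 0 ≤ PF C s t1 t2 t3 n21 n31 0 t2 n13 n23 S1 S2 S3) :
    0 ≤ PF C s t1 t2 t3 n21 n31 n12 n32 n13 n23 S1 S2 S3 := by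
  subst ht
  rcases (add_nonneg h0 h1).lt_or_eq with h | h
  · have k1 := mul_nonneg h0 ha
    have k2 := mul_nonneg h1 hb
    set r := rho C s (S1 + S2 + S3) with hr
    have q1 := ppw (x := xa C r (n12 + n32) (n12 + n13) S2)
      (x1 := xa C r (n12 + n32) (n12 + n32 + n13) S2)
      (x2 := xa C r (n12 + n32) (0 + n13) S2) h0 h1 (by unfold xa; ring)
    have q2 := ppw (x := xa C r t3 (n12 + n13) S3) (x1 := xa C r t3 (n12 + n32 + n13) S3)
      (x2 := xa C r t3 (0 + n13) S3) h0 h1 (by unfold xa; ring)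
    have q5 := ppw (x := xa C r t1 (n31 + n32) S1) (x1 := xa C r t1 (n31 + 0) S1)
      (x2 := xa C r t1 (n31 + (n12 + n32)) S1) h0 h1 (by unfold xa; ring)
    have q6 := ppw (x := xa C r (n12 + n32) (n31 + n32) S2)
      (x1 := xa C r (n12 + n32) (n31 + 0) S2)
      (x2 := xa C r (n12 + n32) (n31 + (n12 + n32)) S2) h0 h1 (by unfold xa; ring)
    have k4 : 0 ≤ (n12 + n32) * PF C s t1 (n12 + n32) t3 n21 n31 n12 n32 n13 n23 S1 S2 S3 := by
      unfold PF at k1 k2 ⊢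
      rw [← hr] at k1 k2 ⊢
      unfold PH at k1 k2 ⊢
      linarith
    exact nonneg_of_mul_nonneg_right k4 h
  · have e1 : n12 = 0 := by linarith
    have e2 : n32 = 0 := by linarith
    subst e1 e2
    simpa using ha

theorem conc3 (h0 : 0 ≤ n13) (h1 : 0 ≤ n23) (ht : n13 + n23 = t3)
    (ha : 0 ≤ PF C s t1 t2 t3 n21 n31 n12 n32 t3 0 S1 S2 S3)
    (hb : 0 ≤ PF C s t1 t2 t3 n21 n31 n12 n32 0 t3 S1 S2 S3) :
    0 ≤ PF C s t1 t2 t3 n21 n31 n12 n32 n13 n23 S1 S2 S3 := by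
  subst ht
  rcases (add_nonneg h0 h1).lt_or_eq with h | h
  · have k1 := mul_nonneg h0 ha
    have k2 := mul_nonneg h1 hb
    set r := rho C s (S1 + S2 + S3) with hr
    have q1 := ppw (x := xa C r t2 (n12 + n13) S2) (x1 := xa C r t2 (n12 + (n13 + n23)) S2)
      (x2 := xa C r t2 (n12 + 0) S2) h0 h1 (by unfold xa; ring)
    have q2 := ppw (x := xa C r (n13 + n23) (n12 + n13) S3)
      (x1 := xa C r (n13 + n23) (n12 + (n13 + n23)) S3)
      (x2 := xa C r (n13 + n23) (n12 + 0) S3) h0 h1 (by unfold xa; ring)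
    have q3 := ppw (x := xa C r t1 (n23 + n21) S1) (x1 := xa C r t1 (0 + n21) S1)
      (x2 := xa C r t1 (n13 + n23 + n21) S1) h0 h1 (by unfold xa; ring)
    have q4 := ppw (x := xa C r (n13 + n23) (n23 + n21) S3)
      (x1 := xa C r (n13 + n23) (0 + n21) S3)
      (x2 := xa C r (n13 + n23) (n13 + n23 + n21) S3) h0 h1 (by unfold xa; ring)
    have k4 : 0 ≤ (n13 + n23) * PF C s t1 t2 (n13 + n23) n21 n31 n12 n32 n13 n23 S1 S2 S3 := by
      unfold PF at k1 k2 ⊢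
      rw [← hr] at k1 k2 ⊢
      unfold PH at k1 k2 ⊢
      linarith
    exact nonneg_of_mul_nonneg_right k4 h
  · have e1 : n13 = 0 := by linarith
    have e2 : n23 = 0 := by linarith
    subst e1 e2
    simpa using ha

/-- from the four vertices of the caps to all caps -/
theorem concS {σ : ℝ} (h1 : ms t1 ≤ S1) (h2 : ms t2 ≤ S2) (h3 : ms t3 ≤ S3)
    (hs : s + (S1 + S2 + S3) ≤ σ)
    (hv : V4 (fun x y z => PF C s t1 t2 t3 n21 n31 n12 n32 n13 n23 x y z) σ s t1 t2 t3) :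
    0 ≤ PF C s t1 t2 t3 n21 n31 n12 n32 n13 n23 S1 S2 S3 := by
  obtain ⟨⟨v0, v1⟩, v2, v3⟩ := hv
  beta_reduce at v0 v1 v2 v3
  set m1 := ms t1 with hm1
  set m2 := ms t2 with hm2
  set m3 := ms t3 with hm3
  set τ := σ - s - m1 - m2 - m3 with hτ
  have hτ0 : 0 ≤ τ := by rw [hτ]; linarith
  rcases hτ0.lt_or_eq with h | h
  · have w0 : 0 ≤ σ - s - (S1 + S2 + S3) := by linarith
    have w1 : 0 ≤ S1 - m1 := by linarith
    have w2 : 0 ≤ S2 - m2 := by linarith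
    have w3 : 0 ≤ S3 - m3 := by linarith
    have hw : τ = (σ - s - (S1 + S2 + S3)) + (S1 - m1) + (S2 - m2) + (S3 - m3) := by
      rw [hτ]; ring
    have k0 := mul_nonneg w0 v0
    have k1 := mul_nonneg w1 v1
    have k2 := mul_nonneg w2 v2
    have k3 := mul_nonneg w3 v3
    have key : ∀ m : ℝ → ℝ → ℝ → ℝ, ∀ mt q : ℝ,
        (∀ x y z : ℝ, τ * m S1 S2 S3 = (σ - s - (S1 + S2 + S3)) * m m1 m2 m3
          + (S1 - m1) * m (σ - s - m2 - m3) m2 m3 + (S2 - m2) * m m1 (σ - s - m1 - m3) m3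
          + (S3 - m3) * m m1 m2 (σ - s - m1 - m2)) →
        τ * pp (xa C (rho C s (S1 + S2 + S3)) mt q (m S1 S2 S3)) ≤
          (σ - s - (S1 + S2 + S3)) * pp (xa C (rho C s (m1 + m2 + m3)) mt q (m m1 m2 m3))
          + (S1 - m1) * pp (xa C (rho C s (σ - s - m2 - m3 + m2 + m3)) mt q
            (m (σ - s - m2 - m3) m2 m3))
          + (S2 - m2) * pp (xa C (rho C s (m1 + (σ - s - m1 - m3) + m3)) mt q
            (m m1 (σ - s - m1 - m3) m3))
          + (S3 - m3) * pp (xa C (rho C s (m1 + m2 + (σ - s - m1 - m2))) mt q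
            (m m1 m2 (σ - s - m1 - m2))) := by
      intro m mt q hm
      have hm' := hm 0 0 0
      refine ppw4 w0 w1 w2 w3 hw ?_
      unfold xa rho
      rw [hτ] at hm' ⊢
      linear_combination (-(C.A * C.K * q)) * hm'
    have e1 := fun mt q => key (fun x _ _ => x) mt q (fun _ _ _ => by rw [hτ]; ring)
    have e2 := fun mt q => key (fun _ y _ => y) mt q (fun _ _ _ => by rw [hτ]; ring)
    have e3 := fun mt q => key (fun _ _ z => z) mt q (fun _ _ _ => by rw [hτ]; ring)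
    have a1 := e2 t2 (n12 + n13)
    have a2 := e3 t3 (n12 + n13)
    have a3 := e1 t1 (n23 + n21)
    have a4 := e3 t3 (n23 + n21)
    have a5 := e1 t1 (n31 + n32)
    have a6 := e2 t2 (n31 + n32)
    beta_reduce at a1 a2 a3 a4 a5 a6
    have aff : ∀ x12 x13 x21 x23 x31 x32 : ℝ, ∀ u v w : ℝ,
        PH C s t1 t2 t3 n21 n31 n12 n32 n13 n23 u v w x12 x13 x21 x23 x31 x32
          = PH C s t1 t2 t3 n21 n31 n12 n32 n13 n23 u v w 0 0 0 0 0 0
            - (x12 + x13 + (x21 + x23) + (x31 + x32)) := by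
      intros
      unfold PH
      ring
    have lin : τ * PH C s t1 t2 t3 n21 n31 n12 n32 n13 n23 S1 S2 S3 0 0 0 0 0 0
        = (σ - s - (S1 + S2 + S3)) *
            PH C s t1 t2 t3 n21 n31 n12 n32 n13 n23 m1 m2 m3 0 0 0 0 0 0
          + (S1 - m1) * PH C s t1 t2 t3 n21 n31 n12 n32 n13 n23 (σ - s - m2 - m3) m2 m3
              0 0 0 0 0 0
          + (S2 - m2) * PH C s t1 t2 t3 n21 n31 n12 n32 n13 n23 m1 (σ - s - m1 - m3) m3
              0 0 0 0 0 0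
          + (S3 - m3) * PH C s t1 t2 t3 n21 n31 n12 n32 n13 n23 m1 m2 (σ - s - m1 - m2)
              0 0 0 0 0 0 := by
      rw [hτ]
      unfold PH GG rho Wc
      ring
    have k4 : 0 ≤ τ * PF C s t1 t2 t3 n21 n31 n12 n32 n13 n23 S1 S2 S3 := by
      unfold PF at k0 k1 k2 k3 ⊢
      rw [aff] at k0 k1 k2 k3 ⊢
      rw [mul_sub] at k0 k1 k2 k3 ⊢
      linarith
    exact nonneg_of_mul_nonneg_right k4 h
  · have e1 : S1 = m1 := by linarith
    have e2 : S2 = m2 := by linarith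
    have e3 : S3 = m3 := by linarith
    rw [e1, e2, e3]
    exact v0

end

end Helper33.MEI.ArT
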