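import Pool.Agent.Helper33.MEI.ArT

/-!
# The face inequality with linear prices

`price`: from the vertices (`Ok`) to the inequality of a face.
-/

set_option autoImplicit false

namespace Helper33.MEI.ArT

/-- nonnegativity at all leaks and all caps from the vertices -/
theorem PF_nonneg {C : Cst} {s t1 t2 t3 n21 n31 n12 n32 n13 n23 S1 S2 S3 : ℝ} (hv : Vert C)
    (hD : Dom C.σ s t1 t2 t3)
    (a1 : 0 ≤ n21) (a2 : 0 ≤ n31) (a3 : 0 ≤ n12) (a4 : 0 ≤ n32) (a5 : 0 ≤ n13) (a6 : 0 ≤ n23)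
    (h1 : n21 + n31 = t1) (h2 : n12 + n32 = t2) (h3 : n13 + n23 = t3)
    (c1 : ms t1 ≤ S1) (c2 : ms t2 ≤ S2) (c3 : ms t3 ≤ S3) (hs : s + (S1 + S2 + S3) ≤ C.σ) :
    0 ≤ PF C s t1 t2 t3 n21 n31 n12 n32 n13 n23 S1 S2 S3 := by
  obtain ⟨⟨v1, v2, v3, v4⟩, v5, v6, v7, v8⟩ := hv s t1 t2 t3 hD
  refine conc1 a1 a2 h1 ?_ ?_
  · refine conc2 a3 a4 h2 ?_ ?_
    · exact conc3 a5 a6 h3 (concS c1 c2 c3 hs v1) (concS c1 c2 c3 hs v5)
    · exact conc3 a5 a6 h3 (concS c1 c2 c3 hs v3) (concS c1 c2 c3 hs v7)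
  · refine conc2 a3 a4 h2 ?_ ?_
    · exact conc3 a5 a6 h3 (concS c1 c2 c3 hs v2) (concS c1 c2 c3 hs v6)
    · exact conc3 a5 a6 h3 (concS c1 c2 c3 hs v4) (concS c1 c2 c3 hs v8)

/-- the inequalities between the constants which make the values of the contact points monotone -/
structure Ok (C : Cst) : Prop where
  A0 : 0 ≤ C.A
  K0 : 0 ≤ C.K
  wpB : C.wp ≤ C.B
  wqB : C.wq ≤ C.B
  r00 : 0 ≤ C.r0
  r10 : 0 ≤ C.r1
  r20 : 0 ≤ C.r2
  k20 : 0 ≤ C.k2
  k21 : C.k2 ≤ C.k1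
  /-- on the range the share is nonnegative and the values of the contact points pay -/
  dom : ∀ s t1 t2 t3 : ℝ, Dom C.σ s t1 t2 t3 → ∀ S : ℝ, 0 ≤ S → s + S ≤ C.σ →
    0 ≤ GG C (rho C s S) (t1 + t2 + t3) ∧
    C.k1 * GG C (rho C s S) (t1 + t2 + t3) + C.A * C.B * (t1 + t2 + t3) + 2 * rho C s S
      ≤ C.A * C.B
  vert : Vert C

theorem coef {C : Cst} {T x y w r G : ℝ} (hA : 0 ≤ C.A) (hy : 0 ≤ y) (hw : 0 ≤ w)
    (hT : T = x + y + w) (hPc : C.wp ≤ C.B) (hQc : C.wq ≤ C.B)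
    (h : C.k1 * G + C.A * C.B * T + 2 * r ≤ C.A * C.B) :
    C.k1 * G + 2 * r ≤ C.A * (C.B * (1 - x) - (C.wp * y + C.wq * w)) := by
  have h2 : C.A * (C.wp * y) ≤ C.A * (C.B * y) :=
    mul_le_mul_of_nonneg_left (mul_le_mul_of_nonneg_right hPc hy) hA
  have h3 : C.A * (C.wq * w) ≤ C.A * (C.B * w) :=
    mul_le_mul_of_nonneg_left (mul_le_mul_of_nonneg_right hQc hw) hA
  subst hT
  linarith

/-- the prices of a face -/
noncomputable def PR (C : Cst) (s S1 S2 S3 : ℝ) : ℝ :=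
  C.c * s - C.a * s ^ 2 - C.b * s * (S1 + S2 + S3) - C.p * (S1 + S2 + S3)

section
variable {C : Cst} {s z V n21 n31 n12 n32 n13 n23 R1 R2 R3 S1 S2 S3 : ℝ}

/-- the face inequality for the pair of the contact points one and two -/
theorem price12 (h : Ok C) (a1 : 0 ≤ n21) (a2 : 0 ≤ n31) (a3 : 0 ≤ n12) (a4 : 0 ≤ n32)
    (a5 : 0 ≤ n13) (a6 : 0 ≤ n23) (hD : Dom C.σ s (n21 + n31) (n12 + n32) (n13 + n23))
    (m1 : mm (n21 + n31) ≤ R1) (m2 : mm (n12 + n32) ≤ R2) (m3 : mm (n13 + n23) ≤ R3)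
    (c1 : ms (n21 + n31) ≤ S1) (c2 : ms (n12 + n32) ≤ S2) (c3 : ms (n13 + n23) ≤ S3)
    (hs : s + (S1 + S2 + S3) ≤ C.σ)
    (hz : z ≤ C.k1 * R1 + C.k2 * R2)
    (hV : VV C (rho C s (S1 + S2 + S3)) s z n21 n31 n12 n32 n13 n23 R1 R2 R3 S1 S2 S3 ≤ V) :
    PR C s S1 S2 S3 ≤ V := by
  have hF := PF_nonneg h.vert hD a1 a2 a3 a4 a5 a6 rfl rfl rfl c1 c2 c3 hs
  have g1 := ms_nonneg hD.u1
  have g2 := ms_nonneg hD.u2
  have g3 := ms_nonneg hD.u3
  have hS0 : 0 ≤ S1 + S2 + S3 := by linarith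
  obtain ⟨hG, hg⟩ := h.dom _ _ _ _ hD _ hS0 hs
  set t1 := n21 + n31 with ht1
  set t2 := n12 + n32 with ht2
  set t3 := n13 + n23 with ht3
  set r := rho C s (S1 + S2 + S3) with hr
  set G := GG C r (t1 + t2 + t3) with hGd
  have hr0 : 0 ≤ r := by
    rw [hr]
    unfold rho
    have := mul_nonneg h.r10 hS0
    have := mul_nonneg h.r20 hD.s0
    linarith [h.r00]
  have e1 := coef (C := C) (T := t1 + t2 + t3) (x := n12 + n13) (y := t1) (w := n23 + n32)
    h.A0 hD.p1 (by positivity) (by rw [ht2, ht3]; ring) h.wpB h.wqB hg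
  have e2 := coef (C := C) (T := t1 + t2 + t3) (x := n23 + n21) (y := t2) (w := n31 + n13)
    h.A0 hD.p2 (by positivity) (by rw [ht1, ht3]; ring) h.wpB h.wqB hg
  have e3 := coef (C := C) (T := t1 + t2 + t3) (x := n31 + n32) (y := t3) (w := n12 + n21)
    h.A0 hD.p3 (by positivity) (by rw [ht1, ht2]; ring) h.wpB h.wqB hg
  set E1 := C.A * (C.B * (1 - (n12 + n13)) - (C.wp * t1 + C.wq * (n23 + n32))) with hE1
  set E2 := C.A * (C.B * (1 - (n23 + n21)) - (C.wp * t2 + C.wq * (n31 + n13))) with hE2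
  set E3 := C.A * (C.B * (1 - (n31 + n32)) - (C.wp * t3 + C.wq * (n12 + n21))) with hE3
  have k10 : 0 ≤ C.k1 := h.k20.trans h.k21
  have hk1G : 0 ≤ C.k1 * G := mul_nonneg k10 hG
  have hk2G : C.k2 * G ≤ C.k1 * G := mul_le_mul_of_nonneg_right h.k21 hG
  have w1 : 0 ≤ (E1 - 2 * r - C.k1 * G) * (R1 - mm t1) := mul_nonneg (by linarith) (by linarith)
  have w2 : 0 ≤ (E2 - 2 * r - C.k2 * G) * (R2 - mm t2) := mul_nonneg (by linarith) (by linarith)
  have w3 : 0 ≤ (E3 - 2 * r) * (R3 - mm t3) := mul_nonneg (by linarith) (by linarith)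
  have w4 : 0 ≤ G * (C.k1 * R1 + C.k2 * R2 - z) := mul_nonneg hG (by linarith)
  have y12 := pp_step (x := C.A * C.K * (n12 + n13) * S2) hr0 m2
  have y13 := pp_step (x := C.A * C.K * (n12 + n13) * S3) hr0 m3
  have y21 := pp_step (x := C.A * C.K * (n23 + n21) * S1) hr0 m1
  have y23 := pp_step (x := C.A * C.K * (n23 + n21) * S3) hr0 m3
  have y31 := pp_step (x := C.A * C.K * (n31 + n32) * S1) hr0 m1
  have y32 := pp_step (x := C.A * C.K * (n31 + n32) * S2) hr0 m2
  have eV : VV C r s z n21 n31 n12 n32 n13 n23 R1 R2 R3 S1 S2 S3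
      = R1 * E1 + R2 * E2 + R3 * E3 - C.A * (S1 * (C.wp * t1 + C.wq * (n23 + n32))
        + S2 * (C.wp * t2 + C.wq * (n31 + n13)) + S3 * (C.wp * t3 + C.wq * (n12 + n21)))
        - Wc C s t1 t2 t3 S1 S2 S3
        + G * (C.e * s - z)
        - (pp (r * R2 - C.A * C.K * (n12 + n13) * S2) + pp (r * R3 - C.A * C.K * (n12 + n13) * S3)
        + (pp (r * R1 - C.A * C.K * (n23 + n21) * S1) + pp (r * R3 - C.A * C.K * (n23 + n21) * S3))
        + (pp (r * R1 - C.A * C.K * (n31 + n32) * S1)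
          + pp (r * R2 - C.A * C.K * (n31 + n32) * S2))) := by
    unfold VV
    rfl
  have eF : PF C s t1 t2 t3 n21 n31 n12 n32 n13 n23 S1 S2 S3
      = mm t1 * E1 + mm t2 * E2 + mm t3 * E3 - C.A * (S1 * (C.wp * t1 + C.wq * (n23 + n32))
        + S2 * (C.wp * t2 + C.wq * (n31 + n13)) + S3 * (C.wp * t3 + C.wq * (n12 + n21)))
        - Wc C s t1 t2 t3 S1 S2 S3
        + G * (C.e * s - C.k1 * mm t1 - C.k2 * mm t2)
        + C.a * s ^ 2 + C.b * s * (S1 + S2 + S3) + C.p * (S1 + S2 + S3) - C.c * s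
        - (pp (r * mm t2 - C.A * C.K * (n12 + n13) * S2)
          + pp (r * mm t3 - C.A * C.K * (n12 + n13) * S3)
        + (pp (r * mm t1 - C.A * C.K * (n23 + n21) * S1)
          + pp (r * mm t3 - C.A * C.K * (n23 + n21) * S3))
        + (pp (r * mm t1 - C.A * C.K * (n31 + n32) * S1)
          + pp (r * mm t2 - C.A * C.K * (n31 + n32) * S2))) := by
    unfold PF PH xa
    rfl
  rw [eV] at hV
  rw [eF] at hF
  unfold PR
  linarith

/-- **the face inequality with linear prices.** `z` is the value of the plane of the contact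
points at the apex; it is bounded by one of the six combinations of two values. -/
theorem price (h : Ok C) (a1 : 0 ≤ n21) (a2 : 0 ≤ n31) (a3 : 0 ≤ n12) (a4 : 0 ≤ n32)
    (a5 : 0 ≤ n13) (a6 : 0 ≤ n23) (hD : Dom C.σ s (n21 + n31) (n12 + n32) (n13 + n23))
    (m1 : mm (n21 + n31) ≤ R1) (m2 : mm (n12 + n32) ≤ R2) (m3 : mm (n13 + n23) ≤ R3)
    (c1 : ms (n21 + n31) ≤ S1) (c2 : ms (n12 + n32) ≤ S2) (c3 : ms (n13 + n23) ≤ S3)
    (hs : s + (S1 + S2 + S3) ≤ C.σ)
    (hz : z ≤ C.k1 * R1 + C.k2 * R2 ∨ z ≤ C.k1 * R1 + C.k2 * R3 ∨ z ≤ C.k1 * R2 + C.k2 * R1 ∨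
      z ≤ C.k1 * R2 + C.k2 * R3 ∨ z ≤ C.k1 * R3 + C.k2 * R1 ∨ z ≤ C.k1 * R3 + C.k2 * R2)
    (hV : VV C (rho C s (S1 + S2 + S3)) s z n21 n31 n12 n32 n13 n23 R1 R2 R3 S1 S2 S3 ≤ V) :
    PR C s S1 S2 S3 ≤ V := by
  have f : ∀ x y : ℝ, mm (x + y) = mm (y + x) := fun x y => by rw [add_comm]
  have f' : ∀ x y : ℝ, ms (x + y) = ms (y + x) := fun x y => by rw [add_comm]
  rcases hz with hz | hz | hz | hz | hz | hz
  · exact price12 h a1 a2 a3 a4 a5 a6 hD m1 m2 m3 c1 c2 c3 hs hz hV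
  · -- exchange two and three
    have k := price12 (R1 := R1) (R2 := R3) (R3 := R2) (S1 := S1) (S2 := S3) (S3 := S2) (V := V)
      h a2 a1 a5 a6 a3 a4 (by rw [add_comm n31 n21]; exact hD.perm23) (by rw [f]; exact m1) m3 m2
      (by rw [f']; exact c1) c3 c2 (by linarith) hz
      (by
        refine le_trans (le_of_eq ?_) hV
        unfold VV Wc
        rw [show S1 + S3 + S2 = S1 + S2 + S3 by ring,
          show n31 + n21 + (n13 + n23) + (n12 + n32) = n21 + n31 + (n12 + n32) + (n13 + n23) by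
          ring, show n13 + n12 = n12 + n13 by ring, show n32 + n31 = n31 + n32 by ring,
          show n21 + n23 = n23 + n21 by ring]
        ring)
    unfold PR at k ⊢
    linarith
  · -- exchange one and two
    have k := price12 (R1 := R2) (R2 := R1) (R3 := R3) (S1 := S2) (S2 := S1) (S3 := S3) (V := V)
      h a3 a4 a1 a2 a6 a5 (by rw [add_comm n23 n13]; exact hD.perm12) m2 m1
      (by rw [f]; exact m3) c2 c1 (by rw [f']; exact c3) (by linarith) hz
      (by
        refine le_trans (le_of_eq ?_) hV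
        unfold VV Wc
        rw [show S2 + S1 + S3 = S1 + S2 + S3 by ring,
          show n12 + n32 + (n21 + n31) + (n23 + n13) = n21 + n31 + (n12 + n32) + (n13 + n23) by
          ring, show n21 + n23 = n23 + n21 by ring, show n13 + n12 = n12 + n13 by ring,
          show n32 + n31 = n31 + n32 by ring]
        ring)
    unfold PR at k ⊢
    linarith
  · -- one, two, three := two, three, one
    have k := price12 (R1 := R2) (R2 := R3) (R3 := R1) (S1 := S2) (S2 := S3) (S3 := S1) (V := V)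
      h a4 a3 a6 a5 a1 a2
      (by rw [add_comm n32 n12, add_comm n23 n13]; exact hD.perm12.perm23)
      (by rw [f]; exact m2) (by rw [f]; exact m3) m1 (by rw [f']; exact c2)
      (by rw [f']; exact c3) c1 (by linarith) hz
      (by
        refine le_trans (le_of_eq ?_) hV
        unfold VV Wc
        rw [show S2 + S3 + S1 = S1 + S2 + S3 by ring,
          show n32 + n12 + (n23 + n13) + (n21 + n31) = n21 + n31 + (n12 + n32) + (n13 + n23) by
          ring]
        ring)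
    unfold PR at k ⊢
    linarith
  · -- one, two, three := three, one, two
    have k := price12 (R1 := R3) (R2 := R1) (R3 := R2) (S1 := S3) (S2 := S1) (S3 := S2) (V := V)
      h a5 a6 a2 a1 a4 a3
      (by rw [add_comm n31 n21, add_comm n32 n12]; exact hD.perm23.perm12)
      m3 (by rw [f]; exact m1) (by rw [f]; exact m2) c3 (by rw [f']; exact c1)
      (by rw [f']; exact c2) (by linarith) hz
      (by
        refine le_trans (le_of_eq ?_) hV
        unfold VV Wc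
        rw [show S3 + S1 + S2 = S1 + S2 + S3 by ring,
          show n13 + n23 + (n31 + n21) + (n32 + n12) = n21 + n31 + (n12 + n32) + (n13 + n23) by
          ring]
        ring)
    unfold PR at k ⊢
    linarith
  · -- one, two, three := three, two, one
    have k := price12 (R1 := R3) (R2 := R2) (R3 := R1) (S1 := S3) (S2 := S2) (S3 := S1) (V := V)
      h a6 a5 a4 a3 a2 a1
      (by
        rw [add_comm n31 n21, add_comm n32 n12, add_comm n23 n13]
        exact hD.perm12.perm23.perm12)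
      (by rw [f]; exact m3) (by rw [f]; exact m2) (by rw [f]; exact m1) (by rw [f']; exact c3)
      (by rw [f']; exact c2) (by rw [f']; exact c1) (by linarith) hz
      (by
        refine le_trans (le_of_eq ?_) hV
        unfold VV Wc
        rw [show S3 + S2 + S1 = S1 + S2 + S3 by ring,
          show n23 + n13 + (n32 + n12) + (n31 + n21) = n21 + n31 + (n12 + n32) + (n13 + n23) by
          ring, show n32 + n31 = n31 + n32 by ring, show n21 + n23 = n23 + n21 by ring,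
          show n13 + n12 = n12 + n13 by ring]
        ring)
    unfold PR at k ⊢
    linarith

end

end Helper33.MEI.ArT
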