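import Pool.Agent.Helper33.MEI.ArU

/-!
# Tools for the vertices

Scaling of the range of the leaks to the unit box, the strip terms which are never cut off.
-/

set_option autoImplicit false

namespace Helper33.MEI.ArT

/-- one leak in scaled form -/
theorem sc1 {σ θ tm s t v : ℝ} (hσ : 0 < σ) (hθ : 0 < θ) (htm : tm < 1)
    (h1 : 2 * σ ≤ θ ^ 2 * (1 - tm)) (hv : 0 ≤ v) (hs : s = σ * v ^ 2) (ht : 0 ≤ t)
    (htt : t ≤ tm) (hm : ms t ≤ s) :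
    ∃ x, 0 ≤ x ∧ x ≤ 1 ∧ t = θ * v * x ∧ θ ^ 2 / 2 * x ^ 2 * (1 - θ * v * x) - σ ≤ 0 := by
  unfold ms at hm
  have ht1 : 0 < 1 - t := by linarith
  rcases hv.lt_or_eq with h | h
  · have hθv : 0 < θ * v := mul_pos hθ h
    have e : θ * v * (t / (θ * v)) = t := by field_simp
    refine ⟨t / (θ * v), by positivity, ?_, e.symm, ?_⟩
    · rw [div_le_one hθv]
      by_contra hc
      push Not at hc
      have k1 : (θ * v) ^ 2 < t ^ 2 := by nlinarith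
      have k2 : t ^ 2 * (1 - tm) ≤ t ^ 2 * (1 - t) :=
        mul_le_mul_of_nonneg_left (by linarith) (sq_nonneg t)
      have k3 : (θ * v) ^ 2 * (1 - tm) < t ^ 2 * (1 - tm) :=
        mul_lt_mul_of_pos_right k1 (by linarith)
      have k4 : 2 * σ * v ^ 2 ≤ θ ^ 2 * (1 - tm) * v ^ 2 :=
        mul_le_mul_of_nonneg_right h1 (sq_nonneg v)
      nlinarith
    · rw [e]
      have e2 : θ ^ 2 / 2 * (t / (θ * v)) ^ 2 * (1 - t) = (t ^ 2 / 2 * (1 - t)) / v ^ 2 := by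
        field_simp
      rw [e2, sub_nonpos, div_le_iff₀ (by positivity)]
      linarith
  · subst h
    have h0 : t = 0 := by
      by_contra hc
      have : 0 < t ^ 2 / 2 * (1 - t) := by positivity
      rw [hs] at hm
      linarith
    exact ⟨0, le_rfl, zero_le_one, by rw [h0]; ring, by nlinarith⟩

/-- the range in scaled form -/
theorem scale {σ θ tm s t1 t2 t3 : ℝ} (hσ : 0 < σ) (hθ : 0 < θ) (htm : tm < 1)
    (h1 : 2 * σ ≤ θ ^ 2 * (1 - tm)) (D : Dom σ s t1 t2 t3) (b1 : t1 ≤ tm) (b2 : t2 ≤ tm)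
    (b3 : t3 ≤ tm) :
    ∃ v x y z, 0 ≤ v ∧ v ≤ 1 ∧ 0 ≤ x ∧ x ≤ 1 ∧ 0 ≤ y ∧ y ≤ 1 ∧ 0 ≤ z ∧ z ≤ 1 ∧
      s = σ * v ^ 2 ∧ t1 = θ * v * x ∧ t2 = θ * v * y ∧ t3 = θ * v * z ∧
      θ ^ 2 / 2 * x ^ 2 * (1 - θ * v * x) - σ ≤ 0 ∧
      θ ^ 2 / 2 * y ^ 2 * (1 - θ * v * y) - σ ≤ 0 ∧
      θ ^ 2 / 2 * z ^ 2 * (1 - θ * v * z) - σ ≤ 0 := by
  have hv : 0 ≤ s / σ := div_nonneg D.s0 hσ.le
  have g1 := ms_nonneg D.u1
  have g2 := ms_nonneg D.u2
  have g3 := ms_nonneg D.u3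
  have hs : s = σ * Real.sqrt (s / σ) ^ 2 := by
    rw [Real.sq_sqrt hv]
    field_simp
  have hv1 : Real.sqrt (s / σ) ≤ 1 := by
    rw [Real.sqrt_le_one, div_le_one hσ]
    linarith [D.sum]
  obtain ⟨x, x0, x1, ex, cx⟩ := sc1 hσ hθ htm h1 (Real.sqrt_nonneg _) hs D.p1 b1 D.q1
  obtain ⟨y, y0, y1, ey, cy⟩ := sc1 hσ hθ htm h1 (Real.sqrt_nonneg _) hs D.p2 b2 D.q2
  obtain ⟨z, z0, z1, ez, cz⟩ := sc1 hσ hθ htm h1 (Real.sqrt_nonneg _) hs D.p3 b3 D.q3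
  exact ⟨_, x, y, z, Real.sqrt_nonneg _, hv1, x0, x1, y0, y1, z0, z1, hs, ex, ey, ez, cx, cy, cz⟩

theorem ppc (x : ℝ) : pp x = x ∨ pp x = 0 := by
  rcases le_total 0 x with h | h
  · exact Or.inl (pp_of_nonneg h)
  · exact Or.inr (pp_of_nonpos h)

/-- a small end is never cut off -/
theorem act {C : Cst} {tm s t t' q S : ℝ}
    (hk : ∀ t, 0 ≤ t → t ≤ tm → C.A * C.K * t ≤ C.r0 / 2 + C.r1 * ms t)
    (hAK : 0 ≤ C.A * C.K) (h1 : 0 ≤ C.r1) (h2 : 0 ≤ C.r2) (htm : tm ≤ 1) (hs : 0 ≤ s)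
    (ht : 0 ≤ t) (ht' : 0 ≤ t') (b : t ≤ tm) (b' : t' ≤ tm) (hq : q ≤ t + t')
    (hS : ms t + ms t' ≤ S) :
    pp (xa C (rho C s S) t q (ms t)) = xa C (rho C s S) t q (ms t) := by
  apply pp_of_nonneg
  have k1 := hk t ht b
  have k2 := hk t' ht' b'
  have k3 : C.A * C.K * q ≤ C.A * C.K * (t + t') := mul_le_mul_of_nonneg_left hq hAK
  have k4 : C.r1 * (ms t + ms t') ≤ C.r1 * S := mul_le_mul_of_nonneg_left hS h1
  have k5 : 0 ≤ C.r2 * s := mul_nonneg h2 hs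
  have m0 : 0 ≤ ms t := by
    unfold ms
    have : 0 ≤ 1 - t := by linarith
    positivity
  have m0' : 0 ≤ ms t' := by
    unfold ms
    have : 0 ≤ 1 - t' := by linarith
    positivity
  have m1 : ms t ≤ mm t := by
    unfold ms mm
    exact mul_le_mul_of_nonneg_left (by linarith) (by positivity)
  have k6 : C.A * C.K * q ≤ rho C s S := by
    unfold rho
    linarith
  have r00 : 0 ≤ C.r0 := by
    have := hk 0 le_rfl (by linarith)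
    unfold ms at this
    linarith
  have k7 : 0 ≤ rho C s S := by
    unfold rho
    have := mul_nonneg h1 (show 0 ≤ S by linarith)
    linarith
  unfold xa
  have k8 : C.A * C.K * q * ms t ≤ rho C s S * ms t := mul_le_mul_of_nonneg_right k6 m0
  have k9 : rho C s S * ms t ≤ rho C s S * mm t := mul_le_mul_of_nonneg_left m1 k7
  linarith

/-- an end of an arc without leaks is never cut off -/
theorem act0 {C : Cst} {s t S S' : ℝ} (h0 : 0 ≤ C.r0) (h1 : 0 ≤ C.r1) (h2 : 0 ≤ C.r2)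
    (hs : 0 ≤ s) (ht1 : t ≤ 1) (hS : 0 ≤ S) :
    pp (xa C (rho C s S) t (0 + 0) S') = xa C (rho C s S) t (0 + 0) S' := by
  apply pp_of_nonneg
  have k7 : 0 ≤ rho C s S := by
    unfold rho
    have := mul_nonneg h1 hS
    have := mul_nonneg h2 hs
    linarith
  have m0 : 0 ≤ mm t := by
    unfold mm
    have : 0 ≤ 1 - t / 2 := by linarith
    positivity
  unfold xa
  have := mul_nonneg k7 m0
  linarith

/-- without strips no end is cut off -/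
theorem act00 {C : Cst} {s t q S S' : ℝ} (hK : C.K = 0) (h0 : 0 ≤ C.r0) (h1 : 0 ≤ C.r1)
    (h2 : 0 ≤ C.r2) (hs : 0 ≤ s) (ht1 : t ≤ 1) (hS : 0 ≤ S) :
    pp (xa C (rho C s S) t q S') = xa C (rho C s S) t q S' := by
  apply pp_of_nonneg
  have k7 : 0 ≤ rho C s S := by
    unfold rho
    have := mul_nonneg h1 hS
    have := mul_nonneg h2 hs
    linarith
  have m0 : 0 ≤ mm t := by
    unfold mm
    have : 0 ≤ 1 - t / 2 := by linarith
    positivity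
  unfold xa
  rw [hK]
  have := mul_nonneg k7 m0
  linarith

/-- the reduced function from the six strip terms -/
theorem PF_of {C : Cst} {s t1 t2 t3 n21 n31 n12 n32 n13 n23 S1 S2 S3 y12 y13 y21 y23 y31 y32 : ℝ}
    (h12 : pp (xa C (rho C s (S1 + S2 + S3)) t2 (n12 + n13) S2) = y12)
    (h13 : pp (xa C (rho C s (S1 + S2 + S3)) t3 (n12 + n13) S3) = y13)
    (h21 : pp (xa C (rho C s (S1 + S2 + S3)) t1 (n23 + n21) S1) = y21)
    (h23 : pp (xa C (rho C s (S1 + S2 + S3)) t3 (n23 + n21) S3) = y23)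
    (h31 : pp (xa C (rho C s (S1 + S2 + S3)) t1 (n31 + n32) S1) = y31)
    (h32 : pp (xa C (rho C s (S1 + S2 + S3)) t2 (n31 + n32) S2) = y32)
    (h : 0 ≤ PH C s t1 t2 t3 n21 n31 n12 n32 n13 n23 S1 S2 S3 y12 y13 y21 y23 y31 y32) :
    0 ≤ PF C s t1 t2 t3 n21 n31 n12 n32 n13 n23 S1 S2 S3 := by
  unfold PF
  rw [h12, h13, h21, h23, h31, h32]
  exact h

/-- the reduced function, no strip term cut off, with a free moment `r` and a free share `g` -/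
noncomputable def PHg (C : Cst) (r g s t1 t2 t3 n21 n31 n12 n32 n13 n23 S1 S2 S3 : ℝ) : ℝ :=
  mm t1 * (C.A * (C.B * (1 - (n12 + n13)) - (C.wp * t1 + C.wq * (n23 + n32))))
  + mm t2 * (C.A * (C.B * (1 - (n23 + n21)) - (C.wp * t2 + C.wq * (n31 + n13))))
  + mm t3 * (C.A * (C.B * (1 - (n31 + n32)) - (C.wp * t3 + C.wq * (n12 + n21))))
  - C.A * (S1 * (C.wp * t1 + C.wq * (n23 + n32)) + S2 * (C.wp * t2 + C.wq * (n31 + n13))
    + S3 * (C.wp * t3 + C.wq * (n12 + n21)))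
  - Wc C s t1 t2 t3 S1 S2 S3
  + g * (C.e * s - C.k1 * mm t1 - C.k2 * mm t2)
  + C.a * s ^ 2 + C.b * s * (S1 + S2 + S3) + C.p * (S1 + S2 + S3) - C.c * s
  - (xa C r t2 (n12 + n13) S2 + xa C r t3 (n12 + n13) S3
    + (xa C r t1 (n23 + n21) S1 + xa C r t3 (n23 + n21) S3)
    + (xa C r t1 (n31 + n32) S1 + xa C r t2 (n31 + n32) S2))

theorem mm_nonneg {t : ℝ} (h1 : t ≤ 1) : 0 ≤ mm t := by
  unfold mm
  have : 0 ≤ 1 - t / 2 := by linarith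
  positivity

theorem GG_anti {C : Cst} {r r' T : ℝ} (h : r' ≤ r) (h1 : 0 ≤ C.x0 - C.x1 * T)
    (h2 : 0 ≤ C.f0 + C.f1 * T + C.f2 * T ^ 2) : GG C r T ≤ GG C r' T := by
  unfold GG
  apply mul_le_mul_of_nonneg_left _ h1
  have := mul_le_mul_of_nonneg_right h h2
  linarith

/-- the reduced function from above for the moment -/
theorem PF_low {C : Cst} {r g s t1 t2 t3 n21 n31 n12 n32 n13 n23 S1 S2 S3 : ℝ}
    (h12 : pp (xa C (rho C s (S1 + S2 + S3)) t2 (n12 + n13) S2)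
      = xa C (rho C s (S1 + S2 + S3)) t2 (n12 + n13) S2)
    (h13 : pp (xa C (rho C s (S1 + S2 + S3)) t3 (n12 + n13) S3)
      = xa C (rho C s (S1 + S2 + S3)) t3 (n12 + n13) S3)
    (h21 : pp (xa C (rho C s (S1 + S2 + S3)) t1 (n23 + n21) S1)
      = xa C (rho C s (S1 + S2 + S3)) t1 (n23 + n21) S1)
    (h23 : pp (xa C (rho C s (S1 + S2 + S3)) t3 (n23 + n21) S3)
      = xa C (rho C s (S1 + S2 + S3)) t3 (n23 + n21) S3)
    (h31 : pp (xa C (rho C s (S1 + S2 + S3)) t1 (n31 + n32) S1)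
      = xa C (rho C s (S1 + S2 + S3)) t1 (n31 + n32) S1)
    (h32 : pp (xa C (rho C s (S1 + S2 + S3)) t2 (n31 + n32) S2)
      = xa C (rho C s (S1 + S2 + S3)) t2 (n31 + n32) S2)
    (hr : rho C s (S1 + S2 + S3) ≤ r) (u1 : t1 ≤ 1) (u2 : t2 ≤ 1) (u3 : t3 ≤ 1)
    (hg : g * (C.e * s - C.k1 * mm t1 - C.k2 * mm t2)
      ≤ GG C (rho C s (S1 + S2 + S3)) (t1 + t2 + t3) * (C.e * s - C.k1 * mm t1 - C.k2 * mm t2))
    (h : 0 ≤ PHg C r g s t1 t2 t3 n21 n31 n12 n32 n13 n23 S1 S2 S3) :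
    0 ≤ PF C s t1 t2 t3 n21 n31 n12 n32 n13 n23 S1 S2 S3 := by
  refine PF_of h12 h13 h21 h23 h31 h32 ?_
  have k1 := mul_le_mul_of_nonneg_right hr (mm_nonneg u1)
  have k2 := mul_le_mul_of_nonneg_right hr (mm_nonneg u2)
  have k3 := mul_le_mul_of_nonneg_right hr (mm_nonneg u3)
  set r' := rho C s (S1 + S2 + S3) with hr'
  unfold PHg at h
  unfold PH
  rw [← hr']
  unfold xa at h ⊢
  linarith

/-- the sum of the leaks -/
theorem T_le {σ tm Tm s t1 t2 t3 : ℝ} (D : Dom σ s t1 t2 t3) (b1 : t1 ≤ tm) (b2 : t2 ≤ tm)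
    (b3 : t3 ≤ tm) (htm : tm < 1) (hT : 0 ≤ Tm) (h : 9 * σ ≤ 2 * Tm ^ 2 * (1 - tm)) :
    t1 + t2 + t3 ≤ Tm := by
  have k : ∀ t, t ≤ tm → t ^ 2 * (1 - tm) ≤ 2 * ms t := by
    intro t ht
    have := mul_le_mul_of_nonneg_left (show 1 - tm ≤ 1 - t by linarith) (sq_nonneg t)
    unfold ms
    linarith
  have k1 := k t1 b1
  have k2 := k t2 b2
  have k3 := k t3 b3
  have q1 := D.q1
  have q2 := D.q2
  have q3 := D.q3
  have hs := D.sum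
  have k4 : (t1 ^ 2 + t2 ^ 2 + t3 ^ 2) * (1 - tm) ≤ 3 / 2 * σ := by linarith
  by_contra hc
  push Not at hc
  have k5 : (t1 + t2 + t3) ^ 2 ≤ 3 * (t1 ^ 2 + t2 ^ 2 + t3 ^ 2) := by
    nlinarith [sq_nonneg (t1 - t2), sq_nonneg (t2 - t3), sq_nonneg (t1 - t3)]
  have k6 : Tm ^ 2 < (t1 + t2 + t3) ^ 2 := by nlinarith
  have k7 : Tm ^ 2 * (1 - tm) < 3 * (t1 ^ 2 + t2 ^ 2 + t3 ^ 2) * (1 - tm) :=
    mul_lt_mul_of_pos_right (by linarith) (by linarith)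
  linarith

/-- halving the scale -/
theorem half0 {v : ℝ} (h0 : 0 ≤ v) (h : v ≤ 1 / 2) : ∃ u, 0 ≤ u ∧ u ≤ 1 ∧ v = u / 2 :=
  ⟨2 * v, by linarith, by linarith, by ring⟩

theorem half1 {v : ℝ} (h1 : v ≤ 1) (h : 1 / 2 ≤ v) : ∃ u, 0 ≤ u ∧ u ≤ 1 ∧ v = 1 / 2 + u / 2 :=
  ⟨2 * v - 1, by linarith, by linarith, by ring⟩

end Helper33.MEI.ArT
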