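import Pool.Agent.Helper73.MEI.FV5
import Pool.Agent.Helper33.MEI.ArU

/-!
# The face of a placed body with linear prices

`face_fg` = `face_fv` with a free share of the apex; `face_pr` = the prices of `ArU`.
-/

set_option autoImplicit false

namespace Pool.Agent.Helper33.FaceG

open Set Metric MeasureTheory Helper80.CW Helper82.CW Helper14.CW Helper93.MEI Helper82.M2
open Helper14.MEI2 Pool.Agent.Helper52.MEI Pool.Agent.Helper73.MEI Helper37.MEI Helper41.MEI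
open Pool.Agent.Helper73.MEI.ArCor
open Helper33.MEI (Wi)
open Pool.Agent.Helper55.Mass (LN vv B0 B0_ge)
open Pool.Agent.Helper55.Apex (nc)
open Pool.Agent.Helper55.ApexP (PN alP mu_bal)
open Pool.Agent.Helper73.MEI.SideP
open Pool.Agent.Helper96.Kap (kap)
open Pool.Agent.Helper31.SR
open Helper78.MEI
open Pool.Agent.Helper73.MEI.ZEl
open Helper75.MEI2 (mu vt)
open scoped RealInnerProductSpace ENNReal

/-- the numbers of the apex on the range `Σ S ≤ X`, total leak at most `Tm` -/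
structure Apg (X qm Tm r V x0 x1 f0 f1 f2 : ℝ) : Prop where
  X3 : X ≤ 1 / 3
  Tm0 : 0 ≤ Tm
  Tm2 : Tm < 2
  TmX : 9 / 2 * X ≤ (Tm * qm) ^ 2
  r0 : 0 < r
  rX : 9 / 8 + 3 / 4 * X ≤ r ^ 2
  V0 : 0 ≤ V
  VX : 3 / 8 + X / 4 - X ^ 2 / 8 ≤ (V + (1 - X) / 2) ^ 2
  x00 : 0 ≤ x0
  x0r : x0 * r ≤ 1872 / 10000
  x1r : x0 * (5 / 4 * r + V) ≤ x1 * r
  xT : x1 * Tm ≤ x0
  fp : ∀ T, 0 ≤ T → T ≤ Tm →
    22.6276 * (35 / 48 + 9 / 16 * T + 5 / 12 * T ^ 2) ^ 2 ≤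
      (f0 + f1 * T + f2 * T ^ 2) * (1 - T ^ 2 / 4)

variable {a : Fin 4 → E3} {K : Set E3} {S : Fin 4 → ℝ} {σ : Measure (E3 × E3)}
  {c : Fin 4 → E3} {z : Fin 4 → Fin 4 → E3} {X rm qm nb ρ1 Rb gg ε k1 k12 t2 δ : ℝ}

/-- the share of the arcs against the polynomial -/
theorem phi_f {N : Fin 3 → Fin 3 → ℝ} (hN : ∀ k m, 0 ≤ N k m) {A' ρ f Tm : ℝ}
    (hA : 0 < A') (hρ : 0 < ρ) (hTm : TN N ≤ Tm) (hT2 : Tm < 2)
    (hf : 22.6276 * (35 / 48 + 9 / 16 * TN N + 5 / 12 * TN N ^ 2) ^ 2 ≤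
      f * (1 - TN N ^ 2 / 4)) :
    A' * phiN A' ρ (TN N) (QN N) ≤ ρ * f := by
  have hT0 := TN_nonneg hN
  have hT : TN N < 2 := lt_of_le_of_lt hTm hT2
  have hD : 0 < 1 - TN N ^ 2 / 4 := by nlinarith
  have h1 := phiN_mono hA hρ hT0 hT QN_nonneg (QN_le_sq hN)
  have h2 := mul_le_mul_of_nonneg_left h1 hA.le
  refine h2.trans ?_
  have e : A' * phiN A' ρ (TN N) (TN N ^ 2) =
      22.6276 * ρ * (35 / 48 + 9 / 16 * TN N + 5 / 12 * TN N ^ 2) ^ 2 / (1 - TN N ^ 2 / 4) := by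
    unfold phiN
    field_simp
  rw [e, div_le_iff₀ hD]
  have := mul_le_mul_of_nonneg_left hf hρ.le
  linarith

/-- **the face of a placed body**, free share of the apex -/
theorem face_fg [IsFiniteMeasure σ]
    (P : Rng X rm qm nb ρ1 Rb gg ε k1 k12 t2 δ)
    (h : CN K σ a c) (v : Viol K a S) (hz : CV a K z)
    (τ : Equiv.Perm (Fin 4)) (hX : S (τ 0) + (S (τ 1) + S (τ 2) + S (τ 3)) ≤ X)
    {A : ℝ} (hA : 7 / 2 ≤ A)
    {l : Fin 3 → Bool → Bool → E3 × E3 → ℝ} (hl : Lok a l)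
    {δ3 dE dm : Fin 3 → ℝ} (hδ : ∀ p, MA σ a l τ p p ≤ δ3 p) (hdE : ∀ p, 0 ≤ dE p)
    (hdm : ∀ p, 0 ≤ dm p) (hdd : ∀ p, δ3 p ^ 2 ≤ dE p * dm p)
    {ρ : ℝ} (hρ : 0 < ρ) (hMρ : ∀ p k, k ≠ p → MA σ a l τ p k ≤ ρ)
    {Tm r V x0 x1 f0 f1 f2 : ℝ} (Q : Apg X qm Tm r V x0 x1 f0 f1 f2)
    (hfA : ∀ T, 0 ≤ T → T ≤ Tm → ρ * (f0 + f1 * T + f2 * T ^ 2) ≤ A / 2 + 1 / 8)
    {x : E3} (hx : x ∈ K) (hxs : Qv a (τ 0) x = S (τ 0) ∨ S (τ 0) = 0)
    {N : Fin 3 → Fin 3 → ℝ} (hNd : N = NM (fun i => a (τ i)) (fun i j => z (τ i) (τ j)))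
    {R : Fin 3 → ℝ} (hRd : R = RM (fun i => a (τ i)) (fun i j => z (τ i) (τ j)))
    {κ : Fin 3 → ℝ} (hκ0 : ∀ p, 0 ≤ κ p) (hκρ : ∀ p, (A / 2 + 1 / 8) * κ p ≤ ρ)
    (hκ : ∀ p, κ p ≤ Pool.Agent.Helper55.Mass.Id (fun t => kap N (vv t) p))
    {cst : ℝ}
    (hW : ∀ ζp : Fin 3 → ℝ, (∀ k, 0 < ζp k) → (∀ k, zc (fun i => a (τ i)) N x k ≤ ζp k) →
      ∀ lam, 0 ≤ lam → lam ≤ 1 - phiN (A / 2 + 1 / 8) ρ (TN N) (QN N) →
      WCost a K τ (A / 2 + 1 / 8)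
        (GM (A / 2 + 1 / 8) N (zc (fun i => a (τ i)) N x) ζp lam
          (fun p t => phiN (A / 2 + 1 / 8) ρ (TN N) (QN N) * flP (PN N) p t)
          (fun p t => kap N (vv t) p) (fun p => (A / 2 + 1 / 8) * κ p / ρ) (MB σ a l τ)
          (fun p => aE σ a l (τ 0) (τ p.succ) - dE p) R (fun k => S (τ k.succ)) (S (τ 0)))
        (DM (A / 2 + 1 / 8) N (zc (fun i => a (τ i)) N x) ζp lam
          (fun p t => phiN (A / 2 + 1 / 8) ρ (TN N) (QN N) * flP (PN N) p t)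
          (fun p t => kap N (vv t) p) (fun p => (A / 2 + 1 / 8) * κ p / ρ) (MB σ a l τ)
          (fun j => 1 / qM (fun i => a (τ i)) (fun i j => z (τ i) (τ j)) j)
          (fun p => am σ a l (τ 0) (τ p.succ) - dm p)) cst) :
    ∃ i j : Fin 3, i ≠ j ∧ ∀ g, 0 ≤ g →
      (g = 0 ∨ g ≤ (x0 - x1 * TN N) *
        (A / 2 + 1 / 8 - ρ * (f0 + f1 * TN N + f2 * TN N ^ 2))) →
      LLs σ a l (τ 0) - (dE 0 + dE 1 + dE 2)
        + corP (A / 2 + 1 / 8) N R (fun k => S (τ k.succ))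
        + g * ((1 - ε) * S (τ 0) - k1 * R i - (k12 - k1) * R j)
        - arcP (A / 2 + 1 / 8) ρ κ R (fun k => S (τ k.succ)) - cst ≤ Wi a (τ 0) K σ A := by
  have h' := h.perm τ
  have v' := viol_perm v τ
  have hz' := hz.perm τ
  have hA' : 0 < A / 2 + 1 / 8 := by linarith
  have hN : ∀ k m, 0 ≤ N k m := fun k m => by
    rw [hNd]
    exact NM_nonneg h' v' hz' k m
  have hd : ∀ k, N k k = 0 := fun k => by
    rw [hNd]
    exact NM_diag k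
  have hcol : ∀ m, nc N m ≤ 9 / 10 := fun m => by
    rw [hNd]
    exact nc_le h' v' hz' m
  have hc : (9 / 10 : ℝ) < 1 := by norm_num
  have hT0 := TN_nonneg hN
  have hTm : TN N ≤ Tm := by
    rw [hNd]
    exact TN_le P h' v' hz' hX Q.Tm0 Q.TmX
  have hT2 : TN N < 2 := lt_of_le_of_lt hTm Q.Tm2
  have hTm0 : 0 ≤ Tm := hT0.trans hTm
  have hφp := phiN_pos hA' hρ hT0 hT2 (QN_nonneg (N := N))
  have hok := fun p => phi_ok hN hd hc hcol hA' hρ.le hT2 p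
  have hx1 : 0 ≤ x1 := by
    have h1 : 0 ≤ x1 * r := le_trans (by
      have := Q.x00
      have := Q.r0
      have := Q.V0
      positivity) Q.x1r
    exact nonneg_of_mul_nonneg_left h1 Q.r0
  have hxT : 0 ≤ x0 - x1 * TN N := by
    have := mul_le_mul_of_nonneg_left hTm hx1
    linarith [Q.xT]
  have hφf := phi_f hN hA' hρ hTm Q.Tm2 (Q.fp _ hT0 hTm)
  have hφle : phiN (A / 2 + 1 / 8) ρ (TN N) (QN N) ≤ 1 := by
    have h1 := hfA _ hT0 hTm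
    have h2 : (A / 2 + 1 / 8) * phiN (A / 2 + 1 / 8) ρ (TN N) (QN N) ≤ (A / 2 + 1 / 8) * 1 := by
      linarith
    exact le_of_mul_le_mul_left h2 hA'
  have hgl : ∀ I, x0 - x1 * TN N ≤ I → (x0 - x1 * TN N) *
        (A / 2 + 1 / 8 - ρ * (f0 + f1 * TN N + f2 * TN N ^ 2)) ≤
      (A / 2 + 1 / 8) * ((1 - phiN (A / 2 + 1 / 8) ρ (TN N) (QN N)) * I) := by
    intro I hI
    have h1 : (x0 - x1 * TN N) * (A / 2 + 1 / 8 - ρ * (f0 + f1 * TN N + f2 * TN N ^ 2)) ≤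
        (x0 - x1 * TN N) * ((A / 2 + 1 / 8) * (1 - phiN (A / 2 + 1 / 8) ρ (TN N) (QN N))) :=
      mul_le_mul_of_nonneg_left (by linarith) hxT
    have h2 : (x0 - x1 * TN N) * ((A / 2 + 1 / 8) * (1 - phiN (A / 2 + 1 / 8) ρ (TN N) (QN N))) ≤
        I * ((A / 2 + 1 / 8) * (1 - phiN (A / 2 + 1 / 8) ρ (TN N) (QN N))) :=
      mul_le_mul_of_nonneg_right hI (mul_nonneg hA'.le (by linarith))
    linarith
  have hF : ∀ p, ρ - (A / 2 + 1 / 8) * κ p ≤ phiN (A / 2 + 1 / 8) ρ (TN N) (QN N) *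
      ((A / 2 + 1 / 8) * Pool.Agent.Helper55.Mass.Id (flP (PN N) p)) := fun p => by
    have h1 := hok p
    have h2 := mul_nonneg hA'.le (hκ0 p)
    linarith
  obtain ⟨i, j, hij, key⟩ := face_numM P h v hz τ hX hA hl hδ hdE hdm hdd hρ hMρ hx hxs hNd hRd
    hκ0 hκρ hκ hφp hφle hF
  refine ⟨i, j, hij, ?_⟩
  rcases hxs with hxs | hxs
  · -- the apex is the highest point
    set u : Fin 3 → ℝ := b3 (fun i => a (τ i)) x with hu
    have cx := coords (a := fun i => a (τ i)) h'.ha (h'.hp x hx) (S := fun k => S (τ k.succ))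
      (v'.le 1 x hx) (v'.le 2 x hx) (v'.le 3 x hx)
    have u0 : u 0 = bar (fun i => a (τ i)) 1 x := rfl
    have u1 : u 1 = bar (fun i => a (τ i)) 2 x := rfl
    have u2 : u 2 = bar (fun i => a (τ i)) 3 x := rfl
    rw [← u0, ← u1, ← u2] at cx
    have hq : Qv (fun i => a (τ i)) 0 x = S (τ 0) := hxs
    rw [hq] at cx
    obtain ⟨cf, -, ⟨cc0, cc1, cc2⟩⟩ := cx
    have hcc : ∀ k, S (τ 0) - (fun k : Fin 3 => S (τ k.succ)) k ≤ u k + (u 0 + u 1 + u 2) - 1 := by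
      intro k
      fin_cases k
      · exact cc0
      · exact cc1
      · exact cc2
    obtain ⟨ζp, z1, z2, z3⟩ := apex_X hN hd hc hcol (u := u) (S := fun k => S (τ k.succ))
      (s := S (τ 0)) (X := X) cf hcc (v.nn _) (fun k => v.nn _) hX Q.X3 Q.r0 Q.rX Q.V0 Q.VX
      Q.x00 Q.x0r Q.x1r
    have hg := hgl _ z3
    intro g hg0 hg1
    refine key ζp z1 z2 (1 - phiN (A / 2 + 1 / 8) ρ (TN N) (QN N)) (by linarith) le_rfl g hg0 ?_
      cst (fun lam q1 q2 => hW ζp z1 z2 lam q1 q2)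
    rcases hg1 with hg1 | hg1
    · rw [hg1]
      refine mul_nonneg hA'.le (mul_nonneg (by linarith) ?_)
      exact (hxT.trans z3)
    · exact hg1.trans hg
  · -- no violation at this vertex
    have hR0 : ∀ j, 0 ≤ R j := fun j => by
      rw [hRd]
      exact RM_nonneg h' v' hz' j
    have C := cols P h' v' hz' hX
    rw [← hNd, ← hRd] at C
    have hR00 : ∀ k, R k = 0 := fun k => by
      have := (C k).2.2.1
      rw [hxs, mul_zero] at this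
      exact le_antisymm this (hR0 k)
    intro g hg0 hg1
    have hz1 : ∀ k, 0 < |zc (fun i => a (τ i)) N x k| + 1 := fun k => by
      have := abs_nonneg (zc (fun i => a (τ i)) N x k)
      linarith
    have hz2 : ∀ k, zc (fun i => a (τ i)) N x k ≤ |zc (fun i => a (τ i)) N x k| + 1 := fun k => by
      have := le_abs_self (zc (fun i => a (τ i)) N x k)
      linarith
    have key' := key (fun k => |zc (fun i => a (τ i)) N x k| + 1) hz1 hz2 0 le_rfl (by linarith)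
      0 le_rfl (by simp) cst (fun lam q1 q2 => hW _ hz1 hz2 lam q1 (q2.trans (by linarith)))
    rw [hR00 i, hR00 j, hxs] at key' ⊢
    linarith

open Helper33.MEI.ArT (Cst Ok PR VV GG rho Wc Dom price)

/-- **the face of a placed body, linear prices** -/
theorem face_pr [IsFiniteMeasure σ]
    (P : Rng X rm qm nb ρ1 Rb gg ε k1 k12 t2 δ)
    (h : CN K σ a c) (v : Viol K a S) (hz : CV a K z)
    (τ : Equiv.Perm (Fin 4)) (hX : S (τ 0) + (S (τ 1) + S (τ 2) + S (τ 3)) ≤ X)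
    {A : ℝ} (hA : 7 / 2 ≤ A)
    {l : Fin 3 → Bool → Bool → E3 × E3 → ℝ} (hl : Lok a l)
    {δ3 dE dm : Fin 3 → ℝ} (hδ : ∀ p, MA σ a l τ p p ≤ δ3 p) (hdE : ∀ p, 0 ≤ dE p)
    (hdm : ∀ p, 0 ≤ dm p) (hdd : ∀ p, δ3 p ^ 2 ≤ dE p * dm p)
    {C : Cst} (ok : Ok C) (cA : C.A = A / 2 + 1 / 8) (cB : C.B = 0.2132)
    (cp : C.wp = 0.1673) (cq : C.wq = 0.0933) (ce : C.e = 1 - ε) (ck1 : C.k1 = k1)
    (ck2 : C.k2 = k12 - k1) (cσ : X ≤ C.σ)
    {ρ : ℝ} (hρd : ρ = rho C (S (τ 0)) (S (τ 1) + S (τ 2) + S (τ 3)))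
    (hρ : 0 < ρ) (hMρ : ∀ p k, k ≠ p → MA σ a l τ p k ≤ ρ)
    {Tm r V : ℝ} (Q : Apg X qm Tm r V C.x0 C.x1 C.f0 C.f1 C.f2)
    (hfA : ∀ T, 0 ≤ T → T ≤ Tm → ρ * (C.f0 + C.f1 * T + C.f2 * T ^ 2) ≤ A / 2 + 1 / 8)
    {x : E3} (hx : x ∈ K) (hxs : Qv a (τ 0) x = S (τ 0) ∨ S (τ 0) = 0)
    {N : Fin 3 → Fin 3 → ℝ} (hNd : N = NM (fun i => a (τ i)) (fun i j => z (τ i) (τ j)))
    {R : Fin 3 → ℝ} (hRd : R = RM (fun i => a (τ i)) (fun i j => z (τ i) (τ j)))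
    (hκρ : ∀ p, (A / 2 + 1 / 8) * (C.K * rowN N p) ≤ ρ)
    (hκ : ∀ p, C.K * rowN N p ≤ Pool.Agent.Helper55.Mass.Id (fun t => kap N (vv t) p))
    {cst : ℝ}
    (hW : ∀ ζp : Fin 3 → ℝ, (∀ k, 0 < ζp k) → (∀ k, zc (fun i => a (τ i)) N x k ≤ ζp k) →
      ∀ lam, 0 ≤ lam → lam ≤ 1 - phiN (A / 2 + 1 / 8) ρ (TN N) (QN N) →
      WCost a K τ (A / 2 + 1 / 8)
        (GM (A / 2 + 1 / 8) N (zc (fun i => a (τ i)) N x) ζp lam
          (fun p t => phiN (A / 2 + 1 / 8) ρ (TN N) (QN N) * flP (PN N) p t)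
          (fun p t => kap N (vv t) p) (fun p => (A / 2 + 1 / 8) * (C.K * rowN N p) / ρ)
          (MB σ a l τ)
          (fun p => aE σ a l (τ 0) (τ p.succ) - dE p) R (fun k => S (τ k.succ)) (S (τ 0)))
        (DM (A / 2 + 1 / 8) N (zc (fun i => a (τ i)) N x) ζp lam
          (fun p t => phiN (A / 2 + 1 / 8) ρ (TN N) (QN N) * flP (PN N) p t)
          (fun p t => kap N (vv t) p) (fun p => (A / 2 + 1 / 8) * (C.K * rowN N p) / ρ)
          (MB σ a l τ)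
          (fun j => 1 / qM (fun i => a (τ i)) (fun i j => z (τ i) (τ j)) j)
          (fun p => am σ a l (τ 0) (τ p.succ) - dm p))
        (cst + Wc C (S (τ 0)) (nc N 0) (nc N 1) (nc N 2) (S (τ 1)) (S (τ 2)) (S (τ 3)))) :
    LLs σ a l (τ 0) - (dE 0 + dE 1 + dE 2) + PR C (S (τ 0)) (S (τ 1)) (S (τ 2)) (S (τ 3)) - cst
      ≤ Wi a (τ 0) K σ A := by
  have h' := h.perm τ
  have v' := viol_perm v τ
  have hz' := hz.perm τ
  have hN : ∀ k m, 0 ≤ N k m := fun k m => by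
    rw [hNd]
    exact NM_nonneg h' v' hz' k m
  have hd : ∀ k, N k k = 0 := fun k => by
    rw [hNd]
    exact NM_diag k
  have hcol : ∀ m, nc N m ≤ 9 / 10 := fun m => by
    rw [hNd]
    exact nc_le h' v' hz' m
  have hR0 : ∀ j, 0 ≤ R j := fun j => by
    rw [hRd]
    exact RM_nonneg h' v' hz' j
  have Cc := cols P h' v' hz' hX
  rw [← hNd, ← hRd] at Cc
  have s0 : 0 ≤ S (τ 0) := v.nn _
  have s1 : 0 ≤ S (τ 1) := v.nn _
  have s2 : 0 ≤ S (τ 2) := v.nn _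
  have s3 : 0 ≤ S (τ 3) := v.nn _
  have hrow0 : ∀ p, 0 ≤ rowN N p := fun p => add_nonneg (hN _ _) (hN _ _)
  have hκ0 : ∀ p, 0 ≤ C.K * rowN N p := fun p => mul_nonneg ok.K0 (hrow0 p)
  obtain ⟨i, j, hij, key⟩ := face_fg P h v hz τ hX hA hl hδ hdE hdm hdd hρ hMρ Q hfA hx hxs hNd
    hRd (κ := fun p => C.K * rowN N p) hκ0 hκρ hκ hW
  have n00 : N 0 0 = 0 := hd 0
  have n11 : N 1 1 = 0 := hd 1
  have n22 : N 2 2 = 0 := hd 2
  have e0 : nc N 0 = N 1 0 + N 2 0 := by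
    unfold nc
    linarith
  have e1 : nc N 1 = N 0 1 + N 2 1 := by
    unfold nc
    linarith
  have e2 : nc N 2 = N 0 2 + N 1 2 := by
    unfold nc
    linarith
  have eT : TN N = N 1 0 + N 2 0 + (N 0 1 + N 2 1) + (N 0 2 + N 1 2) := by
    unfold TN
    rw [e0, e1, e2]
  have emm : ∀ t : ℝ, Helper33.MEI.ArT.mm t = t ^ 2 * (1 - t / 2) / 2 := fun t => by
    unfold Helper33.MEI.ArT.mm
    ring
  have ems : ∀ t : ℝ, Helper33.MEI.ArT.ms t = t ^ 2 * (1 - t) / 2 := fun t => by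
    unfold Helper33.MEI.ArT.ms
    ring
  have m0 := (Cc 0).2.2.2.2.2.1
  have m1 := (Cc 1).2.2.2.2.2.1
  have m2 := (Cc 2).2.2.2.2.2.1
  have p0 := (Cc 0).2.2.2.2.2.2.2.2.1
  have p1 := (Cc 1).2.2.2.2.2.2.2.2.1
  have p2 := (Cc 2).2.2.2.2.2.2.2.2.1
  have q0 : nc N 0 ^ 2 * (1 - nc N 0) / 2 ≤ S (τ 1) := (Cc 0).2.2.2.2.2.2.2.2.2
  have q1 : nc N 1 ^ 2 * (1 - nc N 1) / 2 ≤ S (τ 2) := (Cc 1).2.2.2.2.2.2.2.2.2
  have q2 : nc N 2 ^ 2 * (1 - nc N 2) / 2 ≤ S (τ 3) := (Cc 2).2.2.2.2.2.2.2.2.2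
  have u0 := hcol 0
  have u1 := hcol 1
  have u2 := hcol 2
  rw [← emm] at m0 m1 m2
  rw [← ems] at p0 p1 p2 q0 q1 q2
  rw [e0] at m0 p0 q0 u0
  rw [e1] at m1 p1 q1 u1
  rw [e2] at m2 p2 q2 u2
  have hsum : S (τ 0) + (S (τ 1) + S (τ 2) + S (τ 3)) ≤ C.σ := hX.trans cσ
  have D : Dom C.σ (S (τ 0)) (N 1 0 + N 2 0) (N 0 1 + N 2 1) (N 0 2 + N 1 2) :=
    ⟨s0, add_nonneg (hN 1 0) (hN 2 0), add_nonneg (hN 0 1) (hN 2 1),
      add_nonneg (hN 0 2) (hN 1 2), u0, u1, u2, p0, p1, p2, by linarith⟩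
  obtain ⟨hG, -⟩ := ok.dom _ _ _ _ D (S (τ 1) + S (τ 2) + S (τ 3)) (by linarith) hsum
  rw [← hρd, ← eT] at hG
  have eG : GG C ρ (TN N) = (C.x0 - C.x1 * TN N) *
      (A / 2 + 1 / 8 - ρ * (C.f0 + C.f1 * TN N + C.f2 * TN N ^ 2)) := by
    unfold GG
    rw [cA]
  have kk := key (GG C ρ (TN N)) hG (Or.inr (le_of_eq eG))
  have hmain : PR C (S (τ 0)) (S (τ 1)) (S (τ 2)) (S (τ 3)) ≤
      corP (A / 2 + 1 / 8) N R (fun k => S (τ k.succ))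
        + GG C ρ (TN N) * ((1 - ε) * S (τ 0) - k1 * R i - (k12 - k1) * R j)
        - arcP (A / 2 + 1 / 8) ρ (fun p => C.K * rowN N p) R (fun k => S (τ k.succ))
        - Wc C (S (τ 0)) (nc N 0) (nc N 1) (nc N 2) (S (τ 1)) (S (τ 2)) (S (τ 3)) := by
    refine price (C := C) (s := S (τ 0)) (z := k1 * R i + (k12 - k1) * R j)
      (R1 := R 0) (R2 := R 1) (R3 := R 2) (S1 := S (τ 1)) (S2 := S (τ 2)) (S3 := S (τ 3))
      ok (hN 1 0) (hN 2 0) (hN 0 1) (hN 2 1) (hN 0 2) (hN 1 2) D m0 m1 m2 q0 q1 q2 hsum ?_ ?_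
    · rw [ck1, ck2]
      fin_cases i <;> fin_cases j
      · exact absurd rfl hij
      · exact Or.inl le_rfl
      · exact Or.inr (Or.inl le_rfl)
      · exact Or.inr (Or.inr (Or.inl le_rfl))
      · exact absurd rfl hij
      · exact Or.inr (Or.inr (Or.inr (Or.inl le_rfl)))
      · exact Or.inr (Or.inr (Or.inr (Or.inr (Or.inl le_rfl))))
      · exact Or.inr (Or.inr (Or.inr (Or.inr (Or.inr le_rfl))))
      · exact absurd rfl hij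
    · rw [← hρd]
      have w0 : wN N 0 = 0.1673 * (N 1 0 + N 2 0) + 0.0933 * (N 1 2 + N 2 1) := rfl
      have w1 : wN N 1 = 0.1673 * (N 2 1 + N 0 1) + 0.0933 * (N 2 0 + N 0 2) := rfl
      have w2 : wN N 2 = 0.1673 * (N 0 2 + N 1 2) + 0.0933 * (N 0 1 + N 1 0) := rfl
      have c0 : rowN N 0 = N 0 1 + N 0 2 := rfl
      have c1 : rowN N 1 = N 1 2 + N 1 0 := rfl
      have c2 : rowN N 2 = N 2 0 + N 2 1 := rfl
      have f1 : τ (Fin.succ 0) = τ 1 := rfl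
      have f2 : τ (Fin.succ 1) = τ 2 := rfl
      have f3 : τ (Fin.succ 2) = τ 3 := rfl
      have hA0 : 0 ≤ C.A := ok.A0
      have hq : ∀ q m : ℝ, ∀ n : Fin 3, ∀ T : ℝ, 0 ≤ q →
          pp (ρ * R n - C.A * (C.K * q) * (R n + T)) ≤
            Helper33.MEI.ArT.pp (ρ * R n - C.A * C.K * q * T) := by
        intro q m n T hq
        refine max_le_max_right 0 ?_
        have := mul_nonneg (mul_nonneg (mul_nonneg hA0 ok.K0) hq) (hR0 n)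
        linarith
      have b01 := hq (rowN N 0) 0 1 (S (τ 2)) (hrow0 0)
      have b02 := hq (rowN N 0) 0 2 (S (τ 3)) (hrow0 0)
      have b10 := hq (rowN N 1) 0 0 (S (τ 1)) (hrow0 1)
      have b12 := hq (rowN N 1) 0 2 (S (τ 3)) (hrow0 1)
      have b20 := hq (rowN N 2) 0 0 (S (τ 1)) (hrow0 2)
      have b21 := hq (rowN N 2) 0 1 (S (τ 2)) (hrow0 2)
      unfold VV corP arcP
      beta_reduce
      rw [← cA, f1, f2, f3, w0, w1, w2, eT, e0, e1, e2]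
      rw [c0] at b01 b02 ⊢
      rw [c1] at b10 b12 ⊢
      rw [c2] at b20 b21 ⊢
      rw [cB, cp, cq, ce]
      linarith
  linarith

end Pool.Agent.Helper33.FaceG
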