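import Pool.Agent.Helper73.MEI.MA3
import Pool.Agent.Helper33.MEI.FaceG

/-!
# The core statement on a range from linear prices

`coreP_lin`: linear prices (`Ok C`) and the cost of the second order term (`WOKG`) give `CoreP`.
-/

set_option autoImplicit false

namespace Pool.Agent.Helper33.CoreL

open Set Metric MeasureTheory Filter Topology Helper80.CW Helper82.CW Helper14.CW Helper93.MEI
open Helper82.M2 Helper14.MEI2 Pool.Agent.Helper52.MEI Pool.Agent.Helper73.MEI Helper37.MEI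
open Helper41.MEI
open Pool.Agent.Helper73.MEI.ArCor
open Helper33.MEI (Wi)
open Pool.Agent.Helper55.Mass (LN vv B0 B0_ge)
open Pool.Agent.Helper55.Apex (nc)
open Pool.Agent.Helper55.ApexP (PN alP mu_bal)
open Pool.Agent.Helper73.MEI.SideP
open Pool.Agent.Helper96.Kap (kap)
open Pool.Agent.Helper31.SR
open Helper78.MEI
open Helper33.MEI.ArT (Cst Ok PR rho Wc)
open Pool.Agent.Helper33.FaceG
open scoped RealInnerProductSpace ENNReal

/-- **core statement on a range, linear prices**, no strips, general form of the cost -/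
theorem coreP_lin {c0 c1 c3 : ℝ} (hA : Asm c0 c1 c3) {P : (Fin 4 → ℝ) → Prop}
    {X X' κ ρ w0 w1 w2 T0 Tm r V rm qm nb ρ1 Rb gg ε k1 k12 t2 δ : ℝ} {C : Cst}
    (hκ : 0 ≤ κ) (h3 : 0 ≤ c3) (hρ : 0 < ρ)
    (hP : ∀ (K : Set E3) (σ : Measure (E3 × E3)), IsFiniteMeasure σ →
      ∀ a c : Fin 4 → E3, CN K σ a c → EpsLe c X → ∀ S : Fin 4 → ℝ, Viol K a S → P S →
      T0 ≤ ∑ i, S i ∧ ∑ i, S i ≤ X' ∧ ∀ i, S i ≤ 0.026)
    (hM : ∀ (K : Set E3) (σ : Measure (E3 × E3)), IsFiniteMeasure σ →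
      ∀ a c : Fin 4 → E3, CN K σ a c → EpsLe c X → ∀ S : Fin 4 → ℝ, Viol K a S → P S →
      ∀ (τ : Equiv.Perm (Fin 4)) (p k : Fin 3), k ≠ p → MA σ a (l2 a) τ p k ≤ ρ)
    (hW : WOKG ρ w0 w1 w2 C.v1 C.v2 C.v3 X P)
    (R1 : Rng X' rm qm nb ρ1 Rb gg ε k1 k12 t2 δ)
    (ok : Ok C) (cA : C.A = 2.04) (cB : C.B = 0.2132) (cp : C.wp = 0.1673)
    (cq : C.wq = 0.0933) (ce : C.e = 1 - ε) (ck1 : C.k1 = k1) (ck2 : C.k2 = k12 - k1)
    (cσ : X' ≤ C.σ) (cK : C.K = 0) (cr0 : C.r0 = ρ) (cr1 : C.r1 = 0) (cr2 : C.r2 = 0)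
    (ca : C.a = 0) (cb : C.b = 0)
    (Q : Apg X' qm Tm r V C.x0 C.x1 C.f0 C.f1 C.f2)
    (hfA : ∀ T, 0 ≤ T → T ≤ Tm → ρ * (C.f0 + C.f1 * T + C.f2 * T ^ 2) ≤ 2.04)
    (k0 : (c0 + 4 * w0) + c1 * T0 + c3 * T0 ^ 3 + 4.08 * κ * T0 ≤
      (C.c - 3 * C.p - w1 - 3 * w2) * T0)
    (kX : (c0 + 4 * w0) + c1 * X' + c3 * X' ^ 3 + 4.08 * κ * X' ≤
      (C.c - 3 * C.p - w1 - 3 * w2) * X') (hT0 : 0 ≤ T0) :
    CoreP P X κ := by
  refine coreP_K hA hκ fun K σ hσ a c hC hX S hV hPS => ?_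
  obtain ⟨t0, t1, t26⟩ := hP K σ hσ a c hC hX S hV hPS
  obtain ⟨z, hz⟩ := cv_exists hC
  refine ⟨fun i => -w0 + ((C.c - w1) * S i - (C.p + w2) * ((∑ k, S k) - S i)), ?_, ?_⟩
  · intro i
    obtain ⟨τ, rfl⟩ := RegII.exists_perm i
    have h' := hC.perm τ
    have v' := viol_perm hV τ
    have hz' := hz.perm τ
    have hsum : ∑ k, S k = S (τ 0) + S (τ 1) + S (τ 2) + S (τ 3) := by
      rw [← Equiv.sum_comp τ S, Fin.sum_univ_four]
    have hXs : S (τ 0) + (S (τ 1) + S (τ 2) + S (τ 3)) ≤ X' := by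
      rw [hsum] at t1
      linarith
    obtain ⟨x, hx, hxs⟩ : ∃ x ∈ K, Qv a (τ 0) x = S (τ 0) ∨ S (τ 0) = 0 := by
      rcases hV.att (τ 0) with h | ⟨x, hx, h⟩
      · obtain ⟨x, hx⟩ := hC.ne
        exact ⟨x, hx, Or.inr h⟩
      · exact ⟨x, hx, Or.inl h⟩
    have e204 : (3.83 : ℝ) / 2 + 1 / 8 = 2.04 := by norm_num
    obtain ⟨N, hN⟩ : ∃ N, N = NM (fun i => a (τ i)) (fun i j => z (τ i) (τ j)) := ⟨_, rfl⟩
    obtain ⟨R, hR⟩ : ∃ R, R = RM (fun i => a (τ i)) (fun i j => z (τ i) (τ j)) := ⟨_, rfl⟩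
    have hN0 : ∀ k m, 0 ≤ N k m := fun k m => by
      rw [hN]
      exact NM_nonneg h' v' hz' k m
    have hk0 : ∀ p : Fin 3, (0 : ℝ) ≤ Pool.Agent.Helper55.Mass.Id
        (fun t => kap N (vv t) p) := fun p => by
      unfold Pool.Agent.Helper55.Mass.Id
      refine mul_nonneg (by positivity) (setIntegral_nonneg
        Pool.Agent.Helper55.Sx.Sim_meas fun t ht => ?_)
      have hcol : ∀ m, nc N m ≤ 9 / 10 := fun m => by
        rw [hN]
        exact nc_le h' v' hz' m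
      exact div_nonneg (Pool.Agent.Helper96.Kap.kap_nonneg hN0 (by norm_num : (9 / 10 : ℝ) < 1)
        hcol (fun k => Pool.Agent.Helper55.Mass.vv_nonneg ht k) p) (by positivity)
    have hρd : ρ = rho C (S (τ 0)) (S (τ 1) + S (τ 2) + S (τ 3)) := by
      unfold rho
      rw [cr0, cr1, cr2]
      ring
    have key := face_pr R1 hC hV hz τ hXs (A := 3.83) (by norm_num)
      (l := l2 a) (l2_ok hC.ha) (δ3 := fun _ => 0) (dE := fun _ => 0) (dm := fun _ => 0)
      (fun p => (MA_third hC.ha hC.cpt hC.pm.mem hC.hp τ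
        (fun y hy => (hV.le _ y hy).trans (t26 _)) p).le) (fun _ => le_rfl) (fun _ => le_rfl)
      (fun _ => by norm_num) ok (by rw [cA, e204]) cB cp cq ce ck1 ck2 cσ hρd hρ
      (hM K σ hσ a c hC hX S hV hPS τ) Q (by rw [e204]; exact hfA) hx hxs hN hR
      (fun _ => by rw [cK]; simpa using hρ.le) (fun p => by rw [cK, zero_mul]; exact hk0 p)
      (cst := w0 + w1 * S (τ 0) + w2 * (S (τ 1) + S (τ 2) + S (τ 3)))
      (fun ζp z1 z2 lam q1 q2 => by
        have hw := hW K σ hσ a c hC hX S hV hPS z hz τ x hx hxs N hN R hR ζp z1 z2 lam q1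
          (by rw [← e204]; exact q2)
        have e : w0 + w1 * S (τ 0) + w2 * (S (τ 1) + S (τ 2) + S (τ 3))
            + Wc C (S (τ 0)) (nc N 0) (nc N 1) (nc N 2) (S (τ 1)) (S (τ 2)) (S (τ 3)) =
          w0 + w1 * S (τ 0) + w2 * (S (τ 1) + S (τ 2) + S (τ 3))
            + lkC N C.v1 C.v2 C.v3 (fun k => S (τ k.succ)) (S (τ 0)) := rfl
        rw [e204, cK, e]
        simp only [zero_mul, mul_zero, zero_div, sub_zero]
        exact hw)
    unfold PR at key
    rw [ca, cb] at key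
    have hs3 : (∑ k, S k) - S (τ 0) = S (τ 1) + S (τ 2) + S (τ 3) := by
      rw [hsum]
      ring
    beta_reduce
    rw [hs3]
    linarith
  · have ew : ∑ i : Fin 4, (-w0 + ((C.c - w1) * S i - (C.p + w2) * ((∑ k, S k) - S i))) =
        -(4 * w0) + (C.c - 3 * C.p - w1 - 3 * w2) * ∑ i, S i := by
      simp only [Fin.sum_univ_four]
      ring
    have s0 := hV.nn 0
    have s1 := hV.nn 1
    have s2 := hV.nn 2
    have s3 := hV.nn 3
    have h4 : ∑ i, (c1 * S i + c3 * S i ^ 3) ≤ c1 * (∑ i, S i) + c3 * (∑ i, S i) ^ 3 := by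
      rw [Finset.sum_add_distrib, ← Finset.mul_sum, ← Finset.mul_sum]
      have h5 : ∑ i, S i ^ 3 ≤ (∑ i, S i) ^ 3 := by
        rw [Fin.sum_univ_four, Fin.sum_univ_four]
        have hT : 0 ≤ S 0 + S 1 + S 2 + S 3 := by linarith
        have b : ∀ u : ℝ, 0 ≤ u → u ≤ S 0 + S 1 + S 2 + S 3 →
            u ^ 3 ≤ (S 0 + S 1 + S 2 + S 3) ^ 2 * u := by
          intro u hu hu2
          have := pow_le_pow_left₀ hu hu2 2
          have := mul_le_mul_of_nonneg_right this hu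
          calc u ^ 3 = u ^ 2 * u := by ring
            _ ≤ _ := this
        have b0 := b _ s0 (by linarith)
        have b1 := b _ s1 (by linarith)
        have b2 := b _ s2 (by linarith)
        have b3 := b _ s3 (by linarith)
        nlinarith
      have := mul_le_mul_of_nonneg_left h5 h3
      linarith
    -- convexity between the two ends
    have h6 : (c0 + 4 * w0) + c1 * (∑ i, S i) + c3 * (∑ i, S i) ^ 3 + 4.08 * κ * (∑ i, S i) ≤
        (C.c - 3 * C.p - w1 - 3 * w2) * ∑ i, S i := by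
      set T := ∑ i, S i with hTd
      rcases eq_or_lt_of_le (t0.trans t1) with he | hlt
      · have eT : T = T0 := le_antisymm (t1.trans he.ge) t0
        rw [eT]
        exact k0
      · have hx : 0 ≤ X' := hT0.trans hlt.le
        have hT00 : 0 ≤ T := hT0.trans t0
        have hc3 : (X' - T0) * T ^ 3 ≤ (X' - T) * T0 ^ 3 + (T - T0) * X' ^ 3 := by
          have e : (X' - T) * T0 ^ 3 + (T - T0) * X' ^ 3 - (X' - T0) * T ^ 3 =
              (X' - T) * (T - T0) * (X' - T0) * (X' + T + T0) := by ring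
          have : 0 ≤ (X' - T) * (T - T0) * (X' - T0) * (X' + T + T0) :=
            mul_nonneg (mul_nonneg (mul_nonneg (by linarith) (by linarith)) (by linarith))
              (by linarith)
          linarith
        have hc3' := mul_le_mul_of_nonneg_left hc3 h3
        have q0 := mul_le_mul_of_nonneg_left k0 (show 0 ≤ X' - T by linarith)
        have q1 := mul_le_mul_of_nonneg_left kX (show 0 ≤ T - T0 by linarith)
        have hfin : (X' - T0) * ((c0 + 4 * w0) + c1 * T + c3 * T ^ 3 + 4.08 * κ * T) ≤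
            (X' - T0) * ((C.c - 3 * C.p - w1 - 3 * w2) * T) := by
          nlinarith
        exact le_of_mul_le_mul_left hfin (by linarith)
    rw [ew]
    linarith

end Pool.Agent.Helper33.CoreL
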