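import Pool.Agent.Helper33.MEI.Red
import Pool.Agent.Helper14.MEI3.RAD

/-!
# Project MEI (M2): the face cells, final form of the reduction

`Wi a i K σ A` is the contribution of the face cell opposite to the vertex `i` in the master
inequality (`A = 3.57 + κ`).  It is bounded below by the integral over the flat simplex of any
continuous function `Lam` of the direction which is a pointwise lower bound of the density.
-/

namespace Helper33.MEI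

open Set Metric MeasureTheory Real Helper80.CW Helper82.CW Helper14.CW Helper93.MEI Helper22.Sig
open Helper22.Wedge Helper14.MEI2
open scoped RealInnerProductSpace ENNReal

variable {a : Fin 4 → E3}

/-- the contribution of a face cell -/
noncomputable def Wi (a : Fin 4 → E3) (i : Fin 4) (K : Set E3) (σ : Measure (E3 × E3)) (A : ℝ) : ℝ :=
  A * (volume.real (K ∩ Wc a i) - (Om / 3 - √2 / 12)) +
    ∫ z in {z : E3 × E3 | z.1 ∈ Wc a i}, (⟪(1 / 4 : ℝ) • (z.1 - a i), z.1 - z.2⟫ - 1 / 4) ∂σ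

theorem Wc_perm (τ : Equiv.Perm (Fin 4)) : Wc (fun i => a (τ i)) 0 = Wc a (τ 0) := by
  ext x
  show (bar (fun i => a (τ i)) 0 x < 0 ∧ ∀ k, k ≠ 0 → 0 < bar (fun i => a (τ i)) k x) ↔
    (bar a (τ 0) x < 0 ∧ ∀ k, k ≠ τ 0 → 0 < bar a k x)
  simp only [bar_perm]
  refine and_congr_right fun _ => ?_
  constructor
  · intro h k hk
    have h1 := h (τ.symm k) (fun h0 => hk (by rw [← h0, τ.apply_symm_apply]))
    rwa [τ.apply_symm_apply] at h1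
  · intro h k hk
    exact h (τ k) (fun h0 => hk (τ.injective h0))

theorem Wi_perm (τ : Equiv.Perm (Fin 4)) (K : Set E3) (σ : Measure (E3 × E3)) (A : ℝ) :
    Wi (fun i => a (τ i)) 0 K σ A = Wi a (τ 0) K σ A := by
  unfold Wi
  rw [Wc_perm]

variable {σ : Measure (E3 × E3)} [IsFiniteMeasure σ] {K : Set E3}

/-- **reduction of a face cell, exact density** -/
theorem face_red (hK : IsCompact K) (ha : ∀ i j, i ≠ j → dist (a i) (a j) = 1)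
    (hσ : ∀ᵐ z ∂σ, z.1 ∈ K ∧ z.2 ∈ K) {n : ℕ∞} (hn : 1 ≤ n)
    (hU : ∀ G : E3 → E3, ContDiff ℝ n G → ∫ z, ⟪G z.1, z.1 - z.2⟫ ∂σ = ∫ x in K, dvg G x)
    (hlay : ∀ x ∈ TC a 0, 1 / 2 ≤ 1 - bar a 0 x → 1 - bar a 0 x ≤ 3 / 4 → x ∈ K)
    {A : ℝ} (hA : 0 ≤ A) {Lam : ℝ × ℝ → ℝ} (hL : Continuous Lam)
    (hW : ∀ᵐ z ∂σ, z.1 ∈ Wc a 0 → Lam (tx a z.1) * ⟪z.1 - a 0, z.1 - z.2⟫ ≤
      A * (‖z.1 - a 0‖ ^ 3 - 1) / 3 * ⟪z.1 - a 0, z.1 - z.2⟫ +
        ‖z.1 - a 0‖ ^ 3 * (⟪z.1 - a 0, z.1 - z.2⟫ - 1) / 4)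
    (hT : ∀ᵐ z ∂σ, z.1 ∈ TC a 0 → 1 / 2 < 1 - bar a 0 z.1 → 0 ≤ bar a 0 z.1 →
      0 ≤ ⟪z.1 - a 0, z.1 - z.2⟫ ∧ Lam (tx a z.1) ≤ A * (‖z.1 - a 0‖ ^ 3 - 1) / 3) :
    (√2)⁻¹ * ∫ t in Dl, Lam t * M3 t ≤ Wi a 0 K σ A := by
  have h1 := face_red_core hK ha hσ hA (chi := Helper14.MEI3.chs)
    (Helper14.MEI3.chs_cd (n := 1)).continuous.measurable Helper14.MEI3.chs_nonneg
    Helper14.MEI3.chs_le (fun l hl => Helper14.MEI3.chs_zero hl)
    (fun l hl => Helper14.MEI3.chs_one (by linarith))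
    (Helper14.MEI3.FF1 ha hK hσ hn hU 0)
    (fun h hh => Helper14.MEI3.RAD ha hK hσ hn hU hh (i := 0) (j := 1) (k := 2) (by decide)
      (by decide) hlay) hL hW hT
  have e : ∫ z in {z : E3 × E3 | z.1 ∈ Wc a 0}, (⟪z.1 - a 0, z.1 - z.2⟫ - 1) / 4 ∂σ =
      ∫ z in {z : E3 × E3 | z.1 ∈ Wc a 0}, (⟪(1 / 4 : ℝ) • (z.1 - a 0), z.1 - z.2⟫ - 1 / 4) ∂σ := by
    refine integral_congr_ae (Filter.Eventually.of_forall fun z => ?_)
    dsimp only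
    rw [real_inner_smul_left]
    ring
  rw [e] at h1
  exact h1

/-- support points are not interior -/
theorem not_open {p u : E3} (hu : ‖u‖ = 1) (hs : ∀ y ∈ K, ⟪y, u⟫ ≤ ⟪p, u⟫) {U : Set E3}
    (hUo : IsOpen U) (hUK : U ⊆ K) : p ∉ U := by
  intro hp
  obtain ⟨ε, hε, hb⟩ := Metric.isOpen_iff.1 hUo p hp
  have h1 : p + (ε / 2) • u ∈ K := hUK (hb (by
    rw [mem_ball, dist_eq_norm, add_sub_cancel_left, norm_smul, hu, mul_one,
      Real.norm_of_nonneg (by linarith)]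
    linarith))
  have h2 := hs _ h1
  rw [inner_add_left, real_inner_smul_left, real_inner_self_eq_norm_sq, hu] at h2
  linarith

/-- **reduction of a face cell, pointwise form with the second order terms**: it suffices that
`Lam ≤ (A/2 + 1/8) Q(p) - 0.127 w / (1 - w/2)`, `w = ‖a 0 - q‖²` -/
theorem face_red_pt (hK : IsCompact K) (ha : ∀ i j, i ≠ j → dist (a i) (a j) = 1)
    (hσ : ∀ᵐ z ∂σ, z.1 ∈ K ∧ z.2 ∈ K) (hσ1 : ∀ᵐ z ∂σ, ‖z.1 - z.2‖ = 1 ∧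
      ∀ y ∈ K, ⟪y, z.1 - z.2⟫ ≤ ⟪z.1, z.1 - z.2⟫) {n : ℕ∞} (hn : 1 ≤ n)
    (hU : ∀ G : E3 → E3, ContDiff ℝ n G → ∫ z, ⟪G z.1, z.1 - z.2⟫ ∂σ = ∫ x in K, dvg G x)
    (hlay : ∀ x ∈ TC a 0, 1 / 2 ≤ 1 - bar a 0 x → 1 - bar a 0 x ≤ 3 / 4 → x ∈ K)
    {A : ℝ} (hA : 7 / 2 ≤ A) {Lam : ℝ × ℝ → ℝ} (hL : Continuous Lam)
    (hQ : ∀ x ∈ K, Qv a 0 x ≤ 3 / 16)
    (hP : ∀ᵐ z ∂σ, z.1 ∈ TC a 0 → 3 / 4 ≤ 1 - bar a 0 z.1 →
      Lam (tx a z.1) ≤ (A / 2 + 1 / 8) * Qv a 0 z.1 -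
        0.127 * ‖a 0 - z.2‖ ^ 2 / (1 - ‖a 0 - z.2‖ ^ 2 / 2)) :
    (√2)⁻¹ * ∫ t in Dl, Lam t * M3 t ≤ Wi a 0 K σ A := by
  have hin : ∀ z : E3 × E3, ‖z.1 - z.2‖ = 1 →
      ⟪z.1 - a 0, z.1 - z.2⟫ = 1 + (Qv a 0 z.1 - ‖a 0 - z.2‖ ^ 2) / 2 := by
    intro z hz
    rw [inner_half, hz, norm_sub_rev z.2 (a 0)]
    unfold Qv
    ring
  have hw1 : ∀ z : E3 × E3, z.2 ∈ K → ‖a 0 - z.2‖ ^ 2 ≤ 19 / 16 := by
    intro z hz
    have h1 := hQ z.2 hz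
    unfold Qv at h1
    rw [norm_sub_rev (a 0) z.2]
    linarith
  refine face_red hK ha hσ hn hU hlay (by linarith) hL ?_ ?_
  · filter_upwards [hσ, hσ1, hP] with z hz hz1 hzP hzW
    have hTC : z.1 ∈ TC a 0 := by
      rw [TC_bar ha]; exact hzW.2
    have hlam : 1 < 1 - bar a 0 z.1 := by
      have := hzW.1
      linarith
    have h1 := hzP hTC (by linarith)
    have hd := dist_mt ha (x := z.1) (by linarith)
    have hm := mt_ge (t := tx a z.1)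
    have hQ1 := hQ z.1 hz.1
    have hQv : Qv a 0 z.1 = ‖z.1 - a 0‖ ^ 2 - 1 := rfl
    have hQl : -(1 / 3) ≤ Qv a 0 z.1 := by
      rw [hQv, hd]
      nlinarith
    have hr : 0 < ‖z.1 - a 0‖ := by
      by_contra hneg
      have h0 : ‖z.1 - a 0‖ = 0 := le_antisymm (not_lt.1 hneg) (norm_nonneg _)
      rw [h0] at hQv
      norm_num at hQv
      linarith
    have h2 := ptw (r := ‖z.1 - a 0‖) hA hQl hQ1 (sq_nonneg ‖a 0 - z.2‖) (hw1 z hz.2) hr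
      (by rw [hQv]; ring)
    have hS := hin z hz1.1
    have hSp : 0 ≤ 1 + (Qv a 0 z.1 - ‖a 0 - z.2‖ ^ 2) / 2 := by
      have := hw1 z hz.2
      linarith
    have h3 := mul_le_mul_of_nonneg_right h1 hSp
    rw [hS]
    refine h3.trans (h2.trans (le_of_eq ?_))
    ring
  · filter_upwards [hσ, hσ1, hP] with z hz hz1 hzP hTC hl hb
    have hl2 : 3 / 4 ≤ 1 - bar a 0 z.1 := by
      by_contra hneg
      push Not at hneg
      have hUo : IsOpen {x : E3 | x ∈ TC a 0 ∧ 1 / 2 < 1 - bar a 0 x ∧ 1 - bar a 0 x < 3 / 4} := by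
        have c1 : Continuous fun x : E3 => 1 - bar a 0 x := continuous_const.sub (bar_cont a 0)
        exact (TC_open ha 0).inter ((isOpen_lt continuous_const c1).inter
          (isOpen_lt c1 continuous_const))
      exact not_open hz1.1 hz1.2 hUo (fun x hx => hlay x hx.1 hx.2.1.le hx.2.2.le)
        ⟨hTC, hl, hneg⟩
    have h1 := hzP hTC hl2
    have hd := dist_mt ha (x := z.1) (by linarith)
    have hm := mt_ge (t := tx a z.1)
    have hm1 := mt_le (tx_mem ha hTC)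
    have hQv : Qv a 0 z.1 = ‖z.1 - a 0‖ ^ 2 - 1 := rfl
    have hw := hw1 z hz.2
    have hQl : -(5 / 8) ≤ Qv a 0 z.1 := by
      rw [hQv, hd]
      nlinarith
    have hQu : Qv a 0 z.1 ≤ 0 := by
      rw [hQv, hd]
      have h4 : (1 - bar a 0 z.1) ^ 2 ≤ 1 := by nlinarith
      nlinarith [mt_pos (t := tx a z.1)]
    refine ⟨?_, ?_⟩
    · rw [hin z hz1.1]
      linarith
    · have h2 := r3_ge' (Q := Qv a 0 z.1) (norm_nonneg (z.1 - a 0)) (by rw [hQv]; ring)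
      have h3 : 0 ≤ 0.127 * ‖a 0 - z.2‖ ^ 2 / (1 - ‖a 0 - z.2‖ ^ 2 / 2) := by
        apply div_nonneg (by positivity)
        linarith
      have h5 : A / 2 * Qv a 0 z.1 ≤ A * (‖z.1 - a 0‖ ^ 3 - 1) / 3 := by
        have := mul_le_mul_of_nonneg_left h2 (by linarith : (0 : ℝ) ≤ A)
        linarith
      linarith

end Helper33.MEI
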