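import Pool.Agent.Helper31.SR.FinT

/-!
# Project MEI: the whole theorem in Mathlib terms

`meissner_of`: from a top range `Top 0.6042 R1` and the near range `Win R1`;
`meissner_of2`, `meissner_of3`: the same with the top range in two or three pieces.
-/

set_option autoImplicit false

namespace Pool.Agent.Helper33.MEI.FullT

open MeasureTheory Pool.Agent.Helper31.SR.FinT Pool.Agent.Helper31.SR.MilG

/-- the statement of the hand-in -/
def Meissner : Prop :=
  ∀ K : Set (EuclideanSpace ℝ (Fin 3)), IsCompact K → Convex ℝ K →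
    (∀ u : EuclideanSpace ℝ (Fin 3), ‖u‖ = 1 →
      sSup ((fun x => inner ℝ x u) '' K) - sInf ((fun x => inner ℝ x u) '' K) = 1) →
    ENNReal.ofReal (Real.pi * (2 / 3 - Real.sqrt 3 / 4 * Real.arccos (1 / 3))) ≤ volume K ∧
      (volume K = ENNReal.ofReal (Real.pi * (2 / 3 - Real.sqrt 3 / 4 * Real.arccos (1 / 3))) ↔
        ∃ a : Fin 4 → EuclideanSpace ℝ (Fin 3), (∀ i j, i ≠ j → dist (a i) (a j) = 1) ∧
          ∃ c : Fin 3 → Bool, K = Helper96.MEI.MB a c)

theorem meissner_of {R1 : ℝ} (hT : Top 0.6042 R1) (hW : Win R1) : Meissner :=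
  concl_of_top hT hW

theorem meissner_of2 {R1 R2 : ℝ} (h1 : Top 0.6042 R1) (h2 : Top R1 R2) (hW : Win R2) :
    Meissner :=
  concl_of_top (h1.trans h2) hW

theorem meissner_of3 {R1 R2 R3 : ℝ} (h1 : Top 0.6042 R1) (h2 : Top R1 R2) (h3 : Top R2 R3)
    (hW : Win R3) : Meissner :=
  concl_of_top ((h1.trans h2).trans h3) hW

theorem meissner_of4 {R1 R2 R3 R4 : ℝ} (h1 : Top 0.6042 R1) (h2 : Top R1 R2) (h3 : Top R2 R3)
    (h4 : Top R3 R4) (hW : Win R4) : Meissner :=
  concl_of_top (((h1.trans h2).trans h3).trans h4) hW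

end Pool.Agent.Helper33.MEI.FullT
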