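import Pool.Agent.Helper33.MEI.ArV

set_option autoImplicit false

namespace Helper33.MEI.ArT.IA

/-- the constants of the instance -/
noncomputable def CA : Cst where
  A := 2.04
  B := 0.2132
  K := 0
  wp := 0.1673
  wq := 0.0933
  r0 := 0.0377
  r1 := 0
  r2 := 0
  x0 := 0.1757
  x1 := 0.23973
  f0 := 12.04
  f1 := 18.1
  f2 := 30.4
  k1 := 1.00338
  k2 := 0.22961
  e := 0.998875
  a := 0
  b := 0
  p := 0.0175
  c := 0.2488
  σ := 0.0135
  v1 := 0
  v2 := 0
  v3 := 0.1

end Helper33.MEI.ArT.IA
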