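import Pool.Agent.Helper33.MEI.IAV00
import Pool.Agent.Helper33.MEI.IAV01
import Pool.Agent.Helper33.MEI.IAV02
import Pool.Agent.Helper33.MEI.IAV03
import Pool.Agent.Helper33.MEI.IAV04
import Pool.Agent.Helper33.MEI.IAV05
import Pool.Agent.Helper33.MEI.IAV06
import Pool.Agent.Helper33.MEI.IAV07
import Pool.Agent.Helper33.MEI.FaceG

set_option autoImplicit false
set_option maxRecDepth 1000000

namespace Helper33.MEI.ArT.IA
open Helper43 Helper43.KBox Helper43.KBox.KT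

theorem tm0_ok : checkK 45 41 [3]
    O
    [[(6529659, [0]), (612407131648, [1]), (1475475288352, [2]), (-1824217152784, [3])]] =
    true := by
  decide +kernel

theorem tm0 {t : ℝ}
    (ht0 : 388 / 3125 ≤ t) (ht1 : t ≤ 9 / 10) :
    0 ≤ ms t - 0.0135 / 2 - 1 / 100000000 := by
  obtain ⟨m, hm, h⟩ := checkK_sound tm0_ok
    [(t - (388 / 3125)) * (6250 / 4849)]
    (by
      intro a ha
      simp only [List.mem_cons, List.not_mem_nil, or_false] at ha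
      subst ha
      all_goals constructor
      all_goals linarith)
  simp only [List.mem_cons, List.not_mem_nil, or_false] at hm
  subst hm
  · apply nonneg_of_mul_nonneg_right (a := (7812500000000 : ℝ)) _ (by norm_num)
    refine le_of_le_of_eq h ?_
    simp only [PBox.evm, PBox.mon, PBox.xs]
    push_cast
    simp only [ms]
    ring

theorem tmle {t s : ℝ} (h1 : t ≤ 9 / 10) (hs : ms t ≤ s) (h : s + ms t ≤ 0.0135) :
    t ≤ 0.12416 := by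
  by_contra hc
  push Not at hc
  have := tm0 (t := t) (by norm_num; linarith) (by norm_num; linarith)
  linarith

theorem mt {s t1 t2 t3 : ℝ} (D : Dom CA.σ s t1 t2 t3) :
    0 ≤ ms t1 ∧ 0 ≤ ms t2 ∧ 0 ≤ ms t3 ∧ t1 ≤ 0.12416 ∧ t2 ≤ 0.12416 ∧ t3 ≤ 0.12416 := by
  have g1 := ms_nonneg D.u1
  have g2 := ms_nonneg D.u2
  have g3 := ms_nonneg D.u3
  have h := D.sum
  simp only [CA] at h
  exact ⟨g1, g2, g3, tmle D.u1 D.q1 (by linarith), tmle D.u2 D.q2 (by linarith),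
    tmle D.u3 D.q3 (by linarith)⟩

theorem Tle {s t1 t2 t3 : ℝ} (D : Dom CA.σ s t1 t2 t3) : t1 + t2 + t3 ≤ 0.2634 := by
  obtain ⟨-, -, -, b1, b2, b3⟩ := mt D
  exact T_le D b1 b2 b3 (by norm_num) (by norm_num) (by norm_num [CA])

theorem gg0_ok : checkK 70 66 [3]
    O
    [[(43543181937500000000, [0]), (-20583320736210000000, [1]), (-409574599624344375, [2]),
    (784521151474439574, [3])]] = true := by
  decide +kernel

theorem gg0 {t : ℝ}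
    (ht0 : 0 ≤ t) (ht1 : t ≤ 1317 / 5000) :
    0 ≤ GG CA CA.r0 t := by
  obtain ⟨m, hm, h⟩ := checkK_sound gg0_ok
    [(t - (0)) * (5000 / 1317)]
    (by
      intro a ha
      simp only [List.mem_cons, List.not_mem_nil, or_false] at ha
      subst ha
      all_goals constructor
      all_goals linarith)
  simp only [List.mem_cons, List.not_mem_nil, or_false] at hm
  subst hm
  · apply nonneg_of_mul_nonneg_right (a := (156250000000000000000 : ℝ)) _ (by norm_num)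
    refine le_of_le_of_eq h ?_
    simp only [PBox.evm, PBox.mon, PBox.xs]
    push_cast
    simp only [GG, CA]
    ring

theorem gg1_ok : checkK 84 80 [3]
    O
    [[(624294605377562500000000, [0]), (137644343014919490000000, [1]),
    (20547948088553732949375, [2]), (-39358641648321158988006, [3])]] = true := by
  decide +kernel

theorem gg1 {t : ℝ}
    (ht0 : 0 ≤ t) (ht1 : t ≤ 1317 / 5000) :
    0 ≤ CA.A * CA.B - (CA.k1 * GG CA CA.r0 t + CA.A * CA.B * t + 2 * CA.r0) := by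
  obtain ⟨m, hm, h⟩ := checkK_sound gg1_ok
    [(t - (0)) * (5000 / 1317)]
    (by
      intro a ha
      simp only [List.mem_cons, List.not_mem_nil, or_false] at ha
      subst ha
      all_goals constructor
      all_goals linarith)
  simp only [List.mem_cons, List.not_mem_nil, or_false] at hm
  subst hm
  · apply nonneg_of_mul_nonneg_right (a := (7812500000000000000000000 : ℝ)) _ (by norm_num)
    refine le_of_le_of_eq h ?_
    simp only [PBox.evm, PBox.mon, PBox.xs]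
    push_cast
    simp only [GG, CA]
    ring

theorem w0_0 {s t1 t2 t3 : ℝ} (D : Dom CA.σ s t1 t2 t3) :
    0 ≤ PF CA s t1 t2 t3 0 t1 0 t2 0 t3
      (ms t1) (ms t2) (ms t3) := by
  obtain ⟨g1, g2, g3, b1, b2, b3⟩ := mt D
  have hsum := D.sum
  have hsg : CA.σ = 0.0135 := rfl
  rw [hsg] at hsum
  obtain ⟨v, x, y, z, v0, v1, x0, x1, y0, y1, z0, z1, e0, e1, e2, e3, -, -, -⟩ :=
    scale (σ := 0.0135) (θ := 0.17558) (tm := 0.12416) (by norm_num) (by norm_num) (by norm_num)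
      (by norm_num) D b1 b2 b3
  have c4 := sub_nonpos.2 hsum
  have q := fun (t q S' : ℝ) (ht : t ≤ 1) => act00 (C := CA) (s := s) (t := t) (q := q)
    (S := (ms t1) + (ms t2) + (ms t3)) (S' := S') rfl
    (by norm_num [CA]) (by norm_num [CA]) (by norm_num [CA]) D.s0 ht (by linarith)
  have u1 : t1 ≤ 1 := by linarith
  have u2 : t2 ≤ 1 := by linarith
  have u3 : t3 ≤ 1 := by linarith
  refine PF_of (q _ _ _ u2) (q _ _ _ u3) (q _ _ _ u1) (q _ _ _ u3) (q _ _ _ u1) (q _ _ _ u2) ?_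
  subst e0 e1 e2 e3
  exact k0_0 v0 v1 x0 x1 y0 y1 z0 z1 c4

theorem w0_1 {s t1 t2 t3 : ℝ} (D : Dom CA.σ s t1 t2 t3) :
    0 ≤ PF CA s t1 t2 t3 0 t1 0 t2 0 t3
      (0.0135 - s - ms t2 - ms t3) (ms t2) (ms t3) := by
  obtain ⟨g1, g2, g3, b1, b2, b3⟩ := mt D
  have hsum := D.sum
  have hsg : CA.σ = 0.0135 := rfl
  rw [hsg] at hsum
  obtain ⟨v, x, y, z, v0, v1, x0, x1, y0, y1, z0, z1, e0, e1, e2, e3, -, -, -⟩ :=
    scale (σ := 0.0135) (θ := 0.17558) (tm := 0.12416) (by norm_num) (by norm_num) (by norm_num)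
      (by norm_num) D b1 b2 b3
  have c4 := sub_nonpos.2 hsum
  have q := fun (t q S' : ℝ) (ht : t ≤ 1) => act00 (C := CA) (s := s) (t := t) (q := q)
    (S := (0.0135 - s - ms t2 - ms t3) + (ms t2) + (ms t3)) (S' := S') rfl
    (by norm_num [CA]) (by norm_num [CA]) (by norm_num [CA]) D.s0 ht (by linarith)
  have u1 : t1 ≤ 1 := by linarith
  have u2 : t2 ≤ 1 := by linarith
  have u3 : t3 ≤ 1 := by linarith
  refine PF_of (q _ _ _ u2) (q _ _ _ u3) (q _ _ _ u1) (q _ _ _ u3) (q _ _ _ u1) (q _ _ _ u2) ?_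
  subst e0 e1 e2 e3
  exact k0_1 v0 v1 x0 x1 y0 y1 z0 z1 c4

theorem w0_2 {s t1 t2 t3 : ℝ} (D : Dom CA.σ s t1 t2 t3) :
    0 ≤ PF CA s t1 t2 t3 0 t1 0 t2 0 t3
      (ms t1) (0.0135 - s - ms t1 - ms t3) (ms t3) := by
  obtain ⟨g1, g2, g3, b1, b2, b3⟩ := mt D
  have hsum := D.sum
  have hsg : CA.σ = 0.0135 := rfl
  rw [hsg] at hsum
  obtain ⟨v, x, y, z, v0, v1, x0, x1, y0, y1, z0, z1, e0, e1, e2, e3, -, -, -⟩ :=
    scale (σ := 0.0135) (θ := 0.17558) (tm := 0.12416) (by norm_num) (by norm_num) (by norm_num)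
      (by norm_num) D b1 b2 b3
  have c4 := sub_nonpos.2 hsum
  have q := fun (t q S' : ℝ) (ht : t ≤ 1) => act00 (C := CA) (s := s) (t := t) (q := q)
    (S := (ms t1) + (0.0135 - s - ms t1 - ms t3) + (ms t3)) (S' := S') rfl
    (by norm_num [CA]) (by norm_num [CA]) (by norm_num [CA]) D.s0 ht (by linarith)
  have u1 : t1 ≤ 1 := by linarith
  have u2 : t2 ≤ 1 := by linarith
  have u3 : t3 ≤ 1 := by linarith
  refine PF_of (q _ _ _ u2) (q _ _ _ u3) (q _ _ _ u1) (q _ _ _ u3) (q _ _ _ u1) (q _ _ _ u2) ?_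
  subst e0 e1 e2 e3
  exact k0_2 v0 v1 x0 x1 y0 y1 z0 z1 c4

theorem w0_3 {s t1 t2 t3 : ℝ} (D : Dom CA.σ s t1 t2 t3) :
    0 ≤ PF CA s t1 t2 t3 0 t1 0 t2 0 t3
      (ms t1) (ms t2) (0.0135 - s - ms t1 - ms t2) := by
  obtain ⟨g1, g2, g3, b1, b2, b3⟩ := mt D
  have hsum := D.sum
  have hsg : CA.σ = 0.0135 := rfl
  rw [hsg] at hsum
  obtain ⟨v, x, y, z, v0, v1, x0, x1, y0, y1, z0, z1, e0, e1, e2, e3, -, -, -⟩ :=
    scale (σ := 0.0135) (θ := 0.17558) (tm := 0.12416) (by norm_num) (by norm_num) (by norm_num)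
      (by norm_num) D b1 b2 b3
  have c4 := sub_nonpos.2 hsum
  have q := fun (t q S' : ℝ) (ht : t ≤ 1) => act00 (C := CA) (s := s) (t := t) (q := q)
    (S := (ms t1) + (ms t2) + (0.0135 - s - ms t1 - ms t2)) (S' := S') rfl
    (by norm_num [CA]) (by norm_num [CA]) (by norm_num [CA]) D.s0 ht (by linarith)
  have u1 : t1 ≤ 1 := by linarith
  have u2 : t2 ≤ 1 := by linarith
  have u3 : t3 ≤ 1 := by linarith
  refine PF_of (q _ _ _ u2) (q _ _ _ u3) (q _ _ _ u1) (q _ _ _ u3) (q _ _ _ u1) (q _ _ _ u2) ?_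
  subst e0 e1 e2 e3
  exact k0_3 v0 v1 x0 x1 y0 y1 z0 z1 c4

theorem w1_0 {s t1 t2 t3 : ℝ} (D : Dom CA.σ s t1 t2 t3) :
    0 ≤ PF CA s t1 t2 t3 t1 0 0 t2 0 t3
      (ms t1) (ms t2) (ms t3) := by
  obtain ⟨g1, g2, g3, b1, b2, b3⟩ := mt D
  have hsum := D.sum
  have hsg : CA.σ = 0.0135 := rfl
  rw [hsg] at hsum
  obtain ⟨v, x, y, z, v0, v1, x0, x1, y0, y1, z0, z1, e0, e1, e2, e3, -, -, -⟩ :=
    scale (σ := 0.0135) (θ := 0.17558) (tm := 0.12416) (by norm_num) (by norm_num) (by norm_num)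
      (by norm_num) D b1 b2 b3
  have c4 := sub_nonpos.2 hsum
  have q := fun (t q S' : ℝ) (ht : t ≤ 1) => act00 (C := CA) (s := s) (t := t) (q := q)
    (S := (ms t1) + (ms t2) + (ms t3)) (S' := S') rfl
    (by norm_num [CA]) (by norm_num [CA]) (by norm_num [CA]) D.s0 ht (by linarith)
  have u1 : t1 ≤ 1 := by linarith
  have u2 : t2 ≤ 1 := by linarith
  have u3 : t3 ≤ 1 := by linarith
  refine PF_of (q _ _ _ u2) (q _ _ _ u3) (q _ _ _ u1) (q _ _ _ u3) (q _ _ _ u1) (q _ _ _ u2) ?_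
  subst e0 e1 e2 e3
  exact k1_0 v0 v1 x0 x1 y0 y1 z0 z1 c4

theorem w1_1 {s t1 t2 t3 : ℝ} (D : Dom CA.σ s t1 t2 t3) :
    0 ≤ PF CA s t1 t2 t3 t1 0 0 t2 0 t3
      (0.0135 - s - ms t2 - ms t3) (ms t2) (ms t3) := by
  obtain ⟨g1, g2, g3, b1, b2, b3⟩ := mt D
  have hsum := D.sum
  have hsg : CA.σ = 0.0135 := rfl
  rw [hsg] at hsum
  obtain ⟨v, x, y, z, v0, v1, x0, x1, y0, y1, z0, z1, e0, e1, e2, e3, -, -, -⟩ :=
    scale (σ := 0.0135) (θ := 0.17558) (tm := 0.12416) (by norm_num) (by norm_num) (by norm_num)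
      (by norm_num) D b1 b2 b3
  have c4 := sub_nonpos.2 hsum
  have q := fun (t q S' : ℝ) (ht : t ≤ 1) => act00 (C := CA) (s := s) (t := t) (q := q)
    (S := (0.0135 - s - ms t2 - ms t3) + (ms t2) + (ms t3)) (S' := S') rfl
    (by norm_num [CA]) (by norm_num [CA]) (by norm_num [CA]) D.s0 ht (by linarith)
  have u1 : t1 ≤ 1 := by linarith
  have u2 : t2 ≤ 1 := by linarith
  have u3 : t3 ≤ 1 := by linarith
  refine PF_of (q _ _ _ u2) (q _ _ _ u3) (q _ _ _ u1) (q _ _ _ u3) (q _ _ _ u1) (q _ _ _ u2) ?_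
  subst e0 e1 e2 e3
  exact k1_1 v0 v1 x0 x1 y0 y1 z0 z1 c4

theorem w1_2 {s t1 t2 t3 : ℝ} (D : Dom CA.σ s t1 t2 t3) :
    0 ≤ PF CA s t1 t2 t3 t1 0 0 t2 0 t3
      (ms t1) (0.0135 - s - ms t1 - ms t3) (ms t3) := by
  obtain ⟨g1, g2, g3, b1, b2, b3⟩ := mt D
  have hsum := D.sum
  have hsg : CA.σ = 0.0135 := rfl
  rw [hsg] at hsum
  obtain ⟨v, x, y, z, v0, v1, x0, x1, y0, y1, z0, z1, e0, e1, e2, e3, -, -, -⟩ :=
    scale (σ := 0.0135) (θ := 0.17558) (tm := 0.12416) (by norm_num) (by norm_num) (by norm_num)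
      (by norm_num) D b1 b2 b3
  have c4 := sub_nonpos.2 hsum
  have q := fun (t q S' : ℝ) (ht : t ≤ 1) => act00 (C := CA) (s := s) (t := t) (q := q)
    (S := (ms t1) + (0.0135 - s - ms t1 - ms t3) + (ms t3)) (S' := S') rfl
    (by norm_num [CA]) (by norm_num [CA]) (by norm_num [CA]) D.s0 ht (by linarith)
  have u1 : t1 ≤ 1 := by linarith
  have u2 : t2 ≤ 1 := by linarith
  have u3 : t3 ≤ 1 := by linarith
  refine PF_of (q _ _ _ u2) (q _ _ _ u3) (q _ _ _ u1) (q _ _ _ u3) (q _ _ _ u1) (q _ _ _ u2) ?_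
  subst e0 e1 e2 e3
  exact k1_2 v0 v1 x0 x1 y0 y1 z0 z1 c4

theorem w1_3 {s t1 t2 t3 : ℝ} (D : Dom CA.σ s t1 t2 t3) :
    0 ≤ PF CA s t1 t2 t3 t1 0 0 t2 0 t3
      (ms t1) (ms t2) (0.0135 - s - ms t1 - ms t2) := by
  obtain ⟨g1, g2, g3, b1, b2, b3⟩ := mt D
  have hsum := D.sum
  have hsg : CA.σ = 0.0135 := rfl
  rw [hsg] at hsum
  obtain ⟨v, x, y, z, v0, v1, x0, x1, y0, y1, z0, z1, e0, e1, e2, e3, -, -, -⟩ :=
    scale (σ := 0.0135) (θ := 0.17558) (tm := 0.12416) (by norm_num) (by norm_num) (by norm_num)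
      (by norm_num) D b1 b2 b3
  have c4 := sub_nonpos.2 hsum
  have q := fun (t q S' : ℝ) (ht : t ≤ 1) => act00 (C := CA) (s := s) (t := t) (q := q)
    (S := (ms t1) + (ms t2) + (0.0135 - s - ms t1 - ms t2)) (S' := S') rfl
    (by norm_num [CA]) (by norm_num [CA]) (by norm_num [CA]) D.s0 ht (by linarith)
  have u1 : t1 ≤ 1 := by linarith
  have u2 : t2 ≤ 1 := by linarith
  have u3 : t3 ≤ 1 := by linarith
  refine PF_of (q _ _ _ u2) (q _ _ _ u3) (q _ _ _ u1) (q _ _ _ u3) (q _ _ _ u1) (q _ _ _ u2) ?_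
  subst e0 e1 e2 e3
  exact k1_3 v0 v1 x0 x1 y0 y1 z0 z1 c4

theorem w2_0 {s t1 t2 t3 : ℝ} (D : Dom CA.σ s t1 t2 t3) :
    0 ≤ PF CA s t1 t2 t3 0 t1 t2 0 0 t3
      (ms t1) (ms t2) (ms t3) := by
  obtain ⟨g1, g2, g3, b1, b2, b3⟩ := mt D
  have hsum := D.sum
  have hsg : CA.σ = 0.0135 := rfl
  rw [hsg] at hsum
  obtain ⟨v, x, y, z, v0, v1, x0, x1, y0, y1, z0, z1, e0, e1, e2, e3, -, -, -⟩ :=
    scale (σ := 0.0135) (θ := 0.17558) (tm := 0.12416) (by norm_num) (by norm_num) (by norm_num)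
      (by norm_num) D b1 b2 b3
  have c4 := sub_nonpos.2 hsum
  have q := fun (t q S' : ℝ) (ht : t ≤ 1) => act00 (C := CA) (s := s) (t := t) (q := q)
    (S := (ms t1) + (ms t2) + (ms t3)) (S' := S') rfl
    (by norm_num [CA]) (by norm_num [CA]) (by norm_num [CA]) D.s0 ht (by linarith)
  have u1 : t1 ≤ 1 := by linarith
  have u2 : t2 ≤ 1 := by linarith
  have u3 : t3 ≤ 1 := by linarith
  refine PF_of (q _ _ _ u2) (q _ _ _ u3) (q _ _ _ u1) (q _ _ _ u3) (q _ _ _ u1) (q _ _ _ u2) ?_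
  subst e0 e1 e2 e3
  exact k2_0 v0 v1 x0 x1 y0 y1 z0 z1 c4

theorem w2_1 {s t1 t2 t3 : ℝ} (D : Dom CA.σ s t1 t2 t3) :
    0 ≤ PF CA s t1 t2 t3 0 t1 t2 0 0 t3
      (0.0135 - s - ms t2 - ms t3) (ms t2) (ms t3) := by
  obtain ⟨g1, g2, g3, b1, b2, b3⟩ := mt D
  have hsum := D.sum
  have hsg : CA.σ = 0.0135 := rfl
  rw [hsg] at hsum
  obtain ⟨v, x, y, z, v0, v1, x0, x1, y0, y1, z0, z1, e0, e1, e2, e3, -, -, -⟩ :=
    scale (σ := 0.0135) (θ := 0.17558) (tm := 0.12416) (by norm_num) (by norm_num) (by norm_num)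
      (by norm_num) D b1 b2 b3
  have c4 := sub_nonpos.2 hsum
  have q := fun (t q S' : ℝ) (ht : t ≤ 1) => act00 (C := CA) (s := s) (t := t) (q := q)
    (S := (0.0135 - s - ms t2 - ms t3) + (ms t2) + (ms t3)) (S' := S') rfl
    (by norm_num [CA]) (by norm_num [CA]) (by norm_num [CA]) D.s0 ht (by linarith)
  have u1 : t1 ≤ 1 := by linarith
  have u2 : t2 ≤ 1 := by linarith
  have u3 : t3 ≤ 1 := by linarith
  refine PF_of (q _ _ _ u2) (q _ _ _ u3) (q _ _ _ u1) (q _ _ _ u3) (q _ _ _ u1) (q _ _ _ u2) ?_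
  subst e0 e1 e2 e3
  exact k2_1 v0 v1 x0 x1 y0 y1 z0 z1 c4

theorem w2_2 {s t1 t2 t3 : ℝ} (D : Dom CA.σ s t1 t2 t3) :
    0 ≤ PF CA s t1 t2 t3 0 t1 t2 0 0 t3
      (ms t1) (0.0135 - s - ms t1 - ms t3) (ms t3) := by
  obtain ⟨g1, g2, g3, b1, b2, b3⟩ := mt D
  have hsum := D.sum
  have hsg : CA.σ = 0.0135 := rfl
  rw [hsg] at hsum
  obtain ⟨v, x, y, z, v0, v1, x0, x1, y0, y1, z0, z1, e0, e1, e2, e3, -, -, -⟩ :=
    scale (σ := 0.0135) (θ := 0.17558) (tm := 0.12416) (by norm_num) (by norm_num) (by norm_num)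
      (by norm_num) D b1 b2 b3
  have c4 := sub_nonpos.2 hsum
  have q := fun (t q S' : ℝ) (ht : t ≤ 1) => act00 (C := CA) (s := s) (t := t) (q := q)
    (S := (ms t1) + (0.0135 - s - ms t1 - ms t3) + (ms t3)) (S' := S') rfl
    (by norm_num [CA]) (by norm_num [CA]) (by norm_num [CA]) D.s0 ht (by linarith)
  have u1 : t1 ≤ 1 := by linarith
  have u2 : t2 ≤ 1 := by linarith
  have u3 : t3 ≤ 1 := by linarith
  refine PF_of (q _ _ _ u2) (q _ _ _ u3) (q _ _ _ u1) (q _ _ _ u3) (q _ _ _ u1) (q _ _ _ u2) ?_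
  subst e0 e1 e2 e3
  exact k2_2 v0 v1 x0 x1 y0 y1 z0 z1 c4

theorem w2_3 {s t1 t2 t3 : ℝ} (D : Dom CA.σ s t1 t2 t3) :
    0 ≤ PF CA s t1 t2 t3 0 t1 t2 0 0 t3
      (ms t1) (ms t2) (0.0135 - s - ms t1 - ms t2) := by
  obtain ⟨g1, g2, g3, b1, b2, b3⟩ := mt D
  have hsum := D.sum
  have hsg : CA.σ = 0.0135 := rfl
  rw [hsg] at hsum
  obtain ⟨v, x, y, z, v0, v1, x0, x1, y0, y1, z0, z1, e0, e1, e2, e3, -, -, -⟩ :=
    scale (σ := 0.0135) (θ := 0.17558) (tm := 0.12416) (by norm_num) (by norm_num) (by norm_num)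
      (by norm_num) D b1 b2 b3
  have c4 := sub_nonpos.2 hsum
  have q := fun (t q S' : ℝ) (ht : t ≤ 1) => act00 (C := CA) (s := s) (t := t) (q := q)
    (S := (ms t1) + (ms t2) + (0.0135 - s - ms t1 - ms t2)) (S' := S') rfl
    (by norm_num [CA]) (by norm_num [CA]) (by norm_num [CA]) D.s0 ht (by linarith)
  have u1 : t1 ≤ 1 := by linarith
  have u2 : t2 ≤ 1 := by linarith
  have u3 : t3 ≤ 1 := by linarith
  refine PF_of (q _ _ _ u2) (q _ _ _ u3) (q _ _ _ u1) (q _ _ _ u3) (q _ _ _ u1) (q _ _ _ u2) ?_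
  subst e0 e1 e2 e3
  exact k2_3 v0 v1 x0 x1 y0 y1 z0 z1 c4

theorem w3_0 {s t1 t2 t3 : ℝ} (D : Dom CA.σ s t1 t2 t3) :
    0 ≤ PF CA s t1 t2 t3 t1 0 t2 0 0 t3
      (ms t1) (ms t2) (ms t3) := by
  obtain ⟨g1, g2, g3, b1, b2, b3⟩ := mt D
  have hsum := D.sum
  have hsg : CA.σ = 0.0135 := rfl
  rw [hsg] at hsum
  obtain ⟨v, x, y, z, v0, v1, x0, x1, y0, y1, z0, z1, e0, e1, e2, e3, -, -, -⟩ :=
    scale (σ := 0.0135) (θ := 0.17558) (tm := 0.12416) (by norm_num) (by norm_num) (by norm_num)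
      (by norm_num) D b1 b2 b3
  have c4 := sub_nonpos.2 hsum
  have q := fun (t q S' : ℝ) (ht : t ≤ 1) => act00 (C := CA) (s := s) (t := t) (q := q)
    (S := (ms t1) + (ms t2) + (ms t3)) (S' := S') rfl
    (by norm_num [CA]) (by norm_num [CA]) (by norm_num [CA]) D.s0 ht (by linarith)
  have u1 : t1 ≤ 1 := by linarith
  have u2 : t2 ≤ 1 := by linarith
  have u3 : t3 ≤ 1 := by linarith
  refine PF_of (q _ _ _ u2) (q _ _ _ u3) (q _ _ _ u1) (q _ _ _ u3) (q _ _ _ u1) (q _ _ _ u2) ?_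
  subst e0 e1 e2 e3
  exact k3_0 v0 v1 x0 x1 y0 y1 z0 z1 c4

theorem w3_1 {s t1 t2 t3 : ℝ} (D : Dom CA.σ s t1 t2 t3) :
    0 ≤ PF CA s t1 t2 t3 t1 0 t2 0 0 t3
      (0.0135 - s - ms t2 - ms t3) (ms t2) (ms t3) := by
  obtain ⟨g1, g2, g3, b1, b2, b3⟩ := mt D
  have hsum := D.sum
  have hsg : CA.σ = 0.0135 := rfl
  rw [hsg] at hsum
  obtain ⟨v, x, y, z, v0, v1, x0, x1, y0, y1, z0, z1, e0, e1, e2, e3, -, -, -⟩ :=
    scale (σ := 0.0135) (θ := 0.17558) (tm := 0.12416) (by norm_num) (by norm_num) (by norm_num)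
      (by norm_num) D b1 b2 b3
  have c4 := sub_nonpos.2 hsum
  have q := fun (t q S' : ℝ) (ht : t ≤ 1) => act00 (C := CA) (s := s) (t := t) (q := q)
    (S := (0.0135 - s - ms t2 - ms t3) + (ms t2) + (ms t3)) (S' := S') rfl
    (by norm_num [CA]) (by norm_num [CA]) (by norm_num [CA]) D.s0 ht (by linarith)
  have u1 : t1 ≤ 1 := by linarith
  have u2 : t2 ≤ 1 := by linarith
  have u3 : t3 ≤ 1 := by linarith
  refine PF_of (q _ _ _ u2) (q _ _ _ u3) (q _ _ _ u1) (q _ _ _ u3) (q _ _ _ u1) (q _ _ _ u2) ?_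
  subst e0 e1 e2 e3
  exact k3_1 v0 v1 x0 x1 y0 y1 z0 z1 c4

theorem w3_2 {s t1 t2 t3 : ℝ} (D : Dom CA.σ s t1 t2 t3) :
    0 ≤ PF CA s t1 t2 t3 t1 0 t2 0 0 t3
      (ms t1) (0.0135 - s - ms t1 - ms t3) (ms t3) := by
  obtain ⟨g1, g2, g3, b1, b2, b3⟩ := mt D
  have hsum := D.sum
  have hsg : CA.σ = 0.0135 := rfl
  rw [hsg] at hsum
  obtain ⟨v, x, y, z, v0, v1, x0, x1, y0, y1, z0, z1, e0, e1, e2, e3, -, -, -⟩ :=
    scale (σ := 0.0135) (θ := 0.17558) (tm := 0.12416) (by norm_num) (by norm_num) (by norm_num)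
      (by norm_num) D b1 b2 b3
  have c4 := sub_nonpos.2 hsum
  have q := fun (t q S' : ℝ) (ht : t ≤ 1) => act00 (C := CA) (s := s) (t := t) (q := q)
    (S := (ms t1) + (0.0135 - s - ms t1 - ms t3) + (ms t3)) (S' := S') rfl
    (by norm_num [CA]) (by norm_num [CA]) (by norm_num [CA]) D.s0 ht (by linarith)
  have u1 : t1 ≤ 1 := by linarith
  have u2 : t2 ≤ 1 := by linarith
  have u3 : t3 ≤ 1 := by linarith
  refine PF_of (q _ _ _ u2) (q _ _ _ u3) (q _ _ _ u1) (q _ _ _ u3) (q _ _ _ u1) (q _ _ _ u2) ?_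
  subst e0 e1 e2 e3
  exact k3_2 v0 v1 x0 x1 y0 y1 z0 z1 c4

theorem w3_3 {s t1 t2 t3 : ℝ} (D : Dom CA.σ s t1 t2 t3) :
    0 ≤ PF CA s t1 t2 t3 t1 0 t2 0 0 t3
      (ms t1) (ms t2) (0.0135 - s - ms t1 - ms t2) := by
  obtain ⟨g1, g2, g3, b1, b2, b3⟩ := mt D
  have hsum := D.sum
  have hsg : CA.σ = 0.0135 := rfl
  rw [hsg] at hsum
  obtain ⟨v, x, y, z, v0, v1, x0, x1, y0, y1, z0, z1, e0, e1, e2, e3, -, -, -⟩ :=
    scale (σ := 0.0135) (θ := 0.17558) (tm := 0.12416) (by norm_num) (by norm_num) (by norm_num)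
      (by norm_num) D b1 b2 b3
  have c4 := sub_nonpos.2 hsum
  have q := fun (t q S' : ℝ) (ht : t ≤ 1) => act00 (C := CA) (s := s) (t := t) (q := q)
    (S := (ms t1) + (ms t2) + (0.0135 - s - ms t1 - ms t2)) (S' := S') rfl
    (by norm_num [CA]) (by norm_num [CA]) (by norm_num [CA]) D.s0 ht (by linarith)
  have u1 : t1 ≤ 1 := by linarith
  have u2 : t2 ≤ 1 := by linarith
  have u3 : t3 ≤ 1 := by linarith
  refine PF_of (q _ _ _ u2) (q _ _ _ u3) (q _ _ _ u1) (q _ _ _ u3) (q _ _ _ u1) (q _ _ _ u2) ?_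
  subst e0 e1 e2 e3
  exact k3_3 v0 v1 x0 x1 y0 y1 z0 z1 c4

theorem w4_0 {s t1 t2 t3 : ℝ} (D : Dom CA.σ s t1 t2 t3) :
    0 ≤ PF CA s t1 t2 t3 0 t1 0 t2 t3 0
      (ms t1) (ms t2) (ms t3) := by
  obtain ⟨g1, g2, g3, b1, b2, b3⟩ := mt D
  have hsum := D.sum
  have hsg : CA.σ = 0.0135 := rfl
  rw [hsg] at hsum
  obtain ⟨v, x, y, z, v0, v1, x0, x1, y0, y1, z0, z1, e0, e1, e2, e3, -, -, -⟩ :=
    scale (σ := 0.0135) (θ := 0.17558) (tm := 0.12416) (by norm_num) (by norm_num) (by norm_num)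
      (by norm_num) D b1 b2 b3
  have c4 := sub_nonpos.2 hsum
  have q := fun (t q S' : ℝ) (ht : t ≤ 1) => act00 (C := CA) (s := s) (t := t) (q := q)
    (S := (ms t1) + (ms t2) + (ms t3)) (S' := S') rfl
    (by norm_num [CA]) (by norm_num [CA]) (by norm_num [CA]) D.s0 ht (by linarith)
  have u1 : t1 ≤ 1 := by linarith
  have u2 : t2 ≤ 1 := by linarith
  have u3 : t3 ≤ 1 := by linarith
  refine PF_of (q _ _ _ u2) (q _ _ _ u3) (q _ _ _ u1) (q _ _ _ u3) (q _ _ _ u1) (q _ _ _ u2) ?_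
  subst e0 e1 e2 e3
  exact k4_0 v0 v1 x0 x1 y0 y1 z0 z1 c4

theorem w4_1 {s t1 t2 t3 : ℝ} (D : Dom CA.σ s t1 t2 t3) :
    0 ≤ PF CA s t1 t2 t3 0 t1 0 t2 t3 0
      (0.0135 - s - ms t2 - ms t3) (ms t2) (ms t3) := by
  obtain ⟨g1, g2, g3, b1, b2, b3⟩ := mt D
  have hsum := D.sum
  have hsg : CA.σ = 0.0135 := rfl
  rw [hsg] at hsum
  obtain ⟨v, x, y, z, v0, v1, x0, x1, y0, y1, z0, z1, e0, e1, e2, e3, -, -, -⟩ :=
    scale (σ := 0.0135) (θ := 0.17558) (tm := 0.12416) (by norm_num) (by norm_num) (by norm_num)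
      (by norm_num) D b1 b2 b3
  have c4 := sub_nonpos.2 hsum
  have q := fun (t q S' : ℝ) (ht : t ≤ 1) => act00 (C := CA) (s := s) (t := t) (q := q)
    (S := (0.0135 - s - ms t2 - ms t3) + (ms t2) + (ms t3)) (S' := S') rfl
    (by norm_num [CA]) (by norm_num [CA]) (by norm_num [CA]) D.s0 ht (by linarith)
  have u1 : t1 ≤ 1 := by linarith
  have u2 : t2 ≤ 1 := by linarith
  have u3 : t3 ≤ 1 := by linarith
  refine PF_of (q _ _ _ u2) (q _ _ _ u3) (q _ _ _ u1) (q _ _ _ u3) (q _ _ _ u1) (q _ _ _ u2) ?_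
  subst e0 e1 e2 e3
  exact k4_1 v0 v1 x0 x1 y0 y1 z0 z1 c4

theorem w4_2 {s t1 t2 t3 : ℝ} (D : Dom CA.σ s t1 t2 t3) :
    0 ≤ PF CA s t1 t2 t3 0 t1 0 t2 t3 0
      (ms t1) (0.0135 - s - ms t1 - ms t3) (ms t3) := by
  obtain ⟨g1, g2, g3, b1, b2, b3⟩ := mt D
  have hsum := D.sum
  have hsg : CA.σ = 0.0135 := rfl
  rw [hsg] at hsum
  obtain ⟨v, x, y, z, v0, v1, x0, x1, y0, y1, z0, z1, e0, e1, e2, e3, -, -, -⟩ :=
    scale (σ := 0.0135) (θ := 0.17558) (tm := 0.12416) (by norm_num) (by norm_num) (by norm_num)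
      (by norm_num) D b1 b2 b3
  have c4 := sub_nonpos.2 hsum
  have q := fun (t q S' : ℝ) (ht : t ≤ 1) => act00 (C := CA) (s := s) (t := t) (q := q)
    (S := (ms t1) + (0.0135 - s - ms t1 - ms t3) + (ms t3)) (S' := S') rfl
    (by norm_num [CA]) (by norm_num [CA]) (by norm_num [CA]) D.s0 ht (by linarith)
  have u1 : t1 ≤ 1 := by linarith
  have u2 : t2 ≤ 1 := by linarith
  have u3 : t3 ≤ 1 := by linarith
  refine PF_of (q _ _ _ u2) (q _ _ _ u3) (q _ _ _ u1) (q _ _ _ u3) (q _ _ _ u1) (q _ _ _ u2) ?_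
  subst e0 e1 e2 e3
  exact k4_2 v0 v1 x0 x1 y0 y1 z0 z1 c4

theorem w4_3 {s t1 t2 t3 : ℝ} (D : Dom CA.σ s t1 t2 t3) :
    0 ≤ PF CA s t1 t2 t3 0 t1 0 t2 t3 0
      (ms t1) (ms t2) (0.0135 - s - ms t1 - ms t2) := by
  obtain ⟨g1, g2, g3, b1, b2, b3⟩ := mt D
  have hsum := D.sum
  have hsg : CA.σ = 0.0135 := rfl
  rw [hsg] at hsum
  obtain ⟨v, x, y, z, v0, v1, x0, x1, y0, y1, z0, z1, e0, e1, e2, e3, -, -, -⟩ :=
    scale (σ := 0.0135) (θ := 0.17558) (tm := 0.12416) (by norm_num) (by norm_num) (by norm_num)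
      (by norm_num) D b1 b2 b3
  have c4 := sub_nonpos.2 hsum
  have q := fun (t q S' : ℝ) (ht : t ≤ 1) => act00 (C := CA) (s := s) (t := t) (q := q)
    (S := (ms t1) + (ms t2) + (0.0135 - s - ms t1 - ms t2)) (S' := S') rfl
    (by norm_num [CA]) (by norm_num [CA]) (by norm_num [CA]) D.s0 ht (by linarith)
  have u1 : t1 ≤ 1 := by linarith
  have u2 : t2 ≤ 1 := by linarith
  have u3 : t3 ≤ 1 := by linarith
  refine PF_of (q _ _ _ u2) (q _ _ _ u3) (q _ _ _ u1) (q _ _ _ u3) (q _ _ _ u1) (q _ _ _ u2) ?_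
  subst e0 e1 e2 e3
  exact k4_3 v0 v1 x0 x1 y0 y1 z0 z1 c4

theorem w5_0 {s t1 t2 t3 : ℝ} (D : Dom CA.σ s t1 t2 t3) :
    0 ≤ PF CA s t1 t2 t3 t1 0 0 t2 t3 0
      (ms t1) (ms t2) (ms t3) := by
  obtain ⟨g1, g2, g3, b1, b2, b3⟩ := mt D
  have hsum := D.sum
  have hsg : CA.σ = 0.0135 := rfl
  rw [hsg] at hsum
  obtain ⟨v, x, y, z, v0, v1, x0, x1, y0, y1, z0, z1, e0, e1, e2, e3, -, -, -⟩ :=
    scale (σ := 0.0135) (θ := 0.17558) (tm := 0.12416) (by norm_num) (by norm_num) (by norm_num)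
      (by norm_num) D b1 b2 b3
  have c4 := sub_nonpos.2 hsum
  have q := fun (t q S' : ℝ) (ht : t ≤ 1) => act00 (C := CA) (s := s) (t := t) (q := q)
    (S := (ms t1) + (ms t2) + (ms t3)) (S' := S') rfl
    (by norm_num [CA]) (by norm_num [CA]) (by norm_num [CA]) D.s0 ht (by linarith)
  have u1 : t1 ≤ 1 := by linarith
  have u2 : t2 ≤ 1 := by linarith
  have u3 : t3 ≤ 1 := by linarith
  refine PF_of (q _ _ _ u2) (q _ _ _ u3) (q _ _ _ u1) (q _ _ _ u3) (q _ _ _ u1) (q _ _ _ u2) ?_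
  subst e0 e1 e2 e3
  exact k5_0 v0 v1 x0 x1 y0 y1 z0 z1 c4

theorem w5_1 {s t1 t2 t3 : ℝ} (D : Dom CA.σ s t1 t2 t3) :
    0 ≤ PF CA s t1 t2 t3 t1 0 0 t2 t3 0
      (0.0135 - s - ms t2 - ms t3) (ms t2) (ms t3) := by
  obtain ⟨g1, g2, g3, b1, b2, b3⟩ := mt D
  have hsum := D.sum
  have hsg : CA.σ = 0.0135 := rfl
  rw [hsg] at hsum
  obtain ⟨v, x, y, z, v0, v1, x0, x1, y0, y1, z0, z1, e0, e1, e2, e3, -, -, -⟩ :=
    scale (σ := 0.0135) (θ := 0.17558) (tm := 0.12416) (by norm_num) (by norm_num) (by norm_num)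
      (by norm_num) D b1 b2 b3
  have c4 := sub_nonpos.2 hsum
  have q := fun (t q S' : ℝ) (ht : t ≤ 1) => act00 (C := CA) (s := s) (t := t) (q := q)
    (S := (0.0135 - s - ms t2 - ms t3) + (ms t2) + (ms t3)) (S' := S') rfl
    (by norm_num [CA]) (by norm_num [CA]) (by norm_num [CA]) D.s0 ht (by linarith)
  have u1 : t1 ≤ 1 := by linarith
  have u2 : t2 ≤ 1 := by linarith
  have u3 : t3 ≤ 1 := by linarith
  refine PF_of (q _ _ _ u2) (q _ _ _ u3) (q _ _ _ u1) (q _ _ _ u3) (q _ _ _ u1) (q _ _ _ u2) ?_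
  subst e0 e1 e2 e3
  exact k5_1 v0 v1 x0 x1 y0 y1 z0 z1 c4

theorem w5_2 {s t1 t2 t3 : ℝ} (D : Dom CA.σ s t1 t2 t3) :
    0 ≤ PF CA s t1 t2 t3 t1 0 0 t2 t3 0
      (ms t1) (0.0135 - s - ms t1 - ms t3) (ms t3) := by
  obtain ⟨g1, g2, g3, b1, b2, b3⟩ := mt D
  have hsum := D.sum
  have hsg : CA.σ = 0.0135 := rfl
  rw [hsg] at hsum
  obtain ⟨v, x, y, z, v0, v1, x0, x1, y0, y1, z0, z1, e0, e1, e2, e3, -, -, -⟩ :=
    scale (σ := 0.0135) (θ := 0.17558) (tm := 0.12416) (by norm_num) (by norm_num) (by norm_num)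
      (by norm_num) D b1 b2 b3
  have c4 := sub_nonpos.2 hsum
  have q := fun (t q S' : ℝ) (ht : t ≤ 1) => act00 (C := CA) (s := s) (t := t) (q := q)
    (S := (ms t1) + (0.0135 - s - ms t1 - ms t3) + (ms t3)) (S' := S') rfl
    (by norm_num [CA]) (by norm_num [CA]) (by norm_num [CA]) D.s0 ht (by linarith)
  have u1 : t1 ≤ 1 := by linarith
  have u2 : t2 ≤ 1 := by linarith
  have u3 : t3 ≤ 1 := by linarith
  refine PF_of (q _ _ _ u2) (q _ _ _ u3) (q _ _ _ u1) (q _ _ _ u3) (q _ _ _ u1) (q _ _ _ u2) ?_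
  subst e0 e1 e2 e3
  exact k5_2 v0 v1 x0 x1 y0 y1 z0 z1 c4

theorem w5_3 {s t1 t2 t3 : ℝ} (D : Dom CA.σ s t1 t2 t3) :
    0 ≤ PF CA s t1 t2 t3 t1 0 0 t2 t3 0
      (ms t1) (ms t2) (0.0135 - s - ms t1 - ms t2) := by
  obtain ⟨g1, g2, g3, b1, b2, b3⟩ := mt D
  have hsum := D.sum
  have hsg : CA.σ = 0.0135 := rfl
  rw [hsg] at hsum
  obtain ⟨v, x, y, z, v0, v1, x0, x1, y0, y1, z0, z1, e0, e1, e2, e3, -, -, -⟩ :=
    scale (σ := 0.0135) (θ := 0.17558) (tm := 0.12416) (by norm_num) (by norm_num) (by norm_num)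
      (by norm_num) D b1 b2 b3
  have c4 := sub_nonpos.2 hsum
  have q := fun (t q S' : ℝ) (ht : t ≤ 1) => act00 (C := CA) (s := s) (t := t) (q := q)
    (S := (ms t1) + (ms t2) + (0.0135 - s - ms t1 - ms t2)) (S' := S') rfl
    (by norm_num [CA]) (by norm_num [CA]) (by norm_num [CA]) D.s0 ht (by linarith)
  have u1 : t1 ≤ 1 := by linarith
  have u2 : t2 ≤ 1 := by linarith
  have u3 : t3 ≤ 1 := by linarith
  refine PF_of (q _ _ _ u2) (q _ _ _ u3) (q _ _ _ u1) (q _ _ _ u3) (q _ _ _ u1) (q _ _ _ u2) ?_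
  subst e0 e1 e2 e3
  exact k5_3 v0 v1 x0 x1 y0 y1 z0 z1 c4

theorem w6_0 {s t1 t2 t3 : ℝ} (D : Dom CA.σ s t1 t2 t3) :
    0 ≤ PF CA s t1 t2 t3 0 t1 t2 0 t3 0
      (ms t1) (ms t2) (ms t3) := by
  obtain ⟨g1, g2, g3, b1, b2, b3⟩ := mt D
  have hsum := D.sum
  have hsg : CA.σ = 0.0135 := rfl
  rw [hsg] at hsum
  obtain ⟨v, x, y, z, v0, v1, x0, x1, y0, y1, z0, z1, e0, e1, e2, e3, -, -, -⟩ :=
    scale (σ := 0.0135) (θ := 0.17558) (tm := 0.12416) (by norm_num) (by norm_num) (by norm_num)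
      (by norm_num) D b1 b2 b3
  have c4 := sub_nonpos.2 hsum
  have q := fun (t q S' : ℝ) (ht : t ≤ 1) => act00 (C := CA) (s := s) (t := t) (q := q)
    (S := (ms t1) + (ms t2) + (ms t3)) (S' := S') rfl
    (by norm_num [CA]) (by norm_num [CA]) (by norm_num [CA]) D.s0 ht (by linarith)
  have u1 : t1 ≤ 1 := by linarith
  have u2 : t2 ≤ 1 := by linarith
  have u3 : t3 ≤ 1 := by linarith
  refine PF_of (q _ _ _ u2) (q _ _ _ u3) (q _ _ _ u1) (q _ _ _ u3) (q _ _ _ u1) (q _ _ _ u2) ?_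
  subst e0 e1 e2 e3
  exact k6_0 v0 v1 x0 x1 y0 y1 z0 z1 c4

theorem w6_1 {s t1 t2 t3 : ℝ} (D : Dom CA.σ s t1 t2 t3) :
    0 ≤ PF CA s t1 t2 t3 0 t1 t2 0 t3 0
      (0.0135 - s - ms t2 - ms t3) (ms t2) (ms t3) := by
  obtain ⟨g1, g2, g3, b1, b2, b3⟩ := mt D
  have hsum := D.sum
  have hsg : CA.σ = 0.0135 := rfl
  rw [hsg] at hsum
  obtain ⟨v, x, y, z, v0, v1, x0, x1, y0, y1, z0, z1, e0, e1, e2, e3, -, -, -⟩ :=
    scale (σ := 0.0135) (θ := 0.17558) (tm := 0.12416) (by norm_num) (by norm_num) (by norm_num)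
      (by norm_num) D b1 b2 b3
  have c4 := sub_nonpos.2 hsum
  have q := fun (t q S' : ℝ) (ht : t ≤ 1) => act00 (C := CA) (s := s) (t := t) (q := q)
    (S := (0.0135 - s - ms t2 - ms t3) + (ms t2) + (ms t3)) (S' := S') rfl
    (by norm_num [CA]) (by norm_num [CA]) (by norm_num [CA]) D.s0 ht (by linarith)
  have u1 : t1 ≤ 1 := by linarith
  have u2 : t2 ≤ 1 := by linarith
  have u3 : t3 ≤ 1 := by linarith
  refine PF_of (q _ _ _ u2) (q _ _ _ u3) (q _ _ _ u1) (q _ _ _ u3) (q _ _ _ u1) (q _ _ _ u2) ?_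
  subst e0 e1 e2 e3
  exact k6_1 v0 v1 x0 x1 y0 y1 z0 z1 c4

theorem w6_2 {s t1 t2 t3 : ℝ} (D : Dom CA.σ s t1 t2 t3) :
    0 ≤ PF CA s t1 t2 t3 0 t1 t2 0 t3 0
      (ms t1) (0.0135 - s - ms t1 - ms t3) (ms t3) := by
  obtain ⟨g1, g2, g3, b1, b2, b3⟩ := mt D
  have hsum := D.sum
  have hsg : CA.σ = 0.0135 := rfl
  rw [hsg] at hsum
  obtain ⟨v, x, y, z, v0, v1, x0, x1, y0, y1, z0, z1, e0, e1, e2, e3, -, -, -⟩ :=
    scale (σ := 0.0135) (θ := 0.17558) (tm := 0.12416) (by norm_num) (by norm_num) (by norm_num)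
      (by norm_num) D b1 b2 b3
  have c4 := sub_nonpos.2 hsum
  have q := fun (t q S' : ℝ) (ht : t ≤ 1) => act00 (C := CA) (s := s) (t := t) (q := q)
    (S := (ms t1) + (0.0135 - s - ms t1 - ms t3) + (ms t3)) (S' := S') rfl
    (by norm_num [CA]) (by norm_num [CA]) (by norm_num [CA]) D.s0 ht (by linarith)
  have u1 : t1 ≤ 1 := by linarith
  have u2 : t2 ≤ 1 := by linarith
  have u3 : t3 ≤ 1 := by linarith
  refine PF_of (q _ _ _ u2) (q _ _ _ u3) (q _ _ _ u1) (q _ _ _ u3) (q _ _ _ u1) (q _ _ _ u2) ?_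
  subst e0 e1 e2 e3
  exact k6_2 v0 v1 x0 x1 y0 y1 z0 z1 c4

theorem w6_3 {s t1 t2 t3 : ℝ} (D : Dom CA.σ s t1 t2 t3) :
    0 ≤ PF CA s t1 t2 t3 0 t1 t2 0 t3 0
      (ms t1) (ms t2) (0.0135 - s - ms t1 - ms t2) := by
  obtain ⟨g1, g2, g3, b1, b2, b3⟩ := mt D
  have hsum := D.sum
  have hsg : CA.σ = 0.0135 := rfl
  rw [hsg] at hsum
  obtain ⟨v, x, y, z, v0, v1, x0, x1, y0, y1, z0, z1, e0, e1, e2, e3, -, -, -⟩ :=
    scale (σ := 0.0135) (θ := 0.17558) (tm := 0.12416) (by norm_num) (by norm_num) (by norm_num)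
      (by norm_num) D b1 b2 b3
  have c4 := sub_nonpos.2 hsum
  have q := fun (t q S' : ℝ) (ht : t ≤ 1) => act00 (C := CA) (s := s) (t := t) (q := q)
    (S := (ms t1) + (ms t2) + (0.0135 - s - ms t1 - ms t2)) (S' := S') rfl
    (by norm_num [CA]) (by norm_num [CA]) (by norm_num [CA]) D.s0 ht (by linarith)
  have u1 : t1 ≤ 1 := by linarith
  have u2 : t2 ≤ 1 := by linarith
  have u3 : t3 ≤ 1 := by linarith
  refine PF_of (q _ _ _ u2) (q _ _ _ u3) (q _ _ _ u1) (q _ _ _ u3) (q _ _ _ u1) (q _ _ _ u2) ?_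
  subst e0 e1 e2 e3
  exact k6_3 v0 v1 x0 x1 y0 y1 z0 z1 c4

theorem w7_0 {s t1 t2 t3 : ℝ} (D : Dom CA.σ s t1 t2 t3) :
    0 ≤ PF CA s t1 t2 t3 t1 0 t2 0 t3 0
      (ms t1) (ms t2) (ms t3) := by
  obtain ⟨g1, g2, g3, b1, b2, b3⟩ := mt D
  have hsum := D.sum
  have hsg : CA.σ = 0.0135 := rfl
  rw [hsg] at hsum
  obtain ⟨v, x, y, z, v0, v1, x0, x1, y0, y1, z0, z1, e0, e1, e2, e3, -, -, -⟩ :=
    scale (σ := 0.0135) (θ := 0.17558) (tm := 0.12416) (by norm_num) (by norm_num) (by norm_num)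
      (by norm_num) D b1 b2 b3
  have c4 := sub_nonpos.2 hsum
  have q := fun (t q S' : ℝ) (ht : t ≤ 1) => act00 (C := CA) (s := s) (t := t) (q := q)
    (S := (ms t1) + (ms t2) + (ms t3)) (S' := S') rfl
    (by norm_num [CA]) (by norm_num [CA]) (by norm_num [CA]) D.s0 ht (by linarith)
  have u1 : t1 ≤ 1 := by linarith
  have u2 : t2 ≤ 1 := by linarith
  have u3 : t3 ≤ 1 := by linarith
  refine PF_of (q _ _ _ u2) (q _ _ _ u3) (q _ _ _ u1) (q _ _ _ u3) (q _ _ _ u1) (q _ _ _ u2) ?_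
  subst e0 e1 e2 e3
  exact k7_0 v0 v1 x0 x1 y0 y1 z0 z1 c4

theorem w7_1 {s t1 t2 t3 : ℝ} (D : Dom CA.σ s t1 t2 t3) :
    0 ≤ PF CA s t1 t2 t3 t1 0 t2 0 t3 0
      (0.0135 - s - ms t2 - ms t3) (ms t2) (ms t3) := by
  obtain ⟨g1, g2, g3, b1, b2, b3⟩ := mt D
  have hsum := D.sum
  have hsg : CA.σ = 0.0135 := rfl
  rw [hsg] at hsum
  obtain ⟨v, x, y, z, v0, v1, x0, x1, y0, y1, z0, z1, e0, e1, e2, e3, -, -, -⟩ :=
    scale (σ := 0.0135) (θ := 0.17558) (tm := 0.12416) (by norm_num) (by norm_num) (by norm_num)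
      (by norm_num) D b1 b2 b3
  have c4 := sub_nonpos.2 hsum
  have q := fun (t q S' : ℝ) (ht : t ≤ 1) => act00 (C := CA) (s := s) (t := t) (q := q)
    (S := (0.0135 - s - ms t2 - ms t3) + (ms t2) + (ms t3)) (S' := S') rfl
    (by norm_num [CA]) (by norm_num [CA]) (by norm_num [CA]) D.s0 ht (by linarith)
  have u1 : t1 ≤ 1 := by linarith
  have u2 : t2 ≤ 1 := by linarith
  have u3 : t3 ≤ 1 := by linarith
  refine PF_of (q _ _ _ u2) (q _ _ _ u3) (q _ _ _ u1) (q _ _ _ u3) (q _ _ _ u1) (q _ _ _ u2) ?_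
  subst e0 e1 e2 e3
  exact k7_1 v0 v1 x0 x1 y0 y1 z0 z1 c4

theorem w7_2 {s t1 t2 t3 : ℝ} (D : Dom CA.σ s t1 t2 t3) :
    0 ≤ PF CA s t1 t2 t3 t1 0 t2 0 t3 0
      (ms t1) (0.0135 - s - ms t1 - ms t3) (ms t3) := by
  obtain ⟨g1, g2, g3, b1, b2, b3⟩ := mt D
  have hsum := D.sum
  have hsg : CA.σ = 0.0135 := rfl
  rw [hsg] at hsum
  obtain ⟨v, x, y, z, v0, v1, x0, x1, y0, y1, z0, z1, e0, e1, e2, e3, -, -, -⟩ :=
    scale (σ := 0.0135) (θ := 0.17558) (tm := 0.12416) (by norm_num) (by norm_num) (by norm_num)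
      (by norm_num) D b1 b2 b3
  have c4 := sub_nonpos.2 hsum
  have q := fun (t q S' : ℝ) (ht : t ≤ 1) => act00 (C := CA) (s := s) (t := t) (q := q)
    (S := (ms t1) + (0.0135 - s - ms t1 - ms t3) + (ms t3)) (S' := S') rfl
    (by norm_num [CA]) (by norm_num [CA]) (by norm_num [CA]) D.s0 ht (by linarith)
  have u1 : t1 ≤ 1 := by linarith
  have u2 : t2 ≤ 1 := by linarith
  have u3 : t3 ≤ 1 := by linarith
  refine PF_of (q _ _ _ u2) (q _ _ _ u3) (q _ _ _ u1) (q _ _ _ u3) (q _ _ _ u1) (q _ _ _ u2) ?_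
  subst e0 e1 e2 e3
  exact k7_2 v0 v1 x0 x1 y0 y1 z0 z1 c4

theorem w7_3 {s t1 t2 t3 : ℝ} (D : Dom CA.σ s t1 t2 t3) :
    0 ≤ PF CA s t1 t2 t3 t1 0 t2 0 t3 0
      (ms t1) (ms t2) (0.0135 - s - ms t1 - ms t2) := by
  obtain ⟨g1, g2, g3, b1, b2, b3⟩ := mt D
  have hsum := D.sum
  have hsg : CA.σ = 0.0135 := rfl
  rw [hsg] at hsum
  obtain ⟨v, x, y, z, v0, v1, x0, x1, y0, y1, z0, z1, e0, e1, e2, e3, -, -, -⟩ :=
    scale (σ := 0.0135) (θ := 0.17558) (tm := 0.12416) (by norm_num) (by norm_num) (by norm_num)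
      (by norm_num) D b1 b2 b3
  have c4 := sub_nonpos.2 hsum
  have q := fun (t q S' : ℝ) (ht : t ≤ 1) => act00 (C := CA) (s := s) (t := t) (q := q)
    (S := (ms t1) + (ms t2) + (0.0135 - s - ms t1 - ms t2)) (S' := S') rfl
    (by norm_num [CA]) (by norm_num [CA]) (by norm_num [CA]) D.s0 ht (by linarith)
  have u1 : t1 ≤ 1 := by linarith
  have u2 : t2 ≤ 1 := by linarith
  have u3 : t3 ≤ 1 := by linarith
  refine PF_of (q _ _ _ u2) (q _ _ _ u3) (q _ _ _ u1) (q _ _ _ u3) (q _ _ _ u1) (q _ _ _ u2) ?_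
  subst e0 e1 e2 e3
  exact k7_3 v0 v1 x0 x1 y0 y1 z0 z1 c4

theorem vert : Vert CA := fun s t1 t2 t3 D =>
  ⟨⟨⟨⟨w7_0 D, w7_1 D⟩, w7_2 D, w7_3 D⟩,
    ⟨⟨w6_0 D, w6_1 D⟩, w6_2 D, w6_3 D⟩,
    ⟨⟨w5_0 D, w5_1 D⟩, w5_2 D, w5_3 D⟩,
    ⟨⟨w4_0 D, w4_1 D⟩, w4_2 D, w4_3 D⟩⟩,
    ⟨⟨w3_0 D, w3_1 D⟩, w3_2 D, w3_3 D⟩,
    ⟨⟨w2_0 D, w2_1 D⟩, w2_2 D, w2_3 D⟩,
    ⟨⟨w1_0 D, w1_1 D⟩, w1_2 D, w1_3 D⟩,
    ⟨⟨w0_0 D, w0_1 D⟩, w0_2 D, w0_3 D⟩⟩

theorem ok : Ok CA where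
  A0 := by norm_num [CA]
  K0 := le_rfl
  wpB := by norm_num [CA]
  wqB := by norm_num [CA]
  r00 := by norm_num [CA]
  r10 := le_rfl
  r20 := le_rfl
  k20 := by norm_num [CA]
  k21 := by norm_num [CA]
  dom := by
    intro s t1 t2 t3 D S _ _
    have hT := Tle D
    have h0 : 0 ≤ t1 + t2 + t3 := by linarith [D.p1, D.p2, D.p3]
    have er : rho CA s S = CA.r0 := by
      have h1 : CA.r1 = 0 := rfl
      have h2 : CA.r2 = 0 := rfl
      unfold rho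
      rw [h1, h2]
      ring
    have a0 := gg0 (t := t1 + t2 + t3) (by norm_num; exact h0) (by norm_num; linarith)
    have a1 := gg1 (t := t1 + t2 + t3) (by norm_num; exact h0) (by norm_num; linarith)
    rw [er]
    exact ⟨a0, by linarith⟩
  vert := vert

theorem fp0_ok : checkK 103 66 [4]
    (N 0 (N 0 (N 0 O (N 0 O O)) O) O)
    [[(1334375000000000000, [0]), (-17399189925000000000, [1]), (63917100552577750000, [2]),
    (-39053595495519819000, [3]), (-7786575949976854489, [4])]] = true := by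
  decide +kernel

theorem fp0 {t : ℝ}
    (ht0 : 0 ≤ t) (ht1 : t ≤ 2617 / 10000) :
    0 ≤ (CA.f0 + CA.f1 * t + CA.f2 * t ^ 2) * (1 - t ^ 2 / 4)
      - 22.6276 * (35 / 48 + 9 /
    16 * t + 5 / 12 * t ^ 2) ^ 2 := by
  obtain ⟨m, hm, h⟩ := checkK_sound fp0_ok
    [(t - (0)) * (10000 / 2617)]
    (by
      intro a ha
      simp only [List.mem_cons, List.not_mem_nil, or_false] at ha
      subst ha
      all_goals constructor
      all_goals linarith)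
  simp only [List.mem_cons, List.not_mem_nil, or_false] at hm
  subst hm
  · apply nonneg_of_mul_nonneg_right (a := (144000000000000000000 : ℝ)) _ (by norm_num)
    refine le_of_le_of_eq h ?_
    simp only [PBox.evm, PBox.mon, PBox.xs]
    push_cast
    simp only [CA]
    ring

theorem fa0_ok : checkK 43 40 [2]
    O
    [[(991307500000, [0]), (-111610143125, [1]), (-49057159307, [2])]] = true := by
  decide +kernel

theorem fa0 {t : ℝ}
    (ht0 : 0 ≤ t) (ht1 : t ≤ 2617 / 10000) :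
    0 ≤ 2.04 - CA.r0 * (CA.f0 + CA.f1 * t + CA.f2 * t ^ 2) := by
  obtain ⟨m, hm, h⟩ := checkK_sound fa0_ok
    [(t - (0)) * (10000 / 2617)]
    (by
      intro a ha
      simp only [List.mem_cons, List.not_mem_nil, or_false] at ha
      subst ha
      all_goals constructor
      all_goals linarith)
  simp only [List.mem_cons, List.not_mem_nil, or_false] at hm
  subst hm
  · apply nonneg_of_mul_nonneg_right (a := (625000000000 : ℝ)) _ (by norm_num)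
    refine le_of_le_of_eq h ?_
    simp only [PBox.evm, PBox.mon, PBox.xs]
    push_cast
    simp only [CA]
    ring

theorem rng : Pool.Agent.Helper73.MEI.ArCor.Rng 0.0135 0.08216 0.9419 0.12336 1.06169 0.007167 0.003864 0.001125 1.00338 1.23299 1.23025 0.12188 := by
  constructor <;> norm_num

theorem apg : Pool.Agent.Helper33.FaceG.Apg 0.0135 0.9419 0.2617 1.06543 0.12186 CA.x0 CA.x1 CA.f0 CA.f1 CA.f2 where
  X3 := by norm_num
  Tm0 := by norm_num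
  Tm2 := by norm_num
  TmX := by norm_num
  r0 := by norm_num
  rX := by norm_num
  V0 := by norm_num
  VX := by norm_num
  x00 := by norm_num [CA]
  x0r := by norm_num [CA]
  x1r := by norm_num [CA]
  xT := by norm_num [CA]
  fp := by
    intro T h0 h1
    have := fp0 (t := T) (by norm_num; exact h0) (by norm_num; linarith)
    linarith

theorem fA (T : ℝ) (h0 : 0 ≤ T) (h1 : T ≤ 0.2617) :
    CA.r0 * (CA.f0 + CA.f1 * T + CA.f2 * T ^ 2) ≤ 2.04 := by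
  have := fa0 (t := T) (by norm_num; exact h0) (by norm_num; linarith)
  linarith

end Helper33.MEI.ArT.IA
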