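import Pool.Agent.Helper33.MEI.CoreL
import Pool.Agent.Helper33.MEI.IAW

/-!
# Linear prices on the range up to 0.0135: the core statement

`coreP_IA`: states with `∑ S ≤ 0.0135`, moments at most `0.0377`, cost of the second order term
`w0 + w1 S_i + w2 ∑_{j ≠ i} S_j + 0.1 (∑ n_k) ∑ S`: the margin is
`0.1963 - w1 - 3 w2` per unit of `∑ S`.
-/

set_option autoImplicit false

namespace Pool.Agent.Helper33.CoreL

open Set Metric MeasureTheory Filter Topology Helper80.CW Helper82.CW Helper14.CW Helper93.MEI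
open Helper82.M2 Helper14.MEI2 Pool.Agent.Helper52.MEI Pool.Agent.Helper73.MEI Helper37.MEI
open Helper41.MEI
open Pool.Agent.Helper73.MEI.ArCor
open Helper33.MEI (Wi)
open Pool.Agent.Helper55.Apex (nc)
open Pool.Agent.Helper73.MEI.SideP
open Pool.Agent.Helper31.SR
open Helper78.MEI
open Pool.Agent.Helper33.FaceG
open Helper33.MEI.ArT.IA (CA)
open scoped RealInnerProductSpace ENNReal

theorem coreP_IA {c0 c1 c3 : ℝ} (hA : Asm c0 c1 c3) {P : (Fin 4 → ℝ) → Prop}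
    {X κ w0 w1 w2 T0 : ℝ} (hκ : 0 ≤ κ) (h3 : 0 ≤ c3)
    (hP : ∀ (K : Set E3) (σ : Measure (E3 × E3)), IsFiniteMeasure σ →
      ∀ a c : Fin 4 → E3, CN K σ a c → EpsLe c X → ∀ S : Fin 4 → ℝ, Viol K a S → P S →
      T0 ≤ ∑ i, S i ∧ ∑ i, S i ≤ 0.0135)
    (hM : ∀ (K : Set E3) (σ : Measure (E3 × E3)), IsFiniteMeasure σ →
      ∀ a c : Fin 4 → E3, CN K σ a c → EpsLe c X → ∀ S : Fin 4 → ℝ, Viol K a S → P S →
      ∀ (τ : Equiv.Perm (Fin 4)) (p k : Fin 3), k ≠ p → MA σ a (l2 a) τ p k ≤ 0.0377)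
    (hW : WOKG 0.0377 w0 w1 w2 0 0 0.1 X P)
    (k0 : (c0 + 4 * w0) + c1 * T0 + c3 * T0 ^ 3 + 4.08 * κ * T0 ≤
      (0.1963 - w1 - 3 * w2) * T0)
    (kX : (c0 + 4 * w0) + c1 * 0.0135 + c3 * 0.0135 ^ 3 + 4.08 * κ * 0.0135 ≤
      (0.1963 - w1 - 3 * w2) * 0.0135) (hT0 : 0 ≤ T0) :
    CoreP P X κ := by
  refine coreP_lin (C := CA) hA hκ h3 (by norm_num : (0 : ℝ) < 0.0377) ?_ hM hW
    Helper33.MEI.ArT.IA.rng Helper33.MEI.ArT.IA.ok (by norm_num [CA]) (by norm_num [CA])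
    (by norm_num [CA]) (by norm_num [CA]) (by norm_num [CA]) (by norm_num [CA])
    (by norm_num [CA]) (by norm_num [CA]) rfl (by norm_num [CA]) rfl rfl rfl rfl
    Helper33.MEI.ArT.IA.apg ?_ ?_ ?_ hT0
  · intro K σ hσ a c hC hX S hV hPS
    obtain ⟨h0, h1⟩ := hP K σ hσ a c hC hX S hV hPS
    refine ⟨h0, h1, fun i => ?_⟩
    have := Finset.single_le_sum (f := S) (fun j _ => hV.nn j) (Finset.mem_univ i)
    linarith
  · intro T h0 h1
    have := Helper33.MEI.ArT.IA.fA T h0 h1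
    have e : CA.r0 = 0.0377 := by norm_num [CA]
    rwa [e] at this
  · have e : CA.c - 3 * CA.p = 0.1963 := by norm_num [CA]
    rw [e]
    exact k0
  · have e : CA.c - 3 * CA.p = 0.1963 := by norm_num [CA]
    rw [e]
    exact kX

end Pool.Agent.Helper33.CoreL
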