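import Pool.Agent.Helper14.MEI2.Part
import Pool.Agent.Helper22.MEI.CoMp

/-!
# Project MEI (M2): projective coordinates of the cone of a regular tetrahedron at the vertex `0`

`Sx a x = (lam, (b1, b2))`, `lam = 1 - b0`, where `b_k = bar a k x`; the volume of `E3` is
`1/√2` times the volume in these coordinates, and integrals over the cone are integrals over
`lam > 0` and the flat simplex with the weight `lam ^ 2`.
-/

namespace Helper33.MEI

open Set Metric MeasureTheory Real Helper80.CW Helper82.CW Helper14.CW Helper93.MEI Helper22.Sig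
open Helper22.Wedge Helper14.MEI2
open scoped RealInnerProductSpace ENNReal

variable {a : Fin 4 → E3}

/-- projective coordinates -/
noncomputable def Sx (a : Fin 4 → E3) (x : E3) : ℝ × (ℝ × ℝ) :=
  (1 - bar a 0 x, (bar a 1 x, bar a 2 x))

/-- the matrix of the linear part in the frame -/
noncomputable def Mx : Matrix (Fin 3) (Fin 3) ℝ :=
  !![-1, 0, -(√2 / 2); -1, 0, √2 / 2; 0, 1, -(√2 / 2)]

theorem Mx_det : Mx.det = √2 := by
  unfold Mx
  rw [Matrix.det_fin_three]
  simp only [Matrix.of_apply, Matrix.cons_val', Matrix.cons_val_zero, Matrix.cons_val_one,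
    Matrix.cons_val_two, Matrix.head_cons, Matrix.tail_cons, Matrix.head_fin_const,
    Matrix.cons_val_fin_one]
  ring

/-- the linear map -/
noncomputable def Lx (b : OrthonormalBasis (Fin 3) ℝ E3) : E3 →ₗ[ℝ] E3 :=
  Matrix.toLin b.toBasis b.toBasis Mx

theorem Lx_det (b : OrthonormalBasis (Fin 3) ℝ E3) : LinearMap.det (Lx b) = √2 := by
  unfold Lx
  rw [LinearMap.det_toLin, Mx_det]

theorem Lx_inner (b : OrthonormalBasis (Fin 3) ℝ E3) (x : E3) (i : Fin 3) :
    ⟪b i, Lx b x⟫ = Mx i 0 * ⟪b 0, x⟫ + Mx i 1 * ⟪b 1, x⟫ + Mx i 2 * ⟪b 2, x⟫ := by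
  have h1 : Lx b x = ∑ j, (Mx.mulVec (b.toBasis.repr x)) j • b.toBasis j := by
    unfold Lx
    rw [Matrix.toLin_apply]
  have h2 : ∀ j, b.toBasis.repr x j = ⟪b j, x⟫ := fun j => by
    rw [OrthonormalBasis.coe_toBasis_repr_apply, b.repr_apply_apply]
  have h3 : ∀ j, b.toBasis j = b j := fun j => by rw [OrthonormalBasis.coe_toBasis]
  have h4 : ⟪b i, Lx b x⟫ = (Mx.mulVec (b.toBasis.repr x)) i := by
    rw [h1, inner_sum]
    simp only [h3, real_inner_smul_right]
    rw [Finset.sum_eq_single i]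
    · rw [ib b i i, if_pos rfl, mul_one]
    · intro j _ hj
      rw [ib b i j, if_neg (Ne.symm hj), mul_zero]
    · intro h; exact absurd (Finset.mem_univ i) h
  rw [h4]
  show ∑ j, Mx i j * (b.toBasis.repr x) j = _
  rw [Fin.sum_univ_three, h2, h2, h2]

theorem Sx_eq (ha : ∀ i j, i ≠ j → dist (a i) (a j) = 1) {b : OrthonormalBasis (Fin 3) ℝ E3}
    (hb : Fr a b) (x : E3) :
    Sx a x = co b 0 (Lx b (x - cen a)) + (3 / 4, (1 / 4, 1 / 4)) := by
  obtain ⟨e0, e1, e2, e3⟩ := al_co ha hb x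
  have c0 : (co b (cen a) x).1 = ⟪b 0, x - cen a⟫ := rfl
  have c1 : (co b (cen a) x).2.1 = ⟪b 1, x - cen a⟫ := rfl
  have c2 : (co b (cen a) x).2.2 = ⟪b 2, x - cen a⟫ := rfl
  rw [c0, c2] at e0 e1
  rw [c1, c2] at e2 e3
  have l0 := Lx_inner b (x - cen a) 0
  have l1 := Lx_inner b (x - cen a) 1
  have l2 := Lx_inner b (x - cen a) 2
  have m0 : Mx 0 0 = -1 ∧ Mx 0 1 = 0 ∧ Mx 0 2 = -(√2 / 2) := ⟨rfl, rfl, rfl⟩
  have m1 : Mx 1 0 = -1 ∧ Mx 1 1 = 0 ∧ Mx 1 2 = √2 / 2 := ⟨rfl, rfl, rfl⟩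
  have m2 : Mx 2 0 = 0 ∧ Mx 2 1 = 1 ∧ Mx 2 2 = -(√2 / 2) := ⟨rfl, rfl, rfl⟩
  rw [m0.1, m0.2.1, m0.2.2] at l0
  rw [m1.1, m1.2.1, m1.2.2] at l1
  rw [m2.1, m2.2.1, m2.2.2] at l2
  unfold Sx bar co
  rw [sub_zero, e0, e1, e2, l0, l1, l2]
  ext
  · simp only [Prod.fst_add]; ring
  · simp only [Prod.snd_add, Prod.fst_add]; ring
  · simp only [Prod.snd_add]; ring

theorem Sx_cont (a : Fin 4 → E3) : Continuous (Sx a) := by
  have h0 := bar_cont a 0
  have h1 := bar_cont a 1
  have h2 := bar_cont a 2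
  unfold Sx
  fun_prop

theorem Sx_inj (ha : ∀ i j, i ≠ j → dist (a i) (a j) = 1) : Function.Injective (Sx a) := by
  have g := gram_of_dist ha
  intro x y h
  have h0 : 1 - bar a 0 x = 1 - bar a 0 y := congrArg (fun q : ℝ × (ℝ × ℝ) => q.1) h
  have h1 : bar a 1 x = bar a 1 y := congrArg (fun q : ℝ × (ℝ × ℝ) => q.2.1) h
  have h2 : bar a 2 x = bar a 2 y := congrArg (fun q : ℝ × (ℝ × ℝ) => q.2.2) h
  have h0' : bar a 0 x = bar a 0 y := by linarith
  have h3 : bar a 3 x = bar a 3 y := by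
    have s1 := bar_sum g x
    have s2 := bar_sum g y
    linarith
  have e1 := bar_expand g x
  have e2 := bar_expand g y
  rw [h0', h1, h2, h3, ← e2] at e1
  exact sub_left_injective e1

theorem Sx_emb (ha : ∀ i j, i ≠ j → dist (a i) (a j) = 1) : MeasurableEmbedding (Sx a) :=
  (Sx_cont a).measurableEmbedding (Sx_inj ha)

/-- **the volume in projective coordinates** -/
theorem Sx_map (ha : ∀ i j, i ≠ j → dist (a i) (a j) = 1) :
    Measure.map (Sx a) volume = ENNReal.ofReal (√2)⁻¹ • (volume : Measure (ℝ × (ℝ × ℝ))) := by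
  obtain ⟨b, hb⟩ := Fr_exists ha
  have hd : LinearMap.det (Lx b) ≠ 0 := by
    rw [Lx_det]
    positivity
  have m1 : Measure.map (fun x : E3 => x - cen a) volume = volume :=
    (measurePreserving_sub_right volume (cen a)).map_eq
  have m2 : Measure.map (Lx b) (volume : Measure E3) = ENNReal.ofReal (√2)⁻¹ • volume := by
    rw [Measure.map_linearMap_addHaar_eq_smul_addHaar volume hd, Lx_det, abs_of_pos (by positivity)]
  have m3 : Measure.map (co b 0) (volume : Measure E3) = volume := (co_mp b 0).map_eq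
  have i1 : (volume : Measure (ℝ × ℝ)).IsAddRightInvariant := by
    rw [Measure.volume_eq_prod]; infer_instance
  have i2 : (volume : Measure (ℝ × (ℝ × ℝ))).IsAddRightInvariant := by
    rw [Measure.volume_eq_prod]; infer_instance
  have m4 : Measure.map (fun q : ℝ × (ℝ × ℝ) => q + (3 / 4, (1 / 4, 1 / 4))) volume = volume :=
    (measurePreserving_add_right volume _).map_eq
  have e : Sx a = (fun q : ℝ × (ℝ × ℝ) => q + (3 / 4, (1 / 4, 1 / 4))) ∘ (co b 0) ∘ (Lx b) ∘
      (fun x : E3 => x - cen a) := funext fun x => Sx_eq ha hb x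
  have n1 : Measurable (fun x : E3 => x - cen a) := measurable_id.sub_const _
  have n2 : Measurable (Lx b) := (LinearMap.continuous_of_finiteDimensional (Lx b)).measurable
  have n3 : Measurable (co b 0) := (co_cd b 0).continuous.measurable
  have n4 : Measurable (fun q : ℝ × (ℝ × ℝ) => q + (3 / 4, (1 / 4, 1 / 4))) :=
    measurable_id.add_const _
  rw [e, ← Measure.map_map n4 (n3.comp (n2.comp n1)), ← Measure.map_map n3 (n2.comp n1),
    ← Measure.map_map n2 n1, m1, m2, Measure.map_smul, m3, Measure.map_smul, m4]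

/-- integrals in projective coordinates -/
theorem int_Sx (ha : ∀ i j, i ≠ j → dist (a i) (a j) = 1) (A : Set (ℝ × (ℝ × ℝ)))
    (F : ℝ × (ℝ × ℝ) → ℝ) :
    ∫ x in Sx a ⁻¹' A, F (Sx a x) = (√2)⁻¹ * ∫ q in A, F q := by
  have h1 := (Sx_emb ha).setIntegral_map (μ := (volume : Measure E3)) F A
  rw [← h1, Sx_map ha, Measure.restrict_smul, integral_smul_measure,
    ENNReal.toReal_ofReal (by positivity), smul_eq_mul]

theorem int_Sx_on (ha : ∀ i j, i ≠ j → dist (a i) (a j) = 1) (A : Set (ℝ × (ℝ × ℝ)))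
    {F : ℝ × (ℝ × ℝ) → ℝ} (hF : IntegrableOn F A) :
    IntegrableOn (fun x => F (Sx a x)) (Sx a ⁻¹' A) := by
  have h1 : IntegrableOn F A (Measure.map (Sx a) volume) := by
    rw [Sx_map ha]
    unfold IntegrableOn
    rw [Measure.restrict_smul]
    exact hF.smul_measure ENNReal.ofReal_ne_top
  exact ((Sx_emb ha).integrableOn_map_iff).1 h1

/-- the open flat simplex -/
def Dl : Set (ℝ × ℝ) := {t | 0 < t.1 ∧ 0 < t.2 ∧ t.1 + t.2 < 1}

/-- the cone in projective coordinates -/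
def Cn : Set (ℝ × (ℝ × ℝ)) := {q | 0 < q.2.1 ∧ 0 < q.2.2 ∧ q.2.1 + q.2.2 < q.1}

theorem Dl_meas : MeasurableSet Dl := by
  have h1 : Measurable fun t : ℝ × ℝ => t.1 + t.2 := measurable_fst.add measurable_snd
  exact (measurableSet_lt measurable_const measurable_fst).inter
    ((measurableSet_lt measurable_const measurable_snd).inter (measurableSet_lt h1 measurable_const))

theorem Cn_meas : MeasurableSet Cn := by
  have h0 : Measurable fun q : ℝ × (ℝ × ℝ) => q.2.1 := measurable_snd.fst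
  have h0' : Measurable fun q : ℝ × (ℝ × ℝ) => q.2.2 := measurable_snd.snd
  have h1 : Measurable fun q : ℝ × (ℝ × ℝ) => q.2.1 + q.2.2 := h0.add h0'
  exact (measurableSet_lt measurable_const h0).inter
    ((measurableSet_lt measurable_const h0').inter (measurableSet_lt h1 measurable_fst))

theorem TC_Sx (ha : ∀ i j, i ≠ j → dist (a i) (a j) = 1) : TC a 0 = Sx a ⁻¹' Cn := by
  have g := gram_of_dist ha
  rw [TC_bar ha]
  ext x
  have hs := bar_sum g x
  show (∀ k, k ≠ 0 → 0 < bar a k x) ↔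
    (0 < bar a 1 x ∧ 0 < bar a 2 x ∧ bar a 1 x + bar a 2 x < 1 - bar a 0 x)
  constructor
  · intro h
    have h1 := h 1 (by decide)
    have h2 := h 2 (by decide)
    have h3 := h 3 (by decide)
    exact ⟨h1, h2, by linarith⟩
  · rintro ⟨h1, h2, h3⟩ k hk
    fin_cases k
    · exact absurd rfl hk
    · exact h1
    · exact h2
    · show 0 < bar a 3 x
      linarith

/-- scaling of the sections of the cone -/
theorem sec_scale {l : ℝ} (hl : 0 < l) (F : ℝ × ℝ → ℝ) :
    ∫ s, {s : ℝ × ℝ | 0 < s.1 ∧ 0 < s.2 ∧ s.1 + s.2 < l}.indicator F s =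
      l ^ 2 * ∫ t in Dl, F (l • t) := by
  have h1 := Measure.integral_comp_smul (volume : Measure (ℝ × ℝ))
    ({s : ℝ × ℝ | 0 < s.1 ∧ 0 < s.2 ∧ s.1 + s.2 < l}.indicator F) l
  have hf : Module.finrank ℝ (ℝ × ℝ) = 2 := by
    rw [Module.finrank_prod, Module.finrank_self]
  rw [hf, abs_of_pos (by positivity), smul_eq_mul] at h1
  have h2 : ∀ t : ℝ × ℝ, {s : ℝ × ℝ | 0 < s.1 ∧ 0 < s.2 ∧ s.1 + s.2 < l}.indicator F (l • t) =
      Dl.indicator (fun t => F (l • t)) t := by
    intro t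
    have h3 : (l • t ∈ {s : ℝ × ℝ | 0 < s.1 ∧ 0 < s.2 ∧ s.1 + s.2 < l}) ↔ t ∈ Dl := by
      show (0 < l * t.1 ∧ 0 < l * t.2 ∧ l * t.1 + l * t.2 < l) ↔ (0 < t.1 ∧ 0 < t.2 ∧ t.1 + t.2 < 1)
      rw [mul_pos_iff_of_pos_left hl, mul_pos_iff_of_pos_left hl]
      have h4 : l * t.1 + l * t.2 < l ↔ t.1 + t.2 < 1 := by
        rw [← mul_add]
        constructor
        · intro h; by_contra hc; push Not at hc; nlinarith
        · intro h; nlinarith
      rw [h4]
    by_cases h : t ∈ Dl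
    · rw [indicator_of_mem h, indicator_of_mem (h3.2 h)]
    · rw [indicator_of_notMem h, indicator_of_notMem fun hc => h (h3.1 hc)]
  simp only [h2] at h1
  rw [integral_indicator Dl_meas] at h1
  rw [h1]
  field_simp

/-- **polar coordinates of the cone** -/
theorem int_Cn {F : ℝ × (ℝ × ℝ) → ℝ} (hF : IntegrableOn F Cn) :
    ∫ q in Cn, F q = ∫ l in Ioi (0 : ℝ), l ^ 2 * ∫ t in Dl, F (l, l • t) := by
  rw [← integral_indicator Cn_meas, ← integral_indicator measurableSet_Ioi]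
  have h0 : Integrable (Cn.indicator F) (volume : Measure (ℝ × (ℝ × ℝ))) :=
    (integrable_indicator_iff Cn_meas).2 hF
  rw [Measure.volume_eq_prod] at h0 ⊢
  rw [integral_prod _ h0]
  refine integral_congr_ae (Filter.Eventually.of_forall fun l => ?_)
  by_cases hl : l ∈ Ioi (0 : ℝ)
  · show ∫ s, Cn.indicator F (l, s) = (Ioi (0 : ℝ)).indicator
      (fun l => l ^ 2 * ∫ t in Dl, F (l, l • t)) l
    rw [indicator_of_mem hl, ← sec_scale hl (fun s => F (l, s))]
    refine integral_congr_ae (Filter.Eventually.of_forall fun s => ?_)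
    by_cases h : (l, s) ∈ Cn
    · show Cn.indicator F (l, s) = _
      rw [indicator_of_mem h,
        indicator_of_mem (show s ∈ {s : ℝ × ℝ | 0 < s.1 ∧ 0 < s.2 ∧ s.1 + s.2 < l} from h)]
    · show Cn.indicator F (l, s) = _
      rw [indicator_of_notMem h,
        indicator_of_notMem (show s ∉ {s : ℝ × ℝ | 0 < s.1 ∧ 0 < s.2 ∧ s.1 + s.2 < l} from h)]
  · show ∫ s, Cn.indicator F (l, s) = (Ioi (0 : ℝ)).indicator
      (fun l => l ^ 2 * ∫ t in Dl, F (l, l • t)) l
    rw [indicator_of_notMem hl]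
    rw [mem_Ioi, not_lt] at hl
    refine integral_eq_zero_of_ae (Filter.Eventually.of_forall fun s => ?_)
    have h : (l, s) ∉ Cn := by
      rintro ⟨h1, h2, h3⟩
      simp only at h1 h2 h3
      linarith
    show Cn.indicator F (l, s) = 0
    rw [indicator_of_notMem h]

end Helper33.MEI
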