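import Pool.Agent.Helper33.MEI.Rad0

/-!
# Project MEI (M2): integrals over the tetrahedron and over the sector of the ball as integrals
over the flat simplex
-/

namespace Helper33.MEI

open Set Metric MeasureTheory Real Helper80.CW Helper82.CW Helper14.CW Helper93.MEI Helper22.Sig
open Helper22.Wedge Helper14.MEI2
open scoped RealInnerProductSpace ENNReal

variable {a : Fin 4 → E3}

/-- the squared distance from the apex to the point `t` of the opposite face -/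
def mt (t : ℝ × ℝ) : ℝ := 1 - (t.1 * t.2 + t.1 * (1 - t.1 - t.2) + t.2 * (1 - t.1 - t.2))

/-- the point of the opposite face on the ray through `x` -/
noncomputable def tx (a : Fin 4 → E3) (x : E3) : ℝ × ℝ :=
  (bar a 1 x / (1 - bar a 0 x), bar a 2 x / (1 - bar a 0 x))

theorem mt_ge {t : ℝ × ℝ} : 2 / 3 ≤ mt t := by
  unfold mt
  nlinarith [sq_nonneg (t.1 - t.2), sq_nonneg (t.1 - (1 - t.1 - t.2)),
    sq_nonneg (t.2 - (1 - t.1 - t.2)), sq_nonneg (t.1 + t.2 - 2 / 3), sq_nonneg (t.1 - t.2)]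

theorem mt_pos {t : ℝ × ℝ} : 0 < mt t := lt_of_lt_of_le (by norm_num) mt_ge

theorem mt_le {t : ℝ × ℝ} (ht : t ∈ Dl) : mt t ≤ 1 := by
  obtain ⟨h1, h2, h3⟩ := ht
  unfold mt
  have h4 : 0 < 1 - t.1 - t.2 := by linarith
  nlinarith [mul_pos h1 h2, mul_pos h1 h4, mul_pos h2 h4]

theorem mt_cont : Continuous mt := by
  unfold mt
  fun_prop

/-- squared distances from the apex -/
theorem dist_mt (ha : ∀ i j, i ≠ j → dist (a i) (a j) = 1) {x : E3} (hl : 1 - bar a 0 x ≠ 0) :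
    ‖x - a 0‖ ^ 2 = (1 - bar a 0 x) ^ 2 * mt (tx a x) := by
  have g := gram_of_dist ha
  have hs := bar_sum g x
  have h3 : bar a 3 x = 1 - bar a 0 x - bar a 1 x - bar a 2 x := by linarith
  rw [norm_sub_sq_bar g, bar_vertex_self g, bar_vertex_ne g (by decide),
    bar_vertex_ne g (by decide), bar_vertex_ne g (by decide), h3]
  unfold mt tx
  field_simp
  ring

theorem T0_Sx (ha : ∀ i j, i ≠ j → dist (a i) (a j) = 1) :
    T0 a = Sx a ⁻¹' (Cn ∩ {q | q.1 < 1}) := by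
  have h1 : T0 a = TC a 0 ∩ {x | 0 < bar a 0 x} := by
    rw [TC_bar ha]
    ext x
    constructor
    · intro h; exact ⟨fun k _ => h k, h 0⟩
    · rintro ⟨h, h0⟩ k
      by_cases hk : k = 0
      · rw [hk]; exact h0
      · exact h k hk
  rw [h1, TC_Sx ha]
  ext x
  show (Sx a x ∈ Cn ∧ 0 < bar a 0 x) ↔ (Sx a x ∈ Cn ∧ 1 - bar a 0 x < 1)
  constructor
  · rintro ⟨h, h0⟩; exact ⟨h, by linarith⟩
  · rintro ⟨h, h0⟩; exact ⟨h, by linarith⟩

theorem Cn_lt_fin (r : ℝ) : volume (Cn ∩ {q : ℝ × (ℝ × ℝ) | q.1 ≤ r}) < ⊤ := by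
  have h : Cn ∩ {q : ℝ × (ℝ × ℝ) | q.1 ≤ r} ⊆ Icc (0 : ℝ) r ×ˢ (Icc (0 : ℝ) r ×ˢ Icc (0 : ℝ) r) := by
    rintro q ⟨⟨h1, h2, h3⟩, h4⟩
    have h4' : q.1 ≤ r := h4
    refine ⟨⟨by linarith, h4'⟩, ⟨h1.le, by linarith⟩, h2.le, by linarith⟩
  refine lt_of_le_of_lt (measure_mono h) ?_
  exact (isCompact_Icc.prod (isCompact_Icc.prod isCompact_Icc)).measure_lt_top

theorem Dl_fin : volume Dl < ⊤ := by
  have h : Dl ⊆ Icc (0 : ℝ) 1 ×ˢ Icc (0 : ℝ) 1 := by
    rintro q ⟨h1, h2, h3⟩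
    exact ⟨⟨h1.le, by linarith⟩, h2.le, by linarith⟩
  exact lt_of_le_of_lt (measure_mono h) (isCompact_Icc.prod isCompact_Icc).measure_lt_top

theorem scale_mem {q : ℝ × (ℝ × ℝ)} (hq : q ∈ Cn) : (q.2.1 / q.1, q.2.2 / q.1) ∈ Dl := by
  obtain ⟨h1, h2, h3⟩ := hq
  have h0 : 0 < q.1 := by linarith
  refine ⟨div_pos h1 h0, div_pos h2 h0, ?_⟩
  show q.2.1 / q.1 + q.2.2 / q.1 < 1
  rw [← add_div, div_lt_one h0]
  exact h3

/-- integrability of functions with bounded support on the cone -/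
theorem intOn_Cn {F : ℝ × (ℝ × ℝ) → ℝ} (mF : Measurable F) {r C : ℝ}
    (h1 : ∀ q ∈ Cn, q.1 ≤ r → |F q| ≤ C) (h0 : ∀ q ∈ Cn, r < q.1 → F q = 0) :
    IntegrableOn F Cn := by
  have n1 : MeasurableSet (Cn ∩ {q : ℝ × (ℝ × ℝ) | q.1 ≤ r}) :=
    Cn_meas.inter (measurableSet_le measurable_fst measurable_const)
  have n2 : MeasurableSet (Cn ∩ {q : ℝ × (ℝ × ℝ) | r < q.1}) :=
    Cn_meas.inter (measurableSet_lt measurable_const measurable_fst)
  have hA : IntegrableOn F (Cn ∩ {q : ℝ × (ℝ × ℝ) | q.1 ≤ r}) := by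
    refine Measure.integrableOn_of_bounded (M := C) (Cn_lt_fin r).ne mF.aestronglyMeasurable ?_
    filter_upwards [ae_restrict_mem n1] with q hq
    exact h1 q hq.1 hq.2
  have hB : IntegrableOn F (Cn ∩ {q : ℝ × (ℝ × ℝ) | r < q.1}) := by
    refine (integrableOn_congr_fun (g := fun _ => (0 : ℝ)) ?_ n2).2 integrableOn_zero
    intro q hq
    exact h0 q hq.1 hq.2
  refine IntegrableOn.mono_set (hA.union hB) ?_
  intro q hq
  rcases le_or_gt q.1 r with h | h
  · exact Or.inl ⟨hq, h⟩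
  · exact Or.inr ⟨hq, h⟩

theorem m_scale : Measurable (fun q : ℝ × (ℝ × ℝ) => (q.2.1 / q.1, q.2.2 / q.1)) :=
  (measurable_snd.fst.div measurable_fst).prodMk (measurable_snd.snd.div measurable_fst)

/-- **integrals of functions of the direction over the tetrahedron** -/
theorem int_T0 (ha : ∀ i j, i ≠ j → dist (a i) (a j) = 1) {h : ℝ × ℝ → ℝ} (hm : Measurable h)
    {C : ℝ} (hb : ∀ t ∈ Dl, |h t| ≤ C) :
    3 * ∫ x in T0 a, h (tx a x) = (√2)⁻¹ * ∫ t in Dl, h t := by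
  classical
  have hlt : MeasurableSet {q : ℝ × (ℝ × ℝ) | q.1 < 1} :=
    measurableSet_lt measurable_fst measurable_const
  have hC : 0 ≤ C := (abs_nonneg _).trans (hb (1 / 3, 1 / 3) ⟨by norm_num, by norm_num, by norm_num⟩)
  have e1 : ∫ x in T0 a, h (tx a x) = (√2)⁻¹ *
      ∫ q in Cn ∩ {q | q.1 < 1}, h (q.2.1 / q.1, q.2.2 / q.1) := by
    rw [T0_Sx ha, ← int_Sx ha]
    rfl
  have e2 : ∫ q in Cn ∩ {q | q.1 < 1}, h (q.2.1 / q.1, q.2.2 / q.1) =
      ∫ q in Cn, {q : ℝ × (ℝ × ℝ) | q.1 < 1}.indicator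
        (fun q => h (q.2.1 / q.1, q.2.2 / q.1)) q := (setIntegral_indicator hlt).symm
  have mF : Measurable ({q : ℝ × (ℝ × ℝ) | q.1 < 1}.indicator
        (fun q => h (q.2.1 / q.1, q.2.2 / q.1))) := (hm.comp m_scale).indicator hlt
  have hFi : IntegrableOn ({q : ℝ × (ℝ × ℝ) | q.1 < 1}.indicator
        (fun q => h (q.2.1 / q.1, q.2.2 / q.1))) Cn := by
    refine intOn_Cn mF (r := 1) (C := C) (fun q hq _ => ?_) (fun q hq hr => ?_)
    · by_cases h1 : q.1 < 1
      · rw [indicator_of_mem (show q ∈ {q : ℝ × (ℝ × ℝ) | q.1 < 1} from h1)]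
        exact hb _ (scale_mem hq)
      · rw [indicator_of_notMem (show q ∉ {q : ℝ × (ℝ × ℝ) | q.1 < 1} from h1), abs_zero]
        exact hC
    · exact indicator_of_notMem (show q ∉ {q : ℝ × (ℝ × ℝ) | q.1 < 1} from not_lt.2 hr.le) _
  have e3 : ∀ l ∈ Ioi (0 : ℝ), l ^ 2 * ∫ t in Dl, {q : ℝ × (ℝ × ℝ) | q.1 < 1}.indicator
        (fun q => h (q.2.1 / q.1, q.2.2 / q.1)) (l, l • t) =
      (Iio (1 : ℝ)).indicator (fun l => l ^ 2 * ∫ t in Dl, h t) l := by
    intro l hl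
    have hl0 : l ≠ 0 := ne_of_gt hl
    by_cases h1 : l < 1
    · rw [indicator_of_mem (show l ∈ Iio (1 : ℝ) from h1)]
      congr 1
      refine integral_congr_ae (Filter.Eventually.of_forall fun t => ?_)
      dsimp only
      rw [indicator_of_mem (show (l, l • t) ∈ {q : ℝ × (ℝ × ℝ) | q.1 < 1} from h1)]
      show h (l * t.1 / l, l * t.2 / l) = h t
      rw [mul_div_cancel_left₀ _ hl0, mul_div_cancel_left₀ _ hl0]
    · rw [indicator_of_notMem (show l ∉ Iio (1 : ℝ) from h1)]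
      have : ∫ t in Dl, {q : ℝ × (ℝ × ℝ) | q.1 < 1}.indicator
        (fun q => h (q.2.1 / q.1, q.2.2 / q.1)) (l, l • t) = 0 := by
        refine integral_eq_zero_of_ae (Filter.Eventually.of_forall fun t => ?_)
        exact indicator_of_notMem (show (l, l • t) ∉ {q : ℝ × (ℝ × ℝ) | q.1 < 1} from h1) _
      rw [this, mul_zero]
  rw [e1, e2, int_Cn hFi, setIntegral_congr_fun measurableSet_Ioi e3,
    setIntegral_indicator measurableSet_Iio, Ioi_inter_Iio, ← integral_Ioc_eq_integral_Ioo,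
    ← intervalIntegral.integral_of_le zero_le_one, intervalIntegral.integral_mul_const,
    integral_pow]
  norm_num
  ring

/-- a point of the sector of the unit ball -/
theorem ball_Sx (ha : ∀ i j, i ≠ j → dist (a i) (a j) = 1) : TC a 0 ∩ closedBall (a 0) 1 =
    Sx a ⁻¹' (Cn ∩ {q | q.1 ^ 2 * mt (q.2.1 / q.1, q.2.2 / q.1) ≤ 1}) := by
  rw [TC_Sx ha]
  ext x
  show (Sx a x ∈ Cn ∧ x ∈ closedBall (a 0) 1) ↔ (Sx a x ∈ Cn ∧ (1 - bar a 0 x) ^ 2 * mt (tx a x) ≤ 1)
  refine and_congr_right fun hx => ?_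
  have h0 : 0 < 1 - bar a 0 x := by
    obtain ⟨h1, h2, h3⟩ := hx
    have h1' : 0 < bar a 1 x := h1
    have h2' : 0 < bar a 2 x := h2
    have h3' : bar a 1 x + bar a 2 x < 1 - bar a 0 x := h3
    linarith
  rw [← dist_mt ha h0.ne', mem_closedBall, dist_eq_norm]
  have hn := norm_nonneg (x - a 0)
  constructor
  · intro h; nlinarith
  · intro h; nlinarith

/-- **the sector of the unit ball as an integral over the flat simplex** -/
theorem Om_eq' (ha : ∀ i j, i ≠ j → dist (a i) (a j) = 1) :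
    Om / 3 = (√2)⁻¹ * ∫ t in Dl, ((√(mt t))⁻¹) ^ 3 / 3 := by
  classical
  rw [← vol_TC ha 0]
  set B : Set (ℝ × (ℝ × ℝ)) := {q | q.1 ^ 2 * mt (q.2.1 / q.1, q.2.2 / q.1) ≤ 1} with hB
  have mB : MeasurableSet B :=
    measurableSet_le ((measurable_fst.pow_const 2).mul (mt_cont.measurable.comp m_scale))
      measurable_const
  have e1 : volume.real (TC a 0 ∩ closedBall (a 0) 1) = (√2)⁻¹ * ∫ q in Cn, B.indicator 1 q := by
    rw [ball_Sx ha, ← setIntegral_one_eq_measureReal, setIntegral_indicator mB]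
    exact int_Sx ha (Cn ∩ B) 1
  have hFi : IntegrableOn (B.indicator (1 : ℝ × (ℝ × ℝ) → ℝ)) Cn := by
    refine intOn_Cn (measurable_one.indicator mB) (r := 2) (C := 1) (fun q hq _ => ?_)
      (fun q hq hr => ?_)
    · by_cases h1 : q ∈ B
      · rw [indicator_of_mem h1]; simp
      · rw [indicator_of_notMem h1]; simp
    · refine indicator_of_notMem ?_ _
      intro h
      have h1 : q.1 ^ 2 * mt (q.2.1 / q.1, q.2.2 / q.1) ≤ 1 := h
      have h2 := mt_ge (t := (q.2.1 / q.1, q.2.2 / q.1))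
      nlinarith
  have e3 : ∀ l ∈ Ioi (0 : ℝ), l ^ 2 * ∫ t in Dl, B.indicator (1 : ℝ × (ℝ × ℝ) → ℝ) (l, l • t) =
      ∫ t in Dl, {t : ℝ × ℝ | l ^ 2 * mt t ≤ 1}.indicator (fun _ => l ^ 2) t := by
    intro l hl
    have hl0 : l ≠ 0 := ne_of_gt hl
    rw [← integral_const_mul]
    refine integral_congr_ae (Filter.Eventually.of_forall fun t => ?_)
    dsimp only
    have h2 : (l, l • t) ∈ B ↔ t ∈ {t : ℝ × ℝ | l ^ 2 * mt t ≤ 1} := by
      show l ^ 2 * mt (l * t.1 / l, l * t.2 / l) ≤ 1 ↔ l ^ 2 * mt t ≤ 1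
      rw [mul_div_cancel_left₀ _ hl0, mul_div_cancel_left₀ _ hl0]
    by_cases h1 : t ∈ {t : ℝ × ℝ | l ^ 2 * mt t ≤ 1}
    · rw [indicator_of_mem h1, indicator_of_mem (h2.2 h1)]
      simp
    · rw [indicator_of_notMem h1, indicator_of_notMem fun hc => h1 (h2.1 hc), mul_zero]
  have mS : MeasurableSet {p : ℝ × (ℝ × ℝ) | p.1 ^ 2 * mt p.2 ≤ 1} :=
    measurableSet_le ((measurable_fst.pow_const 2).mul (mt_cont.measurable.comp measurable_snd))
      measurable_const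
  -- the swap
  have hsw : ∫ l in Ioi (0 : ℝ), ∫ t in Dl, {t : ℝ × ℝ | l ^ 2 * mt t ≤ 1}.indicator
        (fun _ => l ^ 2) t =
      ∫ t in Dl, ∫ l in Ioi (0 : ℝ), {t : ℝ × ℝ | l ^ 2 * mt t ≤ 1}.indicator
        (fun _ => l ^ 2) t := by
    refine integral_integral_swap ?_
    have e : (Function.uncurry fun (l : ℝ) (t : ℝ × ℝ) =>
        {t : ℝ × ℝ | l ^ 2 * mt t ≤ 1}.indicator (fun _ => l ^ 2) t) =
        {p : ℝ × (ℝ × ℝ) | p.1 ^ 2 * mt p.2 ≤ 1}.indicator (fun p => p.1 ^ 2) := by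
      funext p
      obtain ⟨l, t⟩ := p
      by_cases h1 : l ^ 2 * mt t ≤ 1
      · show {t : ℝ × ℝ | l ^ 2 * mt t ≤ 1}.indicator (fun _ => l ^ 2) t = _
        rw [indicator_of_mem (show t ∈ {t : ℝ × ℝ | l ^ 2 * mt t ≤ 1} from h1),
          indicator_of_mem (show (l, t) ∈ {p : ℝ × (ℝ × ℝ) | p.1 ^ 2 * mt p.2 ≤ 1} from h1)]
      · show {t : ℝ × ℝ | l ^ 2 * mt t ≤ 1}.indicator (fun _ => l ^ 2) t = _
        rw [indicator_of_notMem (show t ∉ {t : ℝ × ℝ | l ^ 2 * mt t ≤ 1} from h1),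
          indicator_of_notMem (show (l, t) ∉ {p : ℝ × (ℝ × ℝ) | p.1 ^ 2 * mt p.2 ≤ 1} from h1)]
    rw [e, Measure.prod_restrict, ← Measure.volume_eq_prod]
    show IntegrableOn _ (Ioi (0 : ℝ) ×ˢ Dl) volume
    have hsub : (Ioi (0 : ℝ) ×ˢ Dl) ⊆ ((Ioc (0 : ℝ) 2) ×ˢ Dl) ∪ ((Ioi (2 : ℝ)) ×ˢ Dl) := by
      rintro ⟨l, t⟩ ⟨h1, h2⟩
      rcases le_or_gt l 2 with h | h
      · exact Or.inl ⟨⟨h1, h⟩, h2⟩
      · exact Or.inr ⟨h, h2⟩
    refine IntegrableOn.mono_set (IntegrableOn.union ?_ ?_) hsub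
    · refine Measure.integrableOn_of_bounded (M := 4) ?_
        ((measurable_fst.pow_const 2).indicator mS).aestronglyMeasurable ?_
      · rw [Measure.volume_eq_prod, Measure.prod_prod]
        exact (ENNReal.mul_lt_top (by rw [Real.volume_Ioc]; exact ENNReal.ofReal_lt_top) Dl_fin).ne
      · filter_upwards [ae_restrict_mem (measurableSet_Ioc.prod Dl_meas)] with p hp
        have h1 : 0 < p.1 := hp.1.1
        have h2 : p.1 ≤ 2 := hp.1.2
        by_cases h3 : p ∈ {p : ℝ × (ℝ × ℝ) | p.1 ^ 2 * mt p.2 ≤ 1}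
        · rw [indicator_of_mem h3, norm_of_nonneg (by positivity)]
          nlinarith
        · rw [indicator_of_notMem h3, norm_zero]; norm_num
    · refine (integrableOn_congr_fun (g := fun _ => (0 : ℝ)) ?_
        (measurableSet_Ioi.prod Dl_meas)).2 integrableOn_zero
      intro p hp
      refine indicator_of_notMem ?_ _
      intro h
      have h1 : p.1 ^ 2 * mt p.2 ≤ 1 := h
      have h2 := mt_ge (t := p.2)
      have h3 : 2 < p.1 := hp.1
      nlinarith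
  -- the inner integral
  have hin : ∀ t ∈ Dl, ∫ l in Ioi (0 : ℝ), {t : ℝ × ℝ | l ^ 2 * mt t ≤ 1}.indicator
        (fun _ => l ^ 2) t = ((√(mt t))⁻¹) ^ 3 / 3 := by
    intro t _
    have hm := mt_pos (t := t)
    have hs : 0 < √(mt t) := Real.sqrt_pos.2 hm
    have hs2 : √(mt t) ^ 2 = mt t := Real.sq_sqrt hm.le
    have e4 : ∀ l ∈ Ioi (0 : ℝ), {t : ℝ × ℝ | l ^ 2 * mt t ≤ 1}.indicator (fun _ => l ^ 2) t =
        (Iic (√(mt t))⁻¹).indicator (fun l => l ^ 2) l := by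
      intro l hl
      have hl0 : 0 < l := hl
      have h2 : l ^ 2 * mt t ≤ 1 ↔ l ≤ (√(mt t))⁻¹ := by
        have e5 : l ^ 2 * mt t = (l * √(mt t)) ^ 2 := by rw [mul_pow, hs2]
        rw [e5, ← one_div, le_div_iff₀ hs]
        have h5 : 0 < l * √(mt t) := mul_pos hl0 hs
        constructor
        · intro h; nlinarith
        · intro h; nlinarith
      by_cases h1 : l ^ 2 * mt t ≤ 1
      · rw [indicator_of_mem (show t ∈ {t : ℝ × ℝ | l ^ 2 * mt t ≤ 1} from h1),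
          indicator_of_mem (show l ∈ Iic (√(mt t))⁻¹ from h2.1 h1)]
      · rw [indicator_of_notMem (show t ∉ {t : ℝ × ℝ | l ^ 2 * mt t ≤ 1} from h1),
          indicator_of_notMem (show l ∉ Iic (√(mt t))⁻¹ from fun hc => h1 (h2.2 hc))]
    rw [setIntegral_congr_fun measurableSet_Ioi e4, setIntegral_indicator measurableSet_Iic,
      Ioi_inter_Iic, ← intervalIntegral.integral_of_le (by positivity), integral_pow]
    norm_num
  rw [e1, int_Cn hFi, setIntegral_congr_fun measurableSet_Ioi e3, hsw,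
    setIntegral_congr_fun Dl_meas hin]

/-- the volume of the tetrahedron as an integral over the flat simplex -/
theorem T_eq' (ha : ∀ i j, i ≠ j → dist (a i) (a j) = 1) :
    √2 / 12 = (√2)⁻¹ * ∫ _t in Dl, (1 : ℝ) / 3 := by
  have h1 := int_T0 ha (h := fun _ => (1 : ℝ)) measurable_const (C := 1) (fun _ _ => by simp)
  have h2 : volume.real (T0 a) = √2 / 12 := by
    rw [← vol_TT ha]
    refine measureReal_congr ?_
    have hn : ∀ᵐ x : E3, ∀ k, bar a k x ≠ 0 := by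
      rw [ae_all_iff]
      intro k
      rw [ae_iff]
      simpa using bar_zero_null ha k
    filter_upwards [hn] with x hx
    refine propext ?_
    show (∀ k, 0 < bar a k x) ↔ (∀ k, -(1 / 8) ≤ ⟪al a k, x - cen a⟫)
    constructor
    · intro h k
      have := h k
      unfold bar at this
      linarith
    · intro h k
      have h3 := h k
      have h4 : 0 ≤ bar a k x := by unfold bar; linarith
      exact lt_of_le_of_ne h4 (Ne.symm (hx k))
  rw [setIntegral_one_eq_measureReal, h2, setIntegral_one_eq_measureReal] at h1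
  rw [setIntegral_const, smul_eq_mul]
  linarith

/-- **the reference constant of a face cell** -/
theorem cOm (ha : ∀ i j, i ≠ j → dist (a i) (a j) = 1) :
    Om / 3 - √2 / 12 = (√2)⁻¹ * ∫ t in Dl, (((√(mt t))⁻¹) ^ 3 - 1) / 3 := by
  rw [Om_eq' ha, T_eq' ha, ← mul_sub, ← integral_sub]
  · congr 1
    refine integral_congr_ae (Filter.Eventually.of_forall fun t => ?_)
    dsimp only
    ring
  · refine Measure.integrableOn_of_bounded (M := 2) Dl_fin.ne ?_ ?_
    · have : Continuous fun t => ((√(mt t))⁻¹) ^ 3 / 3 := by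
        have h1 : Continuous fun t => √(mt t) := Real.continuous_sqrt.comp mt_cont
        exact ((h1.inv₀ fun t => (Real.sqrt_pos.2 mt_pos).ne').pow 3).div_const 3
      exact this.aestronglyMeasurable
    · refine Filter.Eventually.of_forall fun t => ?_
      have hs : 0 < √(mt t) := Real.sqrt_pos.2 mt_pos
      rw [norm_of_nonneg (by positivity)]
      have h1 : 4 / 5 ≤ √(mt t) := by
        apply Real.le_sqrt_of_sq_le
        have := mt_ge (t := t)
        linarith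
      have h2 : (√(mt t))⁻¹ ≤ 5 / 4 := by
        rw [inv_le_comm₀ hs (by norm_num)]
        linarith
      have h3 : ((√(mt t))⁻¹) ^ 3 ≤ (5 / 4) ^ 3 := pow_le_pow_left₀ (by positivity) h2 3
      linarith
  · exact integrableOn_const Dl_fin.ne

end Helper33.MEI
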